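import Mathlib

/-!
MP_eaa19d_lc (with helper81).  Amalgamated products over a common subgroup: the word problem by a
stack of syllables outside the amalgamated subgroup.
-/

set_option autoImplicit false

namespace Pool.Agent.Helper22.EA

open Monoid

variable {ι : Type} [DecidableEq ι] {G : ι → Type} [∀ i, Group (G i)] {H : Type} [Group H]
  (φ : ∀ i, H →* G i)

/-- A configuration: the bottom element of the amalgamated subgroup and the stack of syllables,
top first. -/
abbrev ACfg (G : ι → Type) (H : Type) : Type := H × List (Σ i, G i)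

/-- Multiplication by an element of the amalgamated subgroup. -/
def bmul (k : H) : ACfg G H → ACfg G H
  | (h, []) => (h * k, [])
  | (h, ⟨j, x⟩ :: l) => (h, ⟨j, x * φ j k⟩ :: l)

open Classical in
/-- The new configuration when the open top level has the element `y`: it is closed if `y` lies in
the amalgamated subgroup. -/
noncomputable def aclose (i : ι) (y : G i) (c : ACfg G H) : ACfg G H :=
  if e : ∃ k, φ i k = y then bmul φ e.choose c else (c.1, ⟨i, y⟩ :: c.2)

/-- The action of a letter. -/
noncomputable def aact (i : ι) (g : G i) : ACfg G H → ACfg G H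
  | (h, []) => aclose φ i g (h, [])
  | (h, ⟨j, x⟩ :: l) =>
    if e : j = i then aclose φ i (e ▸ x * g) (h, l) else aclose φ i g (h, ⟨j, x⟩ :: l)

/-- The value of a stack. -/
def valL : List (Σ i, G i) → PushoutI φ
  | [] => 1
  | ⟨j, x⟩ :: l => valL l * PushoutI.of j x

/-- The value of a configuration. -/
def aval (c : ACfg G H) : PushoutI φ := PushoutI.base φ c.1 * valL φ c.2

/-- Valid configurations: the syllables lie outside the amalgamated subgroup and neighbours lie in
different factors. -/
def AValid (l : List (Σ i, G i)) : Prop :=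
  (∀ e ∈ l, ∀ k, φ e.1 k ≠ e.2) ∧ l.IsChain fun a b => a.1 ≠ b.1

theorem aval_bmul (k : H) (c : ACfg G H) :
    aval φ (bmul φ k c) = aval φ c * PushoutI.base φ k := by
  obtain ⟨h, _ | ⟨⟨j, x⟩, l⟩⟩ := c
  · simp [bmul, aval, valL]
  · simp only [bmul, aval, valL, map_mul, PushoutI.of_apply_eq_base, mul_assoc]

theorem aval_aclose (i : ι) (y : G i) (c : ACfg G H) :
    aval φ (aclose φ i y c) = aval φ c * PushoutI.of i y := by
  unfold aclose
  split_ifs with e
  · rw [aval_bmul, ← PushoutI.of_apply_eq_base φ i, e.choose_spec]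
  · simp only [aval, valL, mul_assoc]

theorem aval_aact (i : ι) (g : G i) (c : ACfg G H) :
    aval φ (aact φ i g c) = aval φ c * PushoutI.of i g := by
  obtain ⟨h, _ | ⟨⟨j, x⟩, l⟩⟩ := c
  · exact aval_aclose φ i g _
  · unfold aact
    simp only
    split_ifs with e
    · subst e
      rw [aval_aclose]
      simp only [aval, valL, map_mul, mul_assoc]
    · exact aval_aclose φ i g _

theorem AValid.bmul {k : H} {c : ACfg G H} (hc : AValid φ c.2) :
    AValid φ (Pool.Agent.Helper22.EA.bmul φ k c).2 := by
  obtain ⟨h, _ | ⟨⟨j, x⟩, l⟩⟩ := c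
  · exact hc
  · obtain ⟨h1, h2⟩ := hc
    refine ⟨?_, ?_⟩
    · intro e he k'
      simp only [Pool.Agent.Helper22.EA.bmul] at he
      rcases List.mem_cons.1 he with rfl | he
      · intro h3
        apply h1 ⟨j, x⟩ List.mem_cons_self (k' * k⁻¹)
        simp only at h3 ⊢
        rw [map_mul, map_inv, h3, mul_inv_cancel_right]
      · exact h1 e (List.mem_cons_of_mem _ he) k'
    · simp only [Pool.Agent.Helper22.EA.bmul]
      cases l with
      | nil => simp
      | cons b l =>
        rw [List.isChain_cons_cons] at h2 ⊢
        exact h2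

theorem AValid.aclose {i : ι} {y : G i} {c : ACfg G H} (hc : AValid φ c.2)
    (hi : ∀ e ∈ c.2.head?, e.1 ≠ i) :
    AValid φ (Pool.Agent.Helper22.EA.aclose φ i y c).2 := by
  unfold Pool.Agent.Helper22.EA.aclose
  split_ifs with e
  · exact hc.bmul φ
  · obtain ⟨h1, h2⟩ := hc
    push Not at e
    refine ⟨?_, ?_⟩
    · intro a ha
      rcases List.mem_cons.1 ha with rfl | ha
      · exact e
      · exact h1 a ha
    · obtain ⟨h, _ | ⟨b, l⟩⟩ := c
      · simp
      · simp only at h2 ⊢
        rw [List.isChain_cons_cons]
        exact ⟨fun h3 => hi b (by simp) h3.symm, h2⟩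

theorem AValid.aact {i : ι} {g : G i} {c : ACfg G H} (hc : AValid φ c.2) :
    AValid φ (Pool.Agent.Helper22.EA.aact φ i g c).2 := by
  obtain ⟨h, _ | ⟨⟨j, x⟩, l⟩⟩ := c
  · exact AValid.aclose φ hc (by simp)
  · unfold Pool.Agent.Helper22.EA.aact
    simp only
    split_ifs with e
    · subst e
      have h1 : AValid φ l := by
        refine ⟨fun a ha => hc.1 a (List.mem_cons_of_mem _ ha), ?_⟩
        exact hc.2.tail
      refine AValid.aclose φ (c := (h, l)) h1 ?_
      intro b hb
      simp only at hb
      cases l with
      | nil => simp at hb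
      | cons b' l =>
        simp only [List.head?_cons, Option.mem_some_iff] at hb
        subst hb
        have := hc.2
        simp only at this
        rw [List.isChain_cons_cons] at this
        exact this.1.symm
    · refine AValid.aclose φ hc ?_
      intro b hb
      simp only [List.head?_cons, Option.mem_some_iff] at hb
      subst hb
      exact e

theorem valL_eq (l : List (Σ i, G i)) :
    valL φ l = PushoutI.ofCoprodI ((l.reverse.map fun e => CoprodI.of e.2).prod) := by
  induction l with
  | nil => simp [valL]
  | cons e l ih =>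
    obtain ⟨j, x⟩ := e
    simp [valL, ih]

/-- A valid configuration has trivial value only if it is the initial one. -/
theorem aval_eq_one_iff (hφ : ∀ i, Function.Injective (φ i)) {c : ACfg G H}
    (hc : AValid φ c.2) : aval φ c = 1 ↔ c = (1, []) := by
  constructor
  · intro h
    obtain ⟨h1, h2⟩ := hc
    let w : CoprodI.Word G := ⟨c.2.reverse, fun e he h3 => by
      apply h1 e (List.mem_reverse.1 he) 1
      rw [map_one, h3], by
      rw [List.isChain_reverse]
      exact h2.imp fun a b hab => hab.symm⟩
    have hred : PushoutI.Reduced φ w := by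
      intro e he
      rintro ⟨k, hk⟩
      exact h1 e (List.mem_reverse.1 he) k hk
    have hw : w = .empty := by
      apply hred.eq_empty_of_mem_range hφ
      refine ⟨c.1⁻¹, ?_⟩
      have h3 : PushoutI.ofCoprodI w.prod = valL φ c.2 := (valL_eq φ c.2).symm
      rw [h3, map_inv]
      exact (eq_inv_of_mul_eq_one_right h).symm
    have h4 : c.2 = [] := by
      have : w.toList = [] := by rw [hw]; rfl
      simpa [w] using this
    obtain ⟨a, l⟩ := c
    simp only at h4
    subst h4
    have h5 : PushoutI.base φ a = 1 := by simpa [aval, valL] using h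
    rw [(map_eq_one_iff _ (PushoutI.base_injective hφ)).1 h5]
  · rintro rfl
    simp [aval, valL]

/-- The word problem of the amalgamated product. -/
theorem aprod_eq_one_iff (hφ : ∀ i, Function.Injective (φ i)) (w : List (Σ i, G i)) :
    (w.map fun e => (PushoutI.of e.1 e.2 : PushoutI φ)).prod = 1 ↔
      w.foldl (fun c e => aact φ e.1 e.2 c) ((1 : H), []) = (1, []) := by
  have key : ∀ (w : List (Σ i, G i)) (c : ACfg G H), AValid φ c.2 →
      AValid φ (w.foldl (fun c e => aact φ e.1 e.2 c) c).2 ∧
        aval φ (w.foldl (fun c e => aact φ e.1 e.2 c) c) =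
          aval φ c * (w.map fun e => (PushoutI.of e.1 e.2 : PushoutI φ)).prod := by
    intro w
    induction w with
    | nil => intro c hc; exact ⟨hc, by simp⟩
    | cons e w ih =>
      intro c hc
      rw [List.foldl_cons]
      obtain ⟨h1, h2⟩ := ih (aact φ e.1 e.2 c) (hc.aact φ)
      refine ⟨h1, ?_⟩
      rw [h2, aval_aact, List.map_cons, List.prod_cons, mul_assoc]
  obtain ⟨h1, h2⟩ := key w (1, []) ⟨by simp, by simp⟩
  rw [← aval_eq_one_iff φ hφ h1, h2]
  simp [aval, valL]

end Pool.Agent.Helper22.EA
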