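import Mathlib
import Pool.Agent.Helper81.RT.Tidy

/-!
MP_eaa19d_lc (with helper81).  Local operations on finitely many stacks: they look only at a bounded
upper part of the stacks.  They are closed under composition, and a machine whose letters act by
local operations is a stack machine with bounded look-ahead.
-/

set_option autoImplicit false

namespace Pool.Agent.Helper22.EA

open Pool.Agent.Helper81.RT

variable {Q A J : Type} {Γ : J → Type}

/-- Put stacks `D` below the stacks of `x`. -/
def appD (x : Q × ((j : J) → List (Γ j))) (D : (j : J) → List (Γ j)) :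
    Q × ((j : J) → List (Γ j)) := (x.1, fun j => x.2 j ++ D j)

/-- The upper part of depth `c` is present or nothing lies below. -/
def Deep (c : ℕ) (x : Q × ((j : J) → List (Γ j))) (D : (j : J) → List (Γ j)) : Prop :=
  ∀ j, c ≤ (x.2 j).length ∨ D j = []

theorem Deep.mono {c c' : ℕ} (h : c ≤ c') {x : Q × ((j : J) → List (Γ j))}
    {D : (j : J) → List (Γ j)} (hx : Deep c' x D) : Deep c x D := fun j =>
  (hx j).imp (fun h1 => h.trans h1) id

/-- Local operations. -/
structure Loc (c : ℕ) (T : Q × ((j : J) → List (Γ j)) → Q × ((j : J) → List (Γ j))) : Prop where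
  app : ∀ x D, Deep c x D → T (appD x D) = appD (T x) D
  le : ∀ x j, ((T x).2 j).length ≤ (x.2 j).length + c
  ge : ∀ x j, (x.2 j).length ≤ ((T x).2 j).length + c

theorem Loc.id (c : ℕ) : Loc c (fun x : Q × ((j : J) → List (Γ j)) => x) where
  app := fun _ _ _ => rfl
  le := fun _ _ => by omega
  ge := fun _ _ => by omega

theorem Loc.mono {c c' : ℕ} (h : c ≤ c')
    {T : Q × ((j : J) → List (Γ j)) → Q × ((j : J) → List (Γ j))} (hT : Loc c T) : Loc c' T where
  app := fun x D hx => hT.app x D (hx.mono h)
  le := fun x j => (hT.le x j).trans (by omega)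
  ge := fun x j => (hT.ge x j).trans (by omega)

theorem Loc.comp {c c' : ℕ} {T T' : Q × ((j : J) → List (Γ j)) → Q × ((j : J) → List (Γ j))}
    (hT : Loc c T) (hT' : Loc c' T') : Loc (c + c') (fun x => T' (T x)) where
  app := fun x D hx => by
    rw [hT.app x D (hx.mono (by omega)), hT'.app]
    intro j
    rcases hx j with h | h
    · left
      have := hT.ge x j
      omega
    · exact Or.inr h
  le := fun x j => (hT'.le _ j).trans (by have := hT.le x j; omega)
  ge := fun x j => by
    have h1 := hT.ge x j
    have h2 := hT'.ge (T x) j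
    omega

/-- Case distinction on an observation of the upper part. -/
theorem Loc.bind {c : ℕ} {O : Type} (f : Q × ((j : J) → List (Γ j)) → O)
    (hf : ∀ x D, Deep c x D → f (appD x D) = f x)
    (F : O → Q × ((j : J) → List (Γ j)) → Q × ((j : J) → List (Γ j))) (hF : ∀ o, Loc c (F o)) :
    Loc c (fun x => F (f x) x) where
  app := fun x D hx => by
    rw [hf x D hx, (hF _).app x D hx]
  le := fun x j => (hF _).le x j
  ge := fun x j => (hF _).ge x j

/-- Replacement of the top symbols. -/
def repl (q : Q) (m : J → Bool) (l : (j : J) → List (Γ j)) (x : Q × ((j : J) → List (Γ j))) :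
    Q × ((j : J) → List (Γ j)) :=
  (q, fun j => l j ++ if m j = true then (x.2 j).tail else x.2 j)

theorem Loc.repl {c : ℕ} (hc : 1 ≤ c) (q : Q) (m : J → Bool) (l : (j : J) → List (Γ j))
    (hl : ∀ j, (l j).length ≤ c) :
    Loc c (Pool.Agent.Helper22.EA.repl q m l : Q × ((j : J) → List (Γ j)) → _) where
  app := fun x D hx => by
    unfold Pool.Agent.Helper22.EA.repl appD
    simp only [Prod.mk.injEq, true_and]
    funext j
    rw [List.append_assoc]
    congr 1
    split_ifs
    · rcases hx j with h | h
      · have : x.2 j ≠ [] := by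
          intro h0
          rw [h0] at h
          simp at h
          omega
        rw [List.tail_append_of_ne_nil this]
      · rw [h]
        simp
    · rfl
  le := fun x j => by
    simp only [Pool.Agent.Helper22.EA.repl, List.length_append]
    have := hl j
    split_ifs
    · rw [List.length_tail]; omega
    · omega
  ge := fun x j => by
    simp only [Pool.Agent.Helper22.EA.repl, List.length_append]
    split_ifs
    · rw [List.length_tail]; omega
    · omega

/-- The top symbols are an observation. -/
theorem head_appD {c : ℕ} (hc : 1 ≤ c) (x : Q × ((j : J) → List (Γ j)))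
    (D : (j : J) → List (Γ j)) (hx : Deep c x D) (j : J) :
    ((appD x D).2 j).head? = (x.2 j).head? := by
  unfold appD
  simp only
  rcases hx j with h | h
  · rw [List.head?_append_of_ne_nil]
    intro h0
    rw [h0] at h
    simp at h
    omega
  · rw [h, List.append_nil]

/-- A step which depends on the state and the top symbols and replaces the top symbols. -/
theorem Loc.step {c : ℕ} (hc : 1 ≤ c)
    (E : Q → ((j : J) → Option (Γ j)) → Q × (J → Bool) × ((j : J) → List (Γ j)))
    (hE : ∀ q o j, ((E q o).2.2 j).length ≤ c) :
    Loc c (fun x : Q × ((j : J) → List (Γ j)) =>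
      Pool.Agent.Helper22.EA.repl (E x.1 (fun j => (x.2 j).head?)).1
        (E x.1 (fun j => (x.2 j).head?)).2.1 (E x.1 (fun j => (x.2 j).head?)).2.2 x) := by
  refine Loc.bind (c := c) (O := Q × ((j : J) → Option (Γ j)))
    (fun x => (x.1, fun j => (x.2 j).head?)) ?_
    (fun o x => Pool.Agent.Helper22.EA.repl (E o.1 o.2).1 (E o.1 o.2).2.1 (E o.1 o.2).2.2 x) ?_
  · intro x D hx
    refine Prod.ext rfl ?_
    funext j
    exact head_appD hc x D hx j
  · intro o
    exact Loc.repl hc _ _ _ fun j => hE _ _ j

/-- Iterated local operations. -/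
theorem Loc.foldl {B : Type} {c : ℕ}
    (T : B → Q × ((j : J) → List (Γ j)) → Q × ((j : J) → List (Γ j))) (hT : ∀ b, Loc c (T b))
    (u : List B) : Loc (c * u.length) (fun x => u.foldl (fun x b => T b x) x) := by
  induction u with
  | nil => exact Loc.id _
  | cons b u ih =>
    refine ((hT b).comp ih).mono ?_
    rw [List.length_cons]
    ring_nf
    omega

/-- A machine whose letters act by local operations is tidy real-time if its stacks are empty after
every accepted word. -/
theorem tidy_of_loc [Finite Q] [Finite J] [∀ j, Finite (Γ j)] {c : ℕ} (hc : 0 < c)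
    (L : Set (List A)) (q0 : Q) (F : Set Q) (j0 : J)
    (T : A → Q × ((j : J) → List (Γ j)) → Q × ((j : J) → List (Γ j))) (hT : ∀ a, Loc c (T a))
    (hL : ∀ w : List A, w ∈ L ↔ ((w.foldl (fun x a => T a x) (q0, fun _ => [])).1 ∈ F ∧
      (w.foldl (fun x a => T a x) (q0, fun _ => [])).2 j0 = []))
    (hE : ∀ w ∈ L, ∀ j, (w.foldl (fun x a => T a x) (q0, fun _ => [])).2 j = []) :
    ∃ k, TidyK k A L := by
  let δ : Q → A → ((j : J) → List (Γ j)) → Q × ((j : J) → List (Γ j)) :=
    fun q a t => T a (q, fun j => (t j).take c)
  have hstep : ∀ (x : Q × ((j : J) → List (Γ j))) (a : A), dstep c δ x a = T a x := by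
    intro x a
    have h1 : appD (x.1, fun j => (x.2 j).take c) (fun j => (x.2 j).drop c) = x := by
      unfold appD
      refine Prod.ext rfl ?_
      funext j
      exact List.take_append_drop c (x.2 j)
    have h2 := (hT a).app (x.1, fun j => (x.2 j).take c) (fun j => (x.2 j).drop c) (by
      intro j
      rcases le_total c (x.2 j).length with h3 | h3
      · left
        simp only [List.length_take]
        omega
      · right
        exact List.drop_eq_nil_of_le h3)
    rw [h1] at h2
    rw [h2]
    simp only [dstep, δ, appD, List.take_take, min_self]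
  have hfold : ∀ (w : List A) (x : Q × ((j : J) → List (Γ j))),
      w.foldl (dstep c δ) x = w.foldl (fun x a => T a x) x := by
    intro w
    induction w with
    | nil => intro x; rfl
    | cons a w ih =>
      intro x
      rw [List.foldl_cons, List.foldl_cons, hstep, ih]
  refine ⟨Nat.card J, tidy_of_dstack c hc L q0 {x | x.1 ∈ F ∧ x.2 j0 = []} δ ?_ ?_⟩
  · intro q a t j
    have h1 := (hT a).le (q, fun j => (t j).take c) j
    have h2 : ((t j).take c).length ≤ c := by simp
    simp only at h1
    show ((T a (q, fun j => (t j).take c)).2 j).length ≤ 2 * c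
    omega
  · intro w
    rw [hfold]
    refine ⟨?_, fun hw j => hE w hw j⟩
    rw [hL w, Set.mem_ofPred_eq]
    simp only
    refine and_congr_right fun _ => ?_
    cases (w.foldl (fun x a => T a x) (q0, fun _ => [])).2 j0 with
    | nil => simp
    | cons y l =>
      simp only [List.take_eq_nil_iff, reduceCtorEq, or_false]
      constructor
      · intro h; exact absurd h (by simp)
      · intro h; omega

end Pool.Agent.Helper22.EA
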