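import Mathlib

/-!
MP_eaa19d_lc (with helper81).  Graph products of groups and their piles (Viennot, Crisp, Godelle,
Wiest): the word problem of a graph product is solved by a pile of syllables and beads for every
vertex, on which every letter acts at the top.
-/

set_option autoImplicit false

namespace Pool.Agent.Helper22.EA

variable {V : Type} [DecidableEq V] (Gr : SimpleGraph V) [DecidableRel Gr.Adj] (G : V → Type)
  [∀ v, Group (G v)] [∀ v, DecidableEq (G v)]

/-- The commutators of elements of adjacent vertex groups. -/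
def commRels {V : Type} (Gr : SimpleGraph V) (G : V → Type) [∀ v, Group (G v)] :
    Set (Monoid.CoprodI G) :=
  {x | ∃ (u v : V) (g : G u) (h : G v), Gr.Adj u v ∧
    x = Monoid.CoprodI.of g * Monoid.CoprodI.of h * (Monoid.CoprodI.of g)⁻¹ *
      (Monoid.CoprodI.of h)⁻¹}

/-- The graph product: the free product of the vertex groups modulo the commutators of elements of
adjacent vertex groups. -/
def GraphProduct {V : Type} (Gr : SimpleGraph V) (G : V → Type) [∀ v, Group (G v)] : Type :=
  Monoid.CoprodI G ⧸ Subgroup.normalClosure (commRels Gr G)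

instance {V : Type} (Gr : SimpleGraph V) (G : V → Type) [∀ v, Group (G v)] :
    Group (GraphProduct Gr G) :=
  QuotientGroup.Quotient.group _

/-- The vertex groups in the graph product. -/
def GraphProduct.of {V : Type} (Gr : SimpleGraph V) (G : V → Type) [∀ v, Group (G v)] (v : V) :
    G v →* GraphProduct Gr G :=
  (QuotientGroup.mk' (Subgroup.normalClosure (commRels Gr G))).comp Monoid.CoprodI.of

/-- Piles: for every vertex a list (top first) of syllables `some g` and beads `none`. -/
abbrev Pile {V : Type} (G : V → Type) : Type := (v : V) → List (Option (G v))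

/-- Put a syllable on the pile of `v` and a bead on the piles of the vertices not adjacent to `v`. -/
def push (v : V) (g : G v) (p : Pile G) : Pile G :=
  Function.update (fun u => if Gr.Adj u v then p u else none :: p u) v (some g :: p v)

/-- The action of a letter at the top of a pile. -/
def act (v : V) (g : G v) (p : Pile G) : Pile G :=
  match p v with
  | some x :: l =>
    if x * g = 1 then Function.update (fun u => if Gr.Adj u v then p u else (p u).tail) v l
    else Function.update p v (some (x * g) :: l)
  | _ => if g = 1 then p else push Gr G v g p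

variable {Gr G}

omit [∀ v, Group (G v)] [∀ v, DecidableEq (G v)] in
theorem push_self (v : V) (g : G v) (p : Pile G) : push Gr G v g p v = some g :: p v := by
  simp [push]

omit [∀ v, Group (G v)] [∀ v, DecidableEq (G v)] in
theorem push_adj {u v : V} (h : Gr.Adj u v) (g : G v) (p : Pile G) :
    push Gr G v g p u = p u := by
  simp [push, h, h.ne]

omit [∀ v, Group (G v)] [∀ v, DecidableEq (G v)] in
theorem push_not_adj {u v : V} (h : ¬ Gr.Adj u v) (huv : u ≠ v) (g : G v) (p : Pile G) :
    push Gr G v g p u = none :: p u := by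
  simp [push, h, huv]

/-- The top of the pile of `v` is not a syllable. -/
def NoSyl (v : V) (p : Pile G) : Prop := ∀ (x : G v) (l : List (Option (G v))), p v ≠ some x :: l

omit [∀ v, Group (G v)] [∀ v, DecidableEq (G v)] in
/-- Pushes at adjacent vertices commute. -/
theorem push_comm {u v : V} (h : Gr.Adj u v) (g : G u) (a : G v) (q : Pile G) :
    push Gr G u g (push Gr G v a q) = push Gr G v a (push Gr G u g q) := by
  funext w
  by_cases hu : w = u
  · subst hu
    rw [push_self, push_adj h, push_adj h, push_self]
  by_cases hv : w = v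
  · subst hv
    rw [push_adj h.symm, push_self, push_self, push_adj h.symm]
  by_cases hau : Gr.Adj w u
  · by_cases hav : Gr.Adj w v
    · rw [push_adj hau, push_adj hav, push_adj hav, push_adj hau]
    · rw [push_adj hau, push_not_adj hav hv, push_not_adj hav hv, push_adj hau]
  · by_cases hav : Gr.Adj w v
    · rw [push_not_adj hau hu, push_adj hav, push_adj hav, push_not_adj hau hu]
    · rw [push_not_adj hau hu, push_not_adj hav hv, push_not_adj hav hv, push_not_adj hau hu]

/-- The push, doing nothing for the trivial syllable. -/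
def pushE (Gr : SimpleGraph V) [DecidableRel Gr.Adj] (v : V) (g : G v) (p : Pile G) : Pile G :=
  if g = 1 then p else push Gr G v g p

theorem pushE_adj {u v : V} (h : Gr.Adj u v) (g : G v) (p : Pile G) :
    pushE Gr v g p u = p u := by
  unfold pushE
  split_ifs
  · rfl
  · exact push_adj h g p

theorem pushE_comm {u v : V} (h : Gr.Adj u v) (g : G u) (a : G v) (q : Pile G) :
    pushE Gr u g (pushE Gr v a q) = pushE Gr v a (pushE Gr u g q) := by
  unfold pushE
  split_ifs
  · rfl
  · rfl
  · rfl
  · exact push_comm h g a q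

theorem NoSyl.pushE {u v : V} (h : Gr.Adj u v) {p : Pile G} (hp : NoSyl u p) (g : G v) :
    NoSyl u (pushE Gr v g p) := by
  intro x l
  rw [pushE_adj h]
  exact hp x l

theorem NoSyl.of_pushE {u v : V} (h : Gr.Adj u v) {p : Pile G} {g : G v}
    (hp : NoSyl u (Pool.Agent.Helper22.EA.pushE Gr v g p)) : NoSyl u p := by
  intro x l
  have := hp x l
  rwa [pushE_adj h] at this

theorem act_noSyl {v : V} (g : G v) {p : Pile G} (hp : NoSyl v p) :
    act Gr G v g p = pushE Gr v g p := by
  unfold act pushE
  split
  · rename_i x l h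
    exact absurd h (hp x l)
  · rfl

theorem act_push {v : V} (a g : G v) (p : Pile G) :
    act Gr G v g (push Gr G v a p) = pushE Gr v (a * g) p := by
  have h0 := push_self (Gr := Gr) v a p
  unfold act
  rw [h0]
  simp only
  unfold pushE
  split_ifs with h
  · funext u
    by_cases hu : u = v
    · subst hu
      simp
    · rw [Function.update_of_ne hu]
      by_cases hadj : Gr.Adj u v
      · rw [if_pos hadj, push_adj hadj]
      · rw [if_neg hadj, push_not_adj hadj hu]
        rfl
  · funext u
    by_cases hu : u = v
    · subst hu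
      rw [Function.update_self, push_self]
    · rw [Function.update_of_ne hu]
      by_cases hadj : Gr.Adj u v
      · rw [push_adj hadj, push_adj hadj]
      · rw [push_not_adj hadj hu, push_not_adj hadj hu]

theorem act_pushE {v : V} (a g : G v) {p : Pile G} (hp : NoSyl v p) :
    act Gr G v g (pushE Gr v a p) = pushE Gr v (a * g) p := by
  by_cases ha : a = 1
  · subst ha
    rw [one_mul, ← act_noSyl g hp]
    simp [pushE]
  · rw [← act_push]
    simp [pushE, ha]

/-- `Val p x`: the pile `p` is obtained from the empty pile by pushes, and the product of the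
pushed syllables is `x`. -/
inductive Val (Gr : SimpleGraph V) [DecidableRel Gr.Adj] (G : V → Type) [∀ v, Group (G v)]
    [∀ v, DecidableEq (G v)] : Pile G → GraphProduct Gr G → Prop
  | nil : Val Gr G (fun _ => []) 1
  | push {p : Pile G} {x : GraphProduct Gr G} (v : V) (g : G v) : Val Gr G p x → NoSyl v p →
      g ≠ 1 → Val Gr G (Pool.Agent.Helper22.EA.push Gr G v g p) (x * GraphProduct.of Gr G v g)

omit [DecidableEq V] [DecidableRel Gr.Adj] [∀ v, DecidableEq (G v)] in
theorem of_comm {u v : V} (h : Gr.Adj u v) (g : G u) (a : G v) :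
    GraphProduct.of Gr G u g * GraphProduct.of Gr G v a =
      GraphProduct.of Gr G v a * GraphProduct.of Gr G u g := by
  have h1 : (QuotientGroup.mk' (Subgroup.normalClosure (commRels Gr G)))
      (Monoid.CoprodI.of g * Monoid.CoprodI.of a * (Monoid.CoprodI.of g)⁻¹ *
        (Monoid.CoprodI.of a)⁻¹) = 1 := by
    rw [QuotientGroup.mk'_apply, QuotientGroup.eq_one_iff]
    exact Subgroup.subset_normalClosure ⟨u, v, g, a, h, rfl⟩
  rw [map_mul, map_mul, map_mul, map_inv, map_inv] at h1
  have h2 : GraphProduct.of Gr G u g * GraphProduct.of Gr G v a *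
      (GraphProduct.of Gr G u g)⁻¹ * (GraphProduct.of Gr G v a)⁻¹ = 1 := h1
  rw [mul_inv_eq_one, mul_inv_eq_iff_eq_mul] at h2
  exact h2

/-- The exchange lemma. -/
theorem Val.exchange {p : Pile G} {y : GraphProduct Gr G} (h : Val Gr G p y) :
    ∀ {v : V} {a : G v} {l : List (Option (G v))}, p v = some a :: l →
      ∃ (p' : Pile G) (y' : GraphProduct Gr G), Val Gr G p' y' ∧ NoSyl v p' ∧ a ≠ 1 ∧
        p = Pool.Agent.Helper22.EA.push Gr G v a p' ∧ y = y' * GraphProduct.of Gr G v a := by
  induction h with
  | nil => intro v a l h; exact absurd h (by simp)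
  | @push q x u g hq hns hg ih =>
    intro v a l h
    by_cases hvu : v = u
    · subst hvu
      rw [push_self] at h
      injection h with h1 h2
      injection h1 with h3
      subst h3
      exact ⟨q, x, hq, hns, hg, rfl, rfl⟩
    · by_cases hadj : Gr.Adj v u
      · rw [push_adj hadj] at h
        obtain ⟨q', x', hq', hns', ha, rfl, rfl⟩ := ih h
        have h1 : NoSyl u q' := by
          intro z m
          have := hns z m
          rwa [push_adj hadj.symm] at this
        refine ⟨Pool.Agent.Helper22.EA.push Gr G u g q', x' * GraphProduct.of Gr G u g,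
          Val.push u g hq' h1 hg, ?_, ha, push_comm hadj.symm g a q', ?_⟩
        · intro z m
          rw [push_adj hadj]
          exact hns' z m
        · rw [mul_assoc, mul_assoc, of_comm hadj]
      · rw [push_not_adj hadj hvu] at h
        exact absurd h (by simp)

/-- The decomposition of a valid pile with respect to a vertex. -/
theorem Val.decomp {p : Pile G} {y : GraphProduct Gr G} (h : Val Gr G p y) (v : V) :
    ∃ (a : G v) (p' : Pile G) (y' : GraphProduct Gr G), Val Gr G p' y' ∧ NoSyl v p' ∧
      p = pushE Gr v a p' ∧ y = y' * GraphProduct.of Gr G v a := by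
  by_cases hns : NoSyl v p
  · exact ⟨1, p, y, h, hns, by simp [pushE], by rw [map_one, mul_one]⟩
  · unfold NoSyl at hns
    push Not at hns
    obtain ⟨a, l, hal⟩ := hns
    obtain ⟨p', y', h1, h2, h3, h4, h5⟩ := h.exchange hal
    exact ⟨a, p', y', h1, h2, by simp [pushE, h3, h4], h5⟩

theorem Val.pushE {p : Pile G} {y : GraphProduct Gr G} (h : Val Gr G p y) {v : V}
    (hp : NoSyl v p) (g : G v) :
    Val Gr G (Pool.Agent.Helper22.EA.pushE Gr v g p) (y * GraphProduct.of Gr G v g) := by
  unfold Pool.Agent.Helper22.EA.pushE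
  split_ifs with hg
  · rw [hg, map_one, mul_one]
    exact h
  · exact Val.push v g h hp hg

theorem Val.act {p : Pile G} {y : GraphProduct Gr G} (h : Val Gr G p y) (v : V) (g : G v) :
    Val Gr G (Pool.Agent.Helper22.EA.act Gr G v g p) (y * GraphProduct.of Gr G v g) := by
  obtain ⟨a, p', y', h1, h2, rfl, rfl⟩ := h.decomp v
  rw [act_pushE a g h2, mul_assoc, ← map_mul]
  exact h1.pushE h2 (a * g)

theorem Val.foldl (w : List (Σ v, G v)) : ∀ {p : Pile G} {y : GraphProduct Gr G}, Val Gr G p y →
    Val Gr G (w.foldl (fun p e => Pool.Agent.Helper22.EA.act Gr G e.1 e.2 p) p)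
      (y * (w.map fun e => GraphProduct.of Gr G e.1 e.2).prod) := by
  induction w with
  | nil => intro p y h; simpa using h
  | cons e w ih =>
    intro p y h
    rw [List.foldl_cons, List.map_cons, List.prod_cons, ← mul_assoc]
    exact ih (h.act e.1 e.2)

theorem Val.eq_one {y : GraphProduct Gr G} {p : Pile G} (h : Val Gr G p y)
    (hp : p = fun _ => []) : y = 1 := by
  cases h with
  | nil => rfl
  | push v g h1 h2 h3 =>
    have := congrFun hp v
    rw [push_self] at this
    exact absurd this (by simp)

theorem act_mul {p : Pile G} {y : GraphProduct Gr G} (h : Val Gr G p y) (v : V) (g k : G v) :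
    Pool.Agent.Helper22.EA.act Gr G v (g * k) p =
      Pool.Agent.Helper22.EA.act Gr G v k (Pool.Agent.Helper22.EA.act Gr G v g p) := by
  obtain ⟨a, p', y', h1, h2, rfl, rfl⟩ := h.decomp v
  rw [act_pushE a _ h2, act_pushE a _ h2, act_pushE _ _ h2, mul_assoc]

theorem act_one {p : Pile G} {y : GraphProduct Gr G} (h : Val Gr G p y) (v : V) :
    Pool.Agent.Helper22.EA.act Gr G v 1 p = p := by
  obtain ⟨a, p', y', h1, h2, rfl, rfl⟩ := h.decomp v
  rw [act_pushE a _ h2, mul_one]

theorem act_comm {p : Pile G} {y : GraphProduct Gr G} (h : Val Gr G p y) {u v : V}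
    (huv : Gr.Adj u v) (g : G u) (k : G v) :
    Pool.Agent.Helper22.EA.act Gr G u g (Pool.Agent.Helper22.EA.act Gr G v k p) =
      Pool.Agent.Helper22.EA.act Gr G v k (Pool.Agent.Helper22.EA.act Gr G u g p) := by
  obtain ⟨a, p', y', h1, h2, rfl, rfl⟩ := h.decomp v
  obtain ⟨b, q, z, h3, h4, rfl, rfl⟩ := h1.decomp u
  have h5 : NoSyl v q := NoSyl.of_pushE huv.symm h2
  rw [act_pushE a k h2, ← pushE_comm huv b (a * k) q, act_pushE b g (h4.pushE huv (a * k)),
    ← pushE_comm huv b a q, act_pushE b g (h4.pushE huv a), pushE_comm huv (b * g) a q,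
    act_pushE a k (h5.pushE huv.symm (b * g)), pushE_comm huv (b * g) (a * k) q]

/-- The valid piles. -/
abbrev VP (Gr : SimpleGraph V) [DecidableRel Gr.Adj] (G : V → Type) [∀ v, Group (G v)]
    [∀ v, DecidableEq (G v)] : Type := {p : Pile G // ∃ y, Val Gr G p y}

/-- The action of a letter on the valid piles. -/
def actV (v : V) (g : G v) (p : VP Gr G) : VP Gr G :=
  ⟨act Gr G v g p.1, by
    obtain ⟨y, hy⟩ := p.2
    exact ⟨_, hy.act v g⟩⟩

/-- The vertex groups act on the valid piles from the right. -/
def actHom (Gr : SimpleGraph V) [DecidableRel Gr.Adj] (G : V → Type) [∀ v, Group (G v)]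
    [∀ v, DecidableEq (G v)] (v : V) : G v →* (Function.End (VP Gr G))ᵐᵒᵖ where
  toFun g := MulOpposite.op (actV v g)
  map_one' := by
    apply congrArg MulOpposite.op
    funext p
    obtain ⟨y, hy⟩ := p.2
    exact Subtype.ext (act_one hy v)
  map_mul' g k := by
    rw [← MulOpposite.op_mul]
    apply congrArg MulOpposite.op
    funext p
    obtain ⟨y, hy⟩ := p.2
    exact Subtype.ext (act_mul hy v g k)

/-- The graph product acts on the valid piles from the right. -/
def gpHom (Gr : SimpleGraph V) [DecidableRel Gr.Adj] (G : V → Type) [∀ v, Group (G v)]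
    [∀ v, DecidableEq (G v)] : GraphProduct Gr G →* (Function.End (VP Gr G))ᵐᵒᵖ :=
  QuotientGroup.lift (Subgroup.normalClosure (commRels Gr G))
    (Monoid.CoprodI.lift (actHom Gr G)) (by
      apply Subgroup.normalClosure_le_normal
      rintro x ⟨u, v, g, k, huv, rfl⟩
      rw [SetLike.mem_coe, MonoidHom.mem_ker, ← map_inv, ← map_inv]
      simp only [map_mul, Monoid.CoprodI.lift_of]
      have hc : actHom Gr G u g * actHom Gr G v k = actHom Gr G v k * actHom Gr G u g := by
        apply MulOpposite.unop_injective
        rw [MulOpposite.unop_mul, MulOpposite.unop_mul]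
        funext p
        obtain ⟨y, hy⟩ := p.2
        exact Subtype.ext (act_comm hy huv g k).symm
      rw [hc, mul_assoc (actHom Gr G v k), ← map_mul, mul_inv_cancel, map_one, mul_one, ← map_mul,
        mul_inv_cancel, map_one])

theorem gpHom_of (v : V) (g : G v) :
    gpHom Gr G (GraphProduct.of Gr G v g) = MulOpposite.op (actV v g) := by
  change QuotientGroup.lift _ (Monoid.CoprodI.lift (actHom Gr G)) _
    (QuotientGroup.mk' _ (Monoid.CoprodI.of g)) = _
  rw [QuotientGroup.mk'_apply, QuotientGroup.lift_mk, Monoid.CoprodI.lift_of]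
  rfl

theorem gpHom_foldl (w : List (Σ v, G v)) : ∀ p : VP Gr G,
    (MulOpposite.unop (gpHom Gr G (w.map fun e => GraphProduct.of Gr G e.1 e.2).prod) p).1 =
      w.foldl (fun p e => act Gr G e.1 e.2 p) p.1 := by
  induction w with
  | nil => intro p; simp; rfl
  | cons e w ih =>
    intro p
    rw [List.foldl_cons, List.map_cons, List.prod_cons, map_mul, gpHom_of, MulOpposite.unop_mul]
    exact ih (actV e.1 e.2 p)

variable (Gr G)

/-- (P) The word problem of the graph product in terms of piles. -/
theorem prod_eq_one_iff (w : List (Σ v, G v)) :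
    (w.map fun e => GraphProduct.of Gr G e.1 e.2).prod = 1 ↔
      w.foldl (fun p e => act Gr G e.1 e.2 p) (fun _ => []) = fun _ => [] := by
  constructor
  · intro h
    have h1 := gpHom_foldl (Gr := Gr) w ⟨fun _ => [], 1, Val.nil⟩
    rw [h, map_one] at h1
    exact h1.symm
  · intro h
    have h1 := Val.foldl (Gr := Gr) w (Val.nil (G := G))
    rw [one_mul] at h1
    exact h1.eq_one h

/-- (Q) If the top of the pile of `v` is a syllable, then the top of the pile of every vertex
`u ≠ v` that is not adjacent to `v` is a bead. -/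
theorem top_bead (w : List (Σ v, G v)) {u v : V} {x : G v} {l : List (Option (G v))}
    (hv : w.foldl (fun p e => act Gr G e.1 e.2 p) (fun _ => []) v = some x :: l)
    (huv : u ≠ v) (hadj : ¬ Gr.Adj u v) :
    ∃ l', w.foldl (fun p e => act Gr G e.1 e.2 p) (fun _ => []) u = none :: l' := by
  have h1 := Val.foldl (Gr := Gr) w (Val.nil (G := G))
  obtain ⟨p', y', h2, h3, h4, h5, h6⟩ := h1.exchange hv
  rw [h5, push_not_adj hadj huv]
  exact ⟨_, rfl⟩

end Pool.Agent.Helper22.EA
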