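import Mathlib
import Pool.Agent.Helper81.RT.GPMachine
import Pool.Agent.Helper22.EA.Loc
import Pool.Agent.Helper22.EA.Amalg

/-!
MP_eaa19d_lc (with helper81).  The machine for amalgamated products of tidy real-time groups over a
common finite subgroup `H`.

A level of the stack (a syllable `g` of the factor `i`) is stored as one configuration of the
machine of `i` for every `h ∈ H`, with value `(φ i h)⁻¹ * g`; the copy `h` accepts iff `g = φ i h`.
-/

set_option autoImplicit false

namespace Pool.Agent.Helper22.EA

open Pool.Agent.Helper81.RT Pool.Agent.Helper81.RT.GPM Monoid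

namespace AM

variable {ι : Type} [DecidableEq ι] {H : Type} {A Q S : ι → Type} {k : ι → ℕ}

/-- The indices of the stacks: the control stack and the data stacks. -/
abbrev Jx (H : Type) (k : ι → ℕ) : Type := Option (Σ i, H × Fin (k i))

/-- The symbols of the stacks. -/
@[reducible] def Sy (H : Type) (Q S : ι → Type) (k : ι → ℕ) : Jx H k → Type
  | none => Σ i, (H → Q i)
  | some e => Option (S e.1)

instance [Finite ι] [Finite H] [∀ i, Finite (Q i)] [∀ i, Finite (S i)] :
    ∀ j, Finite (Sy H Q S k j)
  | none => inferInstanceAs (Finite (Σ i, (H → Q i)))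
  | some e => inferInstanceAs (Finite (Option (S e.1)))

/-- The configurations of the machine. -/
abbrev X (H : Type) (Q S : ι → Type) (k : ι → ℕ) : Type :=
  H × ((j : Jx H k) → List (Sy H Q S k j))

/-- The states of a control symbol if it belongs to the factor `j`. -/
def csel (c : Option (Σ i, (H → Q i))) (j : ι) : Option (H → Q j) :=
  match c with
  | none => none
  | some e => if h : e.1 = j then some (h ▸ e.2) else none

theorem csel_self (i : ι) (σ : H → Q i) : csel (some ⟨i, σ⟩) i = some σ := by simp [csel]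

theorem csel_ne {i j : ι} (h : i ≠ j) (σ : H → Q i) : csel (some ⟨i, σ⟩) j = none := by
  simp [csel, h]

variable (q0 : ∀ i, Q i) (F : ∀ i, Set (Q i))
  (δ : ∀ i, Q i → A i → (Fin (k i) → Option (S i)) → Q i × (Fin (k i) → List (S i)))

/-- The observation of the top symbols of the data stacks. -/
abbrev Obs (H : Type) (Q S : ι → Type) (k : ι → ℕ) : Type := (j : Jx H k) → Option (Sy H Q S k j)

/-- The top data symbols of the copy `h` of the factor `i`. -/
def tops (o : Obs H Q S k) (i : ι) (h : H) (s : Fin (k i)) : Option (S i) :=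
  Option.join (o (some ⟨i, h, s⟩) : Option (Option (S i)))

/-- The control symbol. -/
def ctl (o : Obs H Q S k) : Option (Σ i, (H → Q i)) := o none

/-- The new states of the copies. -/
def newσ (a : (i : ι) → H → Option (A i)) (o : Obs H Q S k) (i : ι) (σ : H → Q i) (h : H) : Q i :=
  match a i h with
  | none => σ h
  | some b => (δ i (σ h) b (tops o i h)).1

/-- The symbols written on the data stacks. -/
def newl (a : (i : ι) → H → Option (A i)) (o : Obs H Q S k) (i : ι) (h : H) (s : Fin (k i)) :
    List (Option (S i)) :=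
  match csel (ctl o) i, a i h with
  | some σ, some b => ((δ i (σ h) b (tops o i h)).2 s).map some
  | _, _ => []

/-- Whether the top symbol of a data stack is removed. -/
def newm (a : (i : ι) → H → Option (A i)) (o : Obs H Q S k) (i : ι) (h : H) (s : Fin (k i)) :
    Bool :=
  match csel (ctl o) i, a i h with
  | some _, some _ => (tops o i h s).isSome
  | _, _ => false

/-- The new control stack symbols. -/
def newc (a : (i : ι) → H → Option (A i)) (o : Obs H Q S k) : List (Σ i, (H → Q i)) :=
  match ctl o with
  | none => []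
  | some e => [⟨e.1, newσ δ a o e.1 e.2⟩]

/-- Stacks from their parts. -/
def stk (c : List (Σ i, (H → Q i))) (d : (e : Σ i, H × Fin (k i)) → List (Option (S e.1))) :
    (j : Jx H k) → List (Sy H Q S k j)
  | none => c
  | some e => d e

/-- Booleans from their parts. -/
def bl (c : Bool) (d : (Σ i, H × Fin (k i)) → Bool) : Jx H k → Bool
  | none => c
  | some e => d e

/-- The observation. -/
def ob (x : X H Q S k) : Obs H Q S k := fun j => (x.2 j).head?

/-- Feeding one letter (or nothing) to every copy of the top level. -/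
def feed1 (a : (i : ι) → H → Option (A i)) (x : X H Q S k) : X H Q S k :=
  repl x.1 (bl true fun e => newm a (ob x) e.1 e.2.1 e.2.2)
    (stk (newc δ a (ob x)) fun e => newl δ a (ob x) e.1 e.2.1 e.2.2) x

/-- Opening a new level. -/
def pushLev (i : ι) (x : X H Q S k) : X H Q S k :=
  repl x.1 (bl false fun _ => false)
    (stk [⟨i, fun _ => q0 i⟩] fun e => if e.1 = i then [none] else []) x

/-- Removing the top level. -/
def popLev (x : X H Q S k) : X H Q S k :=
  repl x.1 (bl true fun e => (csel (ctl (ob x)) e.1).isSome) (fun _ => []) x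

theorem loc_feed1 (hδ : ∀ i q a t s, ((δ i q a t).2 s).length ≤ 2)
    (a : (i : ι) → H → Option (A i)) : Loc 2 (feed1 (Q := Q) (S := S) δ a) := by
  refine Loc.step (c := 2) (by norm_num) (fun q o =>
    (q, bl true fun e => newm a o e.1 e.2.1 e.2.2,
      stk (newc δ a o) fun e => newl δ a o e.1 e.2.1 e.2.2)) ?_
  rintro q o (_ | e)
  · change (newc δ a o).length ≤ 2
    unfold newc
    cases ctl o with
    | none => simp
    | some e => simp
  · change (newl δ a o e.1 e.2.1 e.2.2).length ≤ 2
    unfold newl
    split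
    · rw [List.length_map]
      exact hδ _ _ _ _ _
    · simp

theorem loc_pushLev (i : ι) : Loc 2 (pushLev (H := H) (S := S) (k := k) q0 i) := by
  refine Loc.step (c := 2) (by norm_num) (fun q _ => (q, bl false fun _ => false,
    stk [⟨i, fun _ => q0 i⟩] fun e => if e.1 = i then [none] else [])) ?_
  rintro q o (_ | e)
  · simp [stk]
  · simp only [stk]
    split_ifs <;> simp

theorem loc_popLev : Loc 2 (popLev (H := H) (Q := Q) (S := S) (k := k)) := by
  refine Loc.step (c := 2) (by norm_num) (fun q o =>
    (q, bl true fun e => (csel (ctl o) e.1).isSome, (fun _ => []))) ?_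
  intro q o j
  simp

/-! ### encoding of levels -/

/-- The data stack of a list of levels. -/
def encD (i : ι) (h : H) (s : Fin (k i)) : List (Σ i, (H → List (A i))) → List (Option (S i))
  | [] => []
  | e :: l => if he : e.1 = i then
      ((cf q0 δ i ((he ▸ e.2 : H → List (A i)) h)).2 s).map some ++ none :: encD i h s l
    else encD i h s l

/-- The control stack of a list of levels. -/
def encC (l : List (Σ i, (H → List (A i)))) : List (Σ i, (H → Q i)) :=
  l.map fun e => ⟨e.1, fun h => (cf q0 δ e.1 (e.2 h)).1⟩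

/-- The stacks of a list of levels. -/
def enc (l : List (Σ i, (H → List (A i)))) : (j : Jx H k) → List (Sy H Q S k j) :=
  stk (encC q0 δ l) fun e => encD q0 δ e.1 e.2.1 e.2.2 l

theorem encD_cons_self (i : ι) (h : H) (s : Fin (k i)) (W : H → List (A i))
    (l : List (Σ i, (H → List (A i)))) : encD q0 δ i h s (⟨i, W⟩ :: l) =
      ((cf q0 δ i (W h)).2 s).map some ++ none :: encD q0 δ i h s l := by
  simp [encD]

theorem encD_cons_ne {i j : ι} (hj : j ≠ i) (h : H) (s : Fin (k i)) (W : H → List (A j))
    (l : List (Σ i, (H → List (A i)))) : encD q0 δ i h s (⟨j, W⟩ :: l) = encD q0 δ i h s l := by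
  simp [encD, hj]

/-- Equality of configurations. -/
theorem X_ext {x y : X H Q S k} (h1 : x.1 = y.1) (h2 : x.2 none = y.2 none)
    (h3 : ∀ i h s, x.2 (some ⟨i, h, s⟩) = y.2 (some ⟨i, h, s⟩)) : x = y := by
  refine Prod.ext h1 ?_
  funext j
  rcases j with _ | ⟨i, h, s⟩
  · exact h2
  · exact h3 i h s

theorem ctl_enc (i : ι) (b : H) (W : H → List (A i)) (l : List (Σ i, (H → List (A i)))) :
    ctl (ob ((b, enc (k := k) q0 δ (⟨i, W⟩ :: l)) : X H Q S k)) =
      some ⟨i, fun h => (cf q0 δ i (W h)).1⟩ := rfl

theorem ctl_enc_nil (b : H) : ctl (ob ((b, enc (k := k) q0 δ []) : X H Q S k)) = none := rfl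

theorem tops_enc (i : ι) (b : H) (W : H → List (A i)) (l : List (Σ i, (H → List (A i)))) (h : H) :
    tops (ob ((b, enc (k := k) q0 δ (⟨i, W⟩ :: l)) : X H Q S k)) i h =
      fun s => ((cf q0 δ i (W h)).2 s).head? := by
  funext s
  change Option.join ((encD q0 δ i h s (⟨i, W⟩ :: l)).head?) = _
  rw [encD_cons_self]
  exact join_data _ _

theorem pushLev_enc (i : ι) (b : H) (l : List (Σ i, (H → List (A i)))) :
    pushLev q0 i (b, enc (k := k) q0 δ l) = (b, enc q0 δ (⟨i, fun _ => []⟩ :: l)) := by
  refine X_ext rfl rfl ?_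
  intro j h s
  change (if j = i then [none] else [] : List (Option (S j))) ++ encD q0 δ j h s l =
    encD q0 δ j h s (⟨i, fun _ => []⟩ :: l)
  by_cases hj : i = j
  · subst hj
    rw [encD_cons_self, if_pos rfl]
    simp [cf]
  · rw [encD_cons_ne q0 δ hj, if_neg (Ne.symm hj), List.nil_append]

theorem popLev_enc (i : ι) (b : H) (W : H → List (A i)) (l : List (Σ i, (H → List (A i))))
    (hW : ∀ h s, (cf q0 δ i (W h)).2 s = []) :
    popLev (b, enc (k := k) q0 δ (⟨i, W⟩ :: l)) = (b, enc q0 δ l) := by
  refine X_ext rfl rfl ?_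
  intro j h s
  change [] ++ (if (csel (ctl (ob ((b, enc (k := k) q0 δ (⟨i, W⟩ :: l)) : X H Q S k))) j).isSome
      = true then (encD q0 δ j h s (⟨i, W⟩ :: l)).tail else encD q0 δ j h s (⟨i, W⟩ :: l)) =
    encD q0 δ j h s l
  rw [ctl_enc]
  by_cases hj : i = j
  · subst hj
    rw [encD_cons_self, csel_self, hW]
    simp
  · rw [encD_cons_ne q0 δ hj, csel_ne hj]
    simp

theorem feed1_nil (a : (i : ι) → H → Option (A i)) (b : H) :
    feed1 δ a (b, enc (k := k) q0 δ []) = (b, enc q0 δ []) := by
  refine X_ext rfl ?_ ?_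
  · rfl
  · intro j h s
    change newl δ a (ob ((b, enc (k := k) q0 δ []) : X H Q S k)) j h s ++
      (if newm a (ob ((b, enc (k := k) q0 δ []) : X H Q S k)) j h s = true then
        (encD q0 δ j h s []).tail else encD q0 δ j h s []) = encD q0 δ j h s []
    unfold newl newm
    rw [ctl_enc_nil]
    simp [csel, encD]

theorem feed1_enc (a : (i : ι) → H → Option (A i)) (i : ι) (b : H) (W : H → List (A i))
    (l : List (Σ i, (H → List (A i)))) :
    feed1 δ a (b, enc (k := k) q0 δ (⟨i, W⟩ :: l)) =
      (b, enc q0 δ (⟨i, fun h => W h ++ (a i h).toList⟩ :: l)) := by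
  refine X_ext rfl ?_ ?_
  · change newc δ a (ob ((b, enc (k := k) q0 δ (⟨i, W⟩ :: l)) : X H Q S k)) ++
      (encC q0 δ (⟨i, W⟩ :: l)).tail = encC q0 δ (⟨i, fun h => W h ++ (a i h).toList⟩ :: l)
    unfold newc
    rw [ctl_enc]
    unfold encC
    simp only [List.map_cons, List.tail_cons, List.cons_append, List.nil_append]
    congr 2
    funext h
    unfold newσ
    cases ha : a i h with
    | none => simp
    | some c =>
      simp only [Option.toList_some]
      rw [cf_snoc, tops_enc]
      rfl
  · intro j h s
    change newl δ a (ob ((b, enc (k := k) q0 δ (⟨i, W⟩ :: l)) : X H Q S k)) j h s ++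
      (if newm a (ob ((b, enc (k := k) q0 δ (⟨i, W⟩ :: l)) : X H Q S k)) j h s = true then
        (encD q0 δ j h s (⟨i, W⟩ :: l)).tail else encD q0 δ j h s (⟨i, W⟩ :: l)) =
      encD q0 δ j h s (⟨i, fun h => W h ++ (a i h).toList⟩ :: l)
    unfold newl newm
    rw [ctl_enc]
    by_cases hj : i = j
    · subst hj
      rw [csel_self, encD_cons_self, encD_cons_self]
      cases ha : a i h with
      | none => simp
      | some c =>
        simp only [tops_enc, Option.toList_some]
        rw [cf_snoc]
        have h1 := newD_data ((δ i (cf q0 δ i (W h)).1 c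
          (fun s => ((cf q0 δ i (W h)).2 s).head?)).2 s) ((cf q0 δ i (W h)).2 s)
          (encD q0 δ i h s l)
        unfold newD at h1
        rw [join_data] at h1
        have h2 : (pstep (δ i) (cf q0 δ i (W h)) c).2 s = (δ i (cf q0 δ i (W h)).1 c
          (fun s => ((cf q0 δ i (W h)).2 s).head?)).2 s ++ ((cf q0 δ i (W h)).2 s).tail := rfl
        rw [h2, ← h1]
        congr 1
        cases (cf q0 δ i (W h)).2 s <;> simp
    · rw [csel_ne hj, encD_cons_ne q0 δ hj, encD_cons_ne q0 δ hj]
      simp

/-- Feeding lists of letters. -/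
def feedL (vs : List ((i : ι) → H → Option (A i))) (x : X H Q S k) : X H Q S k :=
  vs.foldl (fun x a => feed1 δ a x) x

theorem loc_feedL (hδ : ∀ i q a t s, ((δ i q a t).2 s).length ≤ 2)
    (vs : List ((i : ι) → H → Option (A i))) :
    Loc (2 * vs.length) (feedL (Q := Q) (S := S) δ vs) :=
  Loc.foldl (fun a => feed1 δ a) (fun a => loc_feed1 δ hδ a) vs

theorem feedL_nil (vs : List ((i : ι) → H → Option (A i))) (b : H) :
    feedL δ vs (b, enc (k := k) q0 δ []) = (b, enc q0 δ []) := by
  induction vs with
  | nil => rfl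
  | cons a vs ih =>
    unfold feedL at *
    rw [List.foldl_cons, feed1_nil]
    exact ih

theorem feedL_enc (vs : List ((i : ι) → H → Option (A i))) (i : ι) (b : H) :
    ∀ (W : H → List (A i)) (l : List (Σ i, (H → List (A i)))),
    feedL δ vs (b, enc (k := k) q0 δ (⟨i, W⟩ :: l)) =
      (b, enc q0 δ (⟨i, fun h => W h ++ vs.flatMap (fun a => (a i h).toList)⟩ :: l)) := by
  induction vs with
  | nil =>
    intro W l
    simp [feedL]
  | cons a vs ih =>
    intro W l
    have h1 := ih (fun h => W h ++ (a i h).toList) l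
    unfold feedL at *
    rw [List.foldl_cons, feed1_enc, h1]
    simp only [List.append_assoc, List.flatMap_cons]

/-- The letters of words. -/
def vsOf (L : ℕ) (v : (i : ι) → H → List (A i)) : List ((i : ι) → H → Option (A i)) :=
  (List.range L).map fun t i h => (v i h)[t]?

theorem range_flatMap {T : Type} (l : List T) : ∀ L, l.length ≤ L →
    (List.range L).flatMap (fun t => (l[t]?).toList) = l := by
  induction l with
  | nil => intro L _; simp
  | cons a l ih =>
    intro L hL
    obtain ⟨L', rfl⟩ : ∃ L', L = L' + 1 := ⟨L - 1, by simp at hL; omega⟩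
    rw [List.range_succ_eq_map, List.flatMap_cons, List.flatMap_map]
    have h1 := ih L' (by simpa using hL)
    simp only [List.getElem?_cons_zero, Option.toList_some, List.getElem?_cons_succ, h1]
    rfl

theorem vsOf_flatMap (L : ℕ) (v : (i : ι) → H → List (A i)) (i : ι) (h : H)
    (hL : (v i h).length ≤ L) : (vsOf L v).flatMap (fun a => (a i h).toList) = v i h := by
  unfold vsOf
  rw [List.flatMap_map]
  exact range_flatMap _ L hL

theorem feed_enc (L : ℕ) (v : (i : ι) → H → List (A i)) (hL : ∀ i h, (v i h).length ≤ L) (i : ι)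
    (b : H) (W : H → List (A i)) (l : List (Σ i, (H → List (A i)))) :
    feedL δ (vsOf L v) (b, enc (k := k) q0 δ (⟨i, W⟩ :: l)) =
      (b, enc q0 δ (⟨i, fun h => W h ++ v i h⟩ :: l)) := by
  rw [feedL_enc]
  simp only [vsOf_flatMap L v i _ (hL i _)]

end AM

end Pool.Agent.Helper22.EA
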