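import Mathlib
import Pool.Agent.Helper81.RT.Stack2

/-!
MP_eaa19d_lc (with helper81).  Real-time languages are closed under inverse images by homomorphisms
of free monoids over finite alphabets, and real-time groups under finitely generated subgroups.
-/

set_option autoImplicit false

namespace Pool.Agent.Helper22.EA

open Pool.Agent.Helper81.RT

section stack

variable {Q A Γ ι : Type}

/-- One step of a machine with stacks indexed by `ι`, look-ahead `c`. -/
def istep (c : ℕ) (δ : Q → A → (ι → List Γ) → Q × (ι → List Γ)) (x : Q × (ι → List Γ)) (a : A) :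
    Q × (ι → List Γ) :=
  ((δ x.1 a (fun i => (x.2 i).take c)).1,
    fun i => (δ x.1 a (fun i => (x.2 i).take c)).2 i ++ (x.2 i).drop c)

/-- A machine with finitely many stacks and bounded look-ahead is real-time. -/
theorem realTime_of_istack [Finite Q] [Finite Γ] [Finite ι] (c : ℕ) (L : Set (List A)) (q0 : Q)
    (s0 : ι → List Γ) (F : Set (Q × (ι → List Γ))) (δ : Q → A → (ι → List Γ) → Q × (ι → List Γ))
    (hδ : ∀ q a t i, ((δ q a t).2 i).length ≤ 2 * c) (hs0 : ∀ i, (s0 i).length ≤ 2 * c)
    (hL : ∀ w : List A, w ∈ L ↔ ((w.foldl (istep c δ) (q0, s0)).1,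
      fun i => ((w.foldl (istep c δ) (q0, s0)).2 i).take c) ∈ F) : ∃ k, RealTimeK k A L := by
  obtain ⟨k, ⟨e⟩⟩ := Finite.exists_equiv_fin ι
  let δ' : Q → A → (Fin k → List Γ) → Q × (Fin k → List Γ) := fun q a t =>
    ((δ q a (fun i => t (e i))).1, fun j => (δ q a (fun i => t (e i))).2 (e.symm j))
  refine ⟨k, realTime_of_stack c L q0 (fun j => s0 (e.symm j))
    {x | (x.1, fun i => x.2 (e i)) ∈ F} δ' (fun q a t i => hδ _ _ _ _) (fun i => hs0 _) ?_⟩
  intro w
  rw [hL]
  have key : ∀ (w : List A) (q : Q) (s : ι → List Γ),
      w.foldl (sstep c δ') (q, fun j => s (e.symm j)) =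
        ((w.foldl (istep c δ) (q, s)).1, fun j => (w.foldl (istep c δ) (q, s)).2 (e.symm j)) := by
    intro w
    induction w with
    | nil => intro q s; rfl
    | cons a w ih =>
      intro q s
      rw [List.foldl_cons, List.foldl_cons, ← ih]
      congr 1
      simp only [sstep, istep, δ', Equiv.symm_apply_apply]
  rw [key w q0 s0]
  simp

/-- Locality: a run of length `ℓ` does not see the stacks below depth `c * ℓ`. -/
theorem foldl_istep_append (c : ℕ) (δ : Q → A → (ι → List Γ) → Q × (ι → List Γ)) (w : List A) :
    ∀ (N : ℕ), c * w.length ≤ N → ∀ (q : Q) (t r : ι → List Γ),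
      (∀ i, N ≤ (t i).length ∨ r i = []) →
      w.foldl (istep c δ) (q, fun i => t i ++ r i) =
        ((w.foldl (istep c δ) (q, t)).1, fun i => (w.foldl (istep c δ) (q, t)).2 i ++ r i) := by
  induction w with
  | nil => intro N _ q t r _; rfl
  | cons a w ih =>
    intro N hN q t r h
    have hc : c ≤ N := by
      rw [List.length_cons, Nat.mul_add, Nat.mul_one] at hN
      omega
    have h1 : (fun i => ((fun i => t i ++ r i) i).take c) = fun i => (t i).take c := by
      funext i
      rcases h i with h2 | h2
      · exact List.take_append_of_le_length (hc.trans h2)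
      · simp [h2]
    have h2 : ∀ i, (t i ++ r i).drop c = (t i).drop c ++ r i := by
      intro i
      rcases h i with h3 | h3
      · exact List.drop_append_of_le_length (hc.trans h3)
      · simp [h3]
    have h3 : istep c δ (q, fun i => t i ++ r i) a =
        ((istep c δ (q, t) a).1, fun i => (istep c δ (q, t) a).2 i ++ r i) := by
      unfold istep
      simp only
      rw [Prod.mk.injEq]
      refine ⟨by rw [← h1], ?_⟩
      funext i
      rw [h2 i, ← List.append_assoc]
      congr 2
      rw [← h1]
    rw [List.foldl_cons, List.foldl_cons, h3]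
    refine ih (N - c) ?_ _ _ _ ?_
    · rw [List.length_cons, Nat.mul_add, Nat.mul_one] at hN
      omega
    · intro i
      rcases h i with h4 | h4
      · left
        simp only [istep, List.length_append, List.length_drop]
        omega
      · exact Or.inr h4

/-- A step adds at most `2 * c` symbols. -/
theorem foldl_istep_length (c : ℕ) (δ : Q → A → (ι → List Γ) → Q × (ι → List Γ))
    (hδ : ∀ q a t i, ((δ q a t).2 i).length ≤ 2 * c) (w : List A) :
    ∀ (x : Q × (ι → List Γ)) (i : ι),
      ((w.foldl (istep c δ) x).2 i).length ≤ (x.2 i).length + 2 * c * w.length := by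
  induction w with
  | nil => intro x i; simp
  | cons a w ih =>
    intro x i
    rw [List.foldl_cons]
    refine (ih _ i).trans ?_
    have h1 : ((istep c δ x a).2 i).length ≤ (x.2 i).length + 2 * c := by
      simp only [istep, List.length_append, List.length_drop]
      have := hδ x.1 a (fun i => (x.2 i).take c) i
      omega
    rw [List.length_cons, Nat.mul_add, Nat.mul_one]
    omega

/-- The inverse image of the language of a stack machine. -/
theorem realTime_comap_istack [Finite Q] [Finite Γ] [Finite ι] (c : ℕ) (L : Set (List A)) (q0 : Q)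
    (s0 : ι → List Γ) (F : Set (Q × (ι → List Γ))) (δ : Q → A → (ι → List Γ) → Q × (ι → List Γ))
    (hδ : ∀ q a t i, ((δ q a t).2 i).length ≤ 2 * c) (hs0 : ∀ i, (s0 i).length ≤ 2 * c)
    (hL : ∀ w : List A, w ∈ L ↔ ((w.foldl (istep c δ) (q0, s0)).1,
      fun i => ((w.foldl (istep c δ) (q0, s0)).2 i).take c) ∈ F)
    {B : Type} (φ : B → List A) (ℓ : ℕ) (hφ : ∀ b, (φ b).length ≤ ℓ) :
    ∃ k, RealTimeK k B {w | w.flatMap φ ∈ L} := by
  obtain ⟨N, hN⟩ : ∃ N, N = 2 * c * ℓ + c := ⟨_, rfl⟩
  let δ' : Q → B → (ι → List Γ) → Q × (ι → List Γ) := fun q b t =>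
    (φ b).foldl (istep c δ) (q, fun i => (t i).take N)
  have hstep : ∀ (x : Q × (ι → List Γ)) (b : B), istep N δ' x b = (φ b).foldl (istep c δ) x := by
    intro x b
    obtain ⟨q, s⟩ := x
    have h1 : (fun i => (s i).take N ++ (s i).drop N) = s := by
      funext i
      exact List.take_append_drop N (s i)
    have h2 := foldl_istep_append c δ (φ b) N (by
      have := Nat.mul_le_mul_left c (hφ b)
      have h4 : c * ℓ ≤ 2 * c * ℓ := by nlinarith
      omega) q (fun i => (s i).take N) (fun i => (s i).drop N) (fun i => by
        rcases le_total N (s i).length with h3 | h3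
        · left; rw [List.length_take]; omega
        · right; exact List.drop_eq_nil_of_le h3)
    rw [h1] at h2
    rw [h2]
    simp only [istep, δ', List.take_take, min_self]
  refine realTime_of_istack N {w | w.flatMap φ ∈ L} q0 s0
    {x | (x.1, fun i => (x.2 i).take c) ∈ F} δ' ?_ (fun i => (hs0 i).trans (by nlinarith)) ?_
  · intro q b t i
    refine (foldl_istep_length c δ hδ (φ b) _ i).trans ?_
    have h1 : ((t i).take N).length ≤ N := by
      rw [List.length_take]
      exact min_le_left _ _
    have h2 : 2 * c * (φ b).length ≤ 2 * c * ℓ := Nat.mul_le_mul_left _ (hφ b)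
    simp only
    omega
  · intro w
    have h1 : ∀ (w : List B) (x : Q × (ι → List Γ)),
        w.foldl (istep N δ') x = (w.flatMap φ).foldl (istep c δ) x := by
      intro w
      induction w with
      | nil => intro x; rfl
      | cons b w ih =>
        intro x
        rw [List.foldl_cons, List.flatMap_cons, List.foldl_append, hstep, ih]
    change w.flatMap φ ∈ L ↔ _
    rw [hL, h1]
    have h2 : min c N = c := by
      apply min_eq_left
      omega
    simp only [Set.mem_ofPred_eq, List.take_take, h2]

end stack

section tm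

/-- A tape as two stacks: the cells to the left of the head and the cells from the head on. -/
def Rep {m : ℕ} (T : ℤ → Fin (m + 1)) (p : ℤ) (l r : List (Fin (m + 1))) : Prop :=
  (∀ j : ℕ, r.getD j 0 = T (p + j)) ∧ ∀ j : ℕ, l.getD j 0 = T (p - 1 - j)

/-- The new top of the left stack. -/
def newL {m : ℕ} (y : Fin (m + 1)) (d : ℤ) (l : List (Fin (m + 1))) : List (Fin (m + 1)) :=
  if d = 1 then y :: l.take 1 else if d = -1 then [] else l.take 1

/-- The new top of the right stack. -/
def newR {m : ℕ} (y : Fin (m + 1)) (d : ℤ) (l : List (Fin (m + 1))) : List (Fin (m + 1)) :=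
  if d = 1 then [] else if d = -1 then [l.getD 0 0, y] else [y]

theorem newL_length {m : ℕ} (y : Fin (m + 1)) (d : ℤ) (l : List (Fin (m + 1))) :
    (newL y d l).length ≤ 2 := by
  unfold newL
  split_ifs
  · rw [List.length_cons, List.length_take]; omega
  · simp
  · rw [List.length_take]; omega

theorem newR_length {m : ℕ} (y : Fin (m + 1)) (d : ℤ) (l : List (Fin (m + 1))) :
    (newR y d l).length ≤ 2 := by
  unfold newR
  split_ifs <;> simp

theorem Rep.step {m : ℕ} {T : ℤ → Fin (m + 1)} {p : ℤ} {l r : List (Fin (m + 1))}
    (h : Rep T p l r) (y : Fin (m + 1)) {d : ℤ} (hd : |d| ≤ 1) :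
    Rep (Function.update T p y) (p + d) (newL y d l ++ l.drop 1) (newR y d l ++ r.drop 1) := by
  obtain ⟨h1, h2⟩ := h
  have hdrop : ∀ (s : List (Fin (m + 1))) (j : ℕ), (s.drop 1).getD j 0 = s.getD (j + 1) 0 := by
    intro s j
    cases s <;> simp
  rcases (show d = 1 ∨ d = -1 ∨ d = 0 by rw [abs_le] at hd; omega) with rfl | rfl | rfl
  · constructor
    · intro j
      simp only [newR, if_true, List.nil_append]
      rw [hdrop, h1, Function.update_of_ne (by push_cast; omega)]
      congr 1
      push_cast
      ring
    · intro j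
      simp only [newL, if_true]
      rw [List.cons_append, List.take_append_drop]
      cases j with
      | zero => simp
      | succ j =>
        rw [List.getD_cons_succ, h2, Function.update_of_ne (by push_cast; omega)]
        congr 1
        push_cast
        ring
  · have hne : ¬ ((-1 : ℤ) = 1) := by norm_num
    constructor
    · intro j
      simp only [newR, if_neg hne, if_true]
      match j with
      | 0 =>
        have := h2 0
        simp only [Nat.cast_zero, sub_zero] at this
        rw [List.cons_append, List.getD_cons_zero, this, Function.update_of_ne (by simp)]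
        congr 1
        push_cast
        ring
      | 1 =>
        rw [List.cons_append, List.getD_cons_succ, List.cons_append, List.getD_cons_zero]
        have : p + -1 + ((1 : ℕ) : ℤ) = p := by push_cast; ring
        rw [this, Function.update_self]
      | j + 2 =>
        rw [List.cons_append, List.getD_cons_succ, List.cons_append, List.getD_cons_succ,
          List.nil_append, hdrop, h1, Function.update_of_ne (by push_cast; omega)]
        congr 1
        push_cast
        ring
    · intro j
      simp only [newL, if_neg hne, if_true, List.nil_append]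
      rw [hdrop, h2, Function.update_of_ne (by push_cast; omega)]
      congr 1
      push_cast
      ring
  · have hne : ¬ ((0 : ℤ) = 1) := by norm_num
    have hne2 : ¬ ((0 : ℤ) = -1) := by norm_num
    constructor
    · intro j
      simp only [newR, if_neg hne, if_neg hne2]
      cases j with
      | zero => simp
      | succ j =>
        rw [List.cons_append, List.getD_cons_succ, List.nil_append, hdrop, h1,
          Function.update_of_ne (by push_cast; omega)]
        congr 1
        push_cast
        ring
    · intro j
      simp only [newL, if_neg hne, if_neg hne2]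
      rw [List.take_append_drop, h2, Function.update_of_ne (by omega)]
      congr 1
      ring

/-- A tape machine as a stack machine. -/
theorem exists_istack {k : ℕ} {A : Type} {L : Set (List A)} (h : RealTimeK k A L) :
    ∃ (n m : ℕ) (q0 : Fin n) (F : Set (Fin n × (Fin k ⊕ Fin k → List (Fin (m + 1)))))
      (δ : Fin n → A → (Fin k ⊕ Fin k → List (Fin (m + 1))) →
        Fin n × (Fin k ⊕ Fin k → List (Fin (m + 1)))),
      (∀ q a t i, ((δ q a t).2 i).length ≤ 2 * 1) ∧
      ∀ w : List A, w ∈ L ↔ ((w.foldl (istep 1 δ) (q0, fun _ => [])).1,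
        fun i => ((w.foldl (istep 1 δ) (q0, fun _ => [])).2 i).take 1) ∈ F := by
  obtain ⟨n, m, q0, F, δ, hδ, hL⟩ := h
  let rd : (Fin k ⊕ Fin k → List (Fin (m + 1))) → Fin k → Fin (m + 1) := fun t i =>
    (t (Sum.inr i)).getD 0 0
  let δ' : Fin n → A → (Fin k ⊕ Fin k → List (Fin (m + 1))) →
      Fin n × (Fin k ⊕ Fin k → List (Fin (m + 1))) := fun q a t =>
    ((δ q a (rd t)).1, Sum.elim
      (fun i => newL ((δ q a (rd t)).2.1 i) ((δ q a (rd t)).2.2 i) (t (Sum.inl i)))
      (fun i => newR ((δ q a (rd t)).2.1 i) ((δ q a (rd t)).2.2 i) (t (Sum.inl i))))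
  refine ⟨n, m, q0, {x | x.1 ∈ F}, δ', ?_, ?_⟩
  · rintro q a t (i | i)
    · exact newL_length _ _ _
    · exact newR_length _ _ _
  · intro w
    rw [hL]
    have key : ∀ (w : List A) (c : Fin n × (Fin k → ℤ → Fin (m + 1)) × (Fin k → ℤ))
        (x : Fin n × (Fin k ⊕ Fin k → List (Fin (m + 1)))), c.1 = x.1 →
        (∀ i, Rep (c.2.1 i) (c.2.2 i) (x.2 (Sum.inl i)) (x.2 (Sum.inr i))) →
        (List.foldl
          (fun (c : Fin n × (Fin k → ℤ → Fin (m + 1)) × (Fin k → ℤ)) (a : A) =>
            ((δ c.1 a (fun i => c.2.1 i (c.2.2 i))).1,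
             fun i => Function.update (c.2.1 i) (c.2.2 i)
               ((δ c.1 a (fun j => c.2.1 j (c.2.2 j))).2.1 i),
             fun i => c.2.2 i + (δ c.1 a (fun j => c.2.1 j (c.2.2 j))).2.2 i)) c w).1 =
          (w.foldl (istep 1 δ') x).1 := by
      intro w
      induction w with
      | nil => intro c x h1 _; exact h1
      | cons a w ih =>
        intro c x h1 h2
        rw [List.foldl_cons, List.foldl_cons]
        have hrd : rd (fun i => (x.2 i).take 1) = fun i => c.2.1 i (c.2.2 i) := by
          funext i
          have h3 := (h2 i).1 0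
          simp only [Nat.cast_zero, add_zero] at h3
          rw [← h3]
          simp only [rd]
          cases x.2 (Sum.inr i) <;> simp
        apply ih
        · simp only [istep, δ']
          rw [hrd, h1]
        · intro i
          have h3 := (h2 i).step ((δ c.1 a (fun j => c.2.1 j (c.2.2 j))).2.1 i)
            (hδ c.1 a (fun j => c.2.1 j (c.2.2 j)) i)
          have hL' : ∀ (y : Fin (m + 1)) (d : ℤ) (l : List (Fin (m + 1))),
              newL y d (l.take 1) = newL y d l := by
            intro y d l
            unfold newL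
            simp [List.take_take]
          have hR' : ∀ (y : Fin (m + 1)) (d : ℤ) (l : List (Fin (m + 1))),
              newR y d (l.take 1) = newR y d l := by
            intro y d l
            unfold newR
            cases l <;> simp
          simp only [istep, δ', Sum.elim_inl, Sum.elim_inr]
          rw [hrd, ← h1, hL', hR']
          exact h3
    have h3 := key w (q0, fun _ _ => 0, fun _ => 0) (q0, fun _ => []) rfl
      (fun i => ⟨fun j => by simp, fun j => by simp⟩)
    rw [h3]
    rfl

/-- Real-time languages are closed under inverse images by homomorphisms of free monoids. -/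
theorem realTimeK_comap {k : ℕ} {A B : Type} {L : Set (List A)} (h : RealTimeK k A L)
    (φ : B → List A) (ℓ : ℕ) (hφ : ∀ b, (φ b).length ≤ ℓ) :
    ∃ k', RealTimeK k' B {w | w.flatMap φ ∈ L} := by
  obtain ⟨n, m, q0, F, δ, hδ, hL⟩ := exists_istack h
  exact realTime_comap_istack 1 L q0 (fun _ => []) F δ hδ (fun i => by simp) hL φ ℓ hφ

/-- A real-time group: some number of work tapes suffices. -/
def RealTimeGroup (G : Type) [Group G] : Prop := ∃ k, RealTimeGroupK k G

/-- A word over generators and inverses for every element. -/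
theorem exists_word_of_closure {G α : Type} [Group G] (f : α → G)
    (hf : Subgroup.closure (Set.range f) = ⊤) (g : G) :
    ∃ w : List (α ⊕ α), (w.map (Sum.elim f (fun a => (f a)⁻¹))).prod = g := by
  have hg : g ∈ Subgroup.closure (Set.range f) := by rw [hf]; trivial
  induction hg using Subgroup.closure_induction with
  | mem x hx =>
    obtain ⟨a, rfl⟩ := hx
    exact ⟨[Sum.inl a], by simp⟩
  | one => exact ⟨[], by simp⟩
  | mul x y _ _ hx hy =>
    obtain ⟨u, rfl⟩ := hx
    obtain ⟨v, rfl⟩ := hy
    exact ⟨u ++ v, by simp⟩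
  | inv x _ hx =>
    obtain ⟨u, rfl⟩ := hx
    refine ⟨u.reverse.map Sum.swap, ?_⟩
    rw [List.prod_inv_reverse, List.map_map, List.map_reverse, List.map_map, ← List.map_reverse,
      ← List.map_reverse]
    congr 1
    refine List.map_congr_left fun a _ => ?_
    cases a <;> simp

/-- Real-time groups are closed under finitely generated subgroups. -/
theorem RealTimeGroup.of_injective {G H : Type} [Group G] [Group H] (hG : RealTimeGroup G)
    (ψ : H →* G) (hψ : Function.Injective ψ) (hfg : Group.FG H) : RealTimeGroup H := by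
  obtain ⟨k, α, hα, f, hf, hRT⟩ := hG
  obtain ⟨S, hS⟩ := hfg.out
  have hgen : Subgroup.closure (Set.range fun x : S => (x : H)) = ⊤ := by
    rw [Subtype.range_coe_subtype]
    exact hS
  choose v hv using exists_word_of_closure f hf
  let φ : S ⊕ S → List (α ⊕ α) := Sum.elim (fun x => v (ψ (x : H))) (fun x => v (ψ ((x : H)⁻¹)))
  have hbd : ∃ ℓ, ∀ b, (φ b).length ≤ ℓ := by
    obtain ⟨ℓ, hℓ⟩ := (Set.finite_range fun b => (φ b).length).bddAbove
    exact ⟨ℓ, fun b => hℓ ⟨b, rfl⟩⟩
  obtain ⟨ℓ, hℓ⟩ := hbd
  obtain ⟨k', hk'⟩ := realTimeK_comap hRT φ ℓ hℓ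
  refine ⟨k', S, inferInstance, fun x => (x : H), hgen, ?_⟩
  have hset : {w : List (S ⊕ S) |
      (w.map (Sum.elim (fun x : S => (x : H)) (fun x : S => ((x : H))⁻¹))).prod = 1} =
      {w | w.flatMap φ ∈ {w : List (α ⊕ α) | (w.map (Sum.elim f (fun a => (f a)⁻¹))).prod = 1}} := by
    ext w
    rw [Set.mem_ofPred_eq, Set.mem_ofPred_eq, Set.mem_ofPred_eq]
    have hkey : ∀ w : List (S ⊕ S), ((w.flatMap φ).map (Sum.elim f (fun a => (f a)⁻¹))).prod =
        ψ ((w.map (Sum.elim (fun x : S => (x : H)) (fun x : S => ((x : H))⁻¹))).prod) := by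
      intro w
      induction w with
      | nil => simp
      | cons b w ih =>
        rw [List.flatMap_cons, List.map_append, List.prod_append, ih, List.map_cons,
          List.prod_cons, map_mul]
        congr 1
        rcases b with b | b
        · exact hv _
        · exact hv _
    rw [hkey, map_eq_one_iff ψ hψ]
  rw [hset]
  exact hk'

end tm

end Pool.Agent.Helper22.EA
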