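import Mathlib
import Pool.Agent.Helper22.EA.AmalgM
import Pool.Agent.Helper22.EA.Sub

/-!
MP_eaa19d_lc (with helper81).  Correctness of the machine for amalgamated products of tidy real-time
groups over a common finite subgroup.
-/

set_option autoImplicit false

namespace Pool.Agent.Helper22.EA

open Pool.Agent.Helper81.RT Pool.Agent.Helper81.RT.GPM Monoid

theorem Loc.state {Q J : Type} {Γ : J → Type} (c : ℕ) (g : Q → Q) :
    Loc c (fun x : Q × ((j : J) → List (Γ j)) => (g x.1, x.2)) where
  app := fun _ _ _ => rfl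
  le := fun _ _ => by simp
  ge := fun _ _ => by simp

namespace AM

variable {ι : Type} [DecidableEq ι] {H : Type} {A Q S : ι → Type} {k : ι → ℕ}
  (q0 : ∀ i, Q i) (F : ∀ i, Set (Q i))
  (δ : ∀ i, Q i → A i → (Fin (k i) → Option (S i)) → Q i × (Fin (k i) → List (S i)))

omit [DecidableEq ι] in
theorem ob_appD {c : ℕ} (hc : 1 ≤ c) (x : X H Q S k) (D : (j : Jx H k) → List (Sy H Q S k j))
    (hx : Deep c x D) : ob (appD x D) = ob x := by
  funext j
  exact head_appD hc x D hx j

/-- One letter for every copy of the factor `i`. -/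
def single (i : ι) (a : A i) (j : ι) (_ : H) : Option (A j) :=
  if e : i = j then some (e ▸ a) else none

theorem single_self (i : ι) (a : A i) (h : H) : single i a i h = some a := by simp [single]

/-- The first part of a letter: the top level belongs to the factor `i` afterwards. -/
def T1 (L : ℕ) (pre : (i : ι) → H → List (A i)) (i : ι) (x : X H Q S k) : X H Q S k :=
  if (csel (ctl (ob x)) i).isSome then x else feedL δ (vsOf L pre) (pushLev q0 i x)

open Classical in
/-- An accepting copy. -/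
noncomputable def acc (o : Obs H Q S k) : Option H :=
  match ctl o with
  | none => none
  | some e => if h : ∃ h, e.2 h ∈ F e.1 then some h.choose else none

/-- Multiplication by an element of the amalgamated subgroup. -/
def T5 [Group H] (L : ℕ) (mul : (i : ι) → H → List (A i)) (h : H) (x : X H Q S k) : X H Q S k :=
  if (ctl (ob x)).isSome then feedL δ (vsOf L fun i _ => mul i h) x else (x.1 * h, x.2)

/-- Closing the top level. -/
def T4 [Group H] (L : ℕ) (mul : (i : ι) → H → List (A i)) (clean : (i : ι) → H → H → List (A i))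
    (h : H) (x : X H Q S k) : X H Q S k :=
  T5 δ L mul h (popLev (feedL δ (vsOf L fun i h' => clean i h h') x))

/-- The last part of a letter: the top level is closed if a copy accepts. -/
noncomputable def T3 [Group H] (L : ℕ) (mul : (i : ι) → H → List (A i))
    (clean : (i : ι) → H → H → List (A i)) (x : X H Q S k) : X H Q S k :=
  match acc F (ob x) with
  | none => x
  | some h => T4 δ L mul clean h x

/-- The action of a letter. -/
noncomputable def TT [Group H] (L : ℕ) (pre mul : (i : ι) → H → List (A i))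
    (clean : (i : ι) → H → H → List (A i)) (i : ι) (a : A i) (x : X H Q S k) : X H Q S k :=
  T3 F δ L mul clean (feed1 δ (single i a) (T1 q0 δ L pre i x))

theorem vsOf_length (L : ℕ) (v : (i : ι) → H → List (A i)) : (vsOf L v).length = L := by
  simp [vsOf]

theorem loc_T1 (hδ : ∀ i q a t s, ((δ i q a t).2 s).length ≤ 2) (L : ℕ)
    (pre : (i : ι) → H → List (A i)) (i : ι) :
    Loc (2 + 2 * L) (T1 (H := H) (k := k) q0 δ L pre i) := by
  refine Loc.bind (c := 2 + 2 * L) (O := Bool)
    (fun x : X H Q S k => (csel (ctl (ob x)) i).isSome) ?_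
    (fun o x => if o = true then x else feedL δ (vsOf L pre) (pushLev q0 i x)) ?_
  · intro x D hx
    rw [ob_appD (by omega) x D hx]
  · intro o
    cases o with
    | true => exact Loc.id _
    | false =>
      have h := (loc_pushLev (H := H) (S := S) (k := k) q0 i).comp
        (loc_feedL δ hδ (vsOf L pre))
      rw [vsOf_length] at h
      exact h

theorem loc_T5 [Group H] (hδ : ∀ i q a t s, ((δ i q a t).2 s).length ≤ 2) (L : ℕ)
    (mul : (i : ι) → H → List (A i)) (h : H) :
    Loc (1 + 2 * L) (T5 (k := k) δ L mul h) := by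
  refine Loc.bind (c := 1 + 2 * L) (O := Bool)
    (fun x : X H Q S k => (ctl (ob x)).isSome) ?_
    (fun o x => if o = true then feedL δ (vsOf L fun i _ => mul i h) x else (x.1 * h, x.2)) ?_
  · intro x D hx
    rw [ob_appD (by omega) x D hx]
  · intro o
    cases o with
    | true =>
      have h := loc_feedL δ hδ (vsOf L fun i (_ : H) => mul i h)
      rw [vsOf_length] at h
      exact h.mono (by omega)
    | false => exact Loc.state _ (fun q => q * h)

theorem loc_T4 [Group H] (hδ : ∀ i q a t s, ((δ i q a t).2 s).length ≤ 2) (L : ℕ)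
    (mul : (i : ι) → H → List (A i)) (clean : (i : ι) → H → H → List (A i)) (h : H) :
    Loc (3 + 4 * L) (T4 (k := k) δ L mul clean h) := by
  have h1 := loc_feedL δ hδ (vsOf L fun i h' => clean i h h')
  rw [vsOf_length] at h1
  have h2 := (h1.comp (loc_popLev (H := H) (Q := Q) (S := S) (k := k))).comp
    (loc_T5 δ hδ L mul h)
  exact h2.mono (by omega)

theorem loc_T3 [Group H] (hδ : ∀ i q a t s, ((δ i q a t).2 s).length ≤ 2) (L : ℕ)
    (mul : (i : ι) → H → List (A i)) (clean : (i : ι) → H → H → List (A i)) :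
    Loc (3 + 4 * L) (T3 (k := k) F δ L mul clean) := by
  refine Loc.bind (c := 3 + 4 * L) (O := Option H) (fun x : X H Q S k => acc F (ob x)) ?_
    (fun o x => match o with
      | none => x
      | some h => T4 δ L mul clean h x) ?_
  · intro x D hx
    rw [ob_appD (by omega) x D hx]
  · intro o
    cases o with
    | none => exact Loc.id _
    | some h => exact loc_T4 δ hδ L mul clean h

theorem loc_TT [Group H] (hδ : ∀ i q a t s, ((δ i q a t).2 s).length ≤ 2) (L : ℕ)
    (pre mul : (i : ι) → H → List (A i)) (clean : (i : ι) → H → H → List (A i)) (i : ι)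
    (a : A i) : Loc (7 + 6 * L) (TT (k := k) q0 F δ L pre mul clean i a) := by
  have h2 := ((loc_T1 (k := k) q0 δ hδ L pre i).comp (loc_feed1 δ hδ (single i a))).comp
    (loc_T3 F δ hδ L mul clean)
  exact h2.mono (by omega)

variable {G : ι → Type} [∀ i, Group (G i)] [Group H] (φ : ∀ i, H →* G i) (ev : ∀ i, A i → G i)

/-- The levels of the machine represent the syllables. -/
inductive RL : List (Σ i, (H → List (A i))) → List (Σ i, G i) → Prop
  | nil : RL [] []
  | cons {i : ι} {W : H → List (A i)} {g : G i} {l : List (Σ i, (H → List (A i)))}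
      {c : List (Σ i, G i)} (hW : ∀ h, ((W h).map (ev i)).prod = (φ i h)⁻¹ * g) (hl : RL l c) :
      RL (⟨i, W⟩ :: l) (⟨i, g⟩ :: c)

theorem T1_spec (L : ℕ) (pre : (i : ι) → H → List (A i)) (hpL : ∀ i h, (pre i h).length ≤ L)
    (hpre : ∀ i h, ((pre i h).map (ev i)).prod = (φ i h)⁻¹) (i : ι)
    (l : List (Σ i, (H → List (A i)))) (c : List (Σ i, G i)) (b : H) (hl : RL φ ev l c) :
    ∃ (W : H → List (A i)) (l' : List (Σ i, (H → List (A i)))) (c' : List (Σ i, G i)) (g : G i),
      T1 q0 δ L pre i (b, enc (k := k) q0 δ l) = (b, enc q0 δ (⟨i, W⟩ :: l')) ∧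
      RL φ ev l' c' ∧ (∀ h, ((W h).map (ev i)).prod = (φ i h)⁻¹ * g) ∧
      ∀ a, aact φ i a (b, c) = aclose φ i (g * a) (b, c') := by
  cases hl with
  | nil =>
    refine ⟨fun h => [] ++ pre i h, [], [], 1, ?_, RL.nil, ?_, ?_⟩
    · unfold T1
      rw [ctl_enc_nil]
      simp only [csel, Option.isSome_none, Bool.false_eq_true, if_false]
      rw [pushLev_enc, feed_enc q0 δ L pre hpL]
    · intro h
      simp [hpre]
    · intro a
      rw [one_mul]
      rfl
  | @cons j W g l c hW hl =>
    by_cases hj : j = i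
    · subst hj
      refine ⟨W, l, c, g, ?_, hl, hW, ?_⟩
      · unfold T1
        rw [ctl_enc, csel_self]
        simp
      · intro a
        simp [aact]
    · refine ⟨fun h => [] ++ pre i h, ⟨j, W⟩ :: l, ⟨j, g⟩ :: c, 1, ?_, RL.cons hW hl, ?_, ?_⟩
      · unfold T1
        rw [ctl_enc, csel_ne hj]
        simp only [Option.isSome_none, Bool.false_eq_true, if_false]
        rw [pushLev_enc, feed_enc q0 δ L pre hpL]
      · intro h
        simp [hpre]
      · intro a
        simp [aact, hj]

theorem T5_spec (L : ℕ) (mul : (i : ι) → H → List (A i)) (hmL : ∀ i h, (mul i h).length ≤ L)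
    (hmul : ∀ i h, ((mul i h).map (ev i)).prod = φ i h) (h : H)
    (l : List (Σ i, (H → List (A i)))) (c : List (Σ i, G i)) (b : H) (hl : RL φ ev l c) :
    ∃ l', T5 δ L mul h (b, enc (k := k) q0 δ l) = ((bmul φ h (b, c)).1, enc q0 δ l') ∧
      RL φ ev l' (bmul φ h (b, c)).2 := by
  cases hl with
  | nil =>
    refine ⟨[], ?_, RL.nil⟩
    unfold T5
    rw [ctl_enc_nil]
    rfl
  | @cons j W g l c hW hl =>
    refine ⟨⟨j, fun h' => W h' ++ mul j h⟩ :: l, ?_, ?_⟩
    · unfold T5
      rw [ctl_enc]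
      simp only [Option.isSome_some, if_true]
      rw [feed_enc q0 δ L (fun i (_ : H) => mul i h) (fun i _ => hmL i h)]
      rfl
    · refine RL.cons ?_ hl
      intro h'
      rw [List.map_append, List.prod_append, hW, hmul, mul_assoc]

theorem T3_spec (hφ : ∀ i, Function.Injective (φ i))
    (hacc : ∀ i (w : List (A i)), ((w.map (ev i)).prod = 1 ↔ (cf q0 δ i w).1 ∈ F i))
    (htidy : ∀ i (w : List (A i)), (w.map (ev i)).prod = 1 → ∀ s, (cf q0 δ i w).2 s = [])
    (L : ℕ) (mul : (i : ι) → H → List (A i)) (hmL : ∀ i h, (mul i h).length ≤ L)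
    (hmul : ∀ i h, ((mul i h).map (ev i)).prod = φ i h)
    (clean : (i : ι) → H → H → List (A i)) (hcL : ∀ i h h', (clean i h h').length ≤ L)
    (hclean : ∀ i h h', ((clean i h h').map (ev i)).prod = (φ i h)⁻¹ * φ i h') (i : ι)
    (W : H → List (A i)) (l : List (Σ i, (H → List (A i)))) (c : List (Σ i, G i)) (b : H)
    (y : G i) (hl : RL φ ev l c) (hW : ∀ h, ((W h).map (ev i)).prod = (φ i h)⁻¹ * y) :
    ∃ l', T3 F δ L mul clean (b, enc (k := k) q0 δ (⟨i, W⟩ :: l)) =
        ((aclose φ i y (b, c)).1, enc q0 δ l') ∧ RL φ ev l' (aclose φ i y (b, c)).2 := by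
  have hiff : ∀ h, (cf q0 δ i (W h)).1 ∈ F i ↔ φ i h = y := by
    intro h
    rw [← hacc, hW, inv_mul_eq_one]
  unfold T3 acc
  rw [ctl_enc]
  simp only
  by_cases hex : ∃ h, (cf q0 δ i (W h)).1 ∈ F i
  · rw [dif_pos hex]
    simp only
    have h1 := (hiff _).1 hex.choose_spec
    have he : ∃ h, φ i h = y := ⟨_, h1⟩
    have h2 : hex.choose = he.choose := hφ i (h1.trans he.choose_spec.symm)
    have h3 : aclose φ i y (b, c) = bmul φ hex.choose (b, c) := by
      unfold aclose
      rw [dif_pos he, h2]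
    rw [h3]
    generalize hex.choose = h0 at *
    unfold T4
    rw [feed_enc q0 δ L (fun i h' => clean i h0 h') (fun i h' => hcL i h0 h')]
    rw [popLev_enc]
    · exact T5_spec q0 δ φ ev L mul hmL hmul h0 l c b hl
    · intro h' s
      apply htidy
      rw [List.map_append, List.prod_append, hW, hclean, ← h1]
      group
  · rw [dif_neg hex]
    simp only
    have he : ¬ ∃ h, φ i h = y := by
      rintro ⟨h, hh⟩
      exact hex ⟨h, (hiff h).2 hh⟩
    have h3 : aclose φ i y (b, c) = (b, ⟨i, y⟩ :: c) := by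
      unfold aclose
      rw [dif_neg he]
    rw [h3]
    exact ⟨⟨i, W⟩ :: l, rfl, RL.cons hW hl⟩

theorem TT_spec (hφ : ∀ i, Function.Injective (φ i))
    (hacc : ∀ i (w : List (A i)), ((w.map (ev i)).prod = 1 ↔ (cf q0 δ i w).1 ∈ F i))
    (htidy : ∀ i (w : List (A i)), (w.map (ev i)).prod = 1 → ∀ s, (cf q0 δ i w).2 s = [])
    (L : ℕ) (pre : (i : ι) → H → List (A i)) (hpL : ∀ i h, (pre i h).length ≤ L)
    (hpre : ∀ i h, ((pre i h).map (ev i)).prod = (φ i h)⁻¹)
    (mul : (i : ι) → H → List (A i)) (hmL : ∀ i h, (mul i h).length ≤ L)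
    (hmul : ∀ i h, ((mul i h).map (ev i)).prod = φ i h)
    (clean : (i : ι) → H → H → List (A i)) (hcL : ∀ i h h', (clean i h h').length ≤ L)
    (hclean : ∀ i h h', ((clean i h h').map (ev i)).prod = (φ i h)⁻¹ * φ i h') (i : ι)
    (a : A i) (l : List (Σ i, (H → List (A i)))) (c : List (Σ i, G i)) (b : H)
    (hl : RL φ ev l c) :
    ∃ l', TT q0 F δ L pre mul clean i a (b, enc (k := k) q0 δ l) =
        ((aact φ i (ev i a) (b, c)).1, enc q0 δ l') ∧ RL φ ev l' (aact φ i (ev i a) (b, c)).2 := by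
  obtain ⟨W, l', c', g, h1, h2, h3, h4⟩ := T1_spec q0 δ φ ev L pre hpL hpre i l c b hl
  unfold TT
  rw [h1, h4, feed1_enc]
  refine T3_spec q0 F δ φ ev hφ hacc htidy L mul hmL hmul clean hcL hclean i _ l' c' b
    (g * ev i a) h2 ?_
  intro h
  rw [List.map_append, List.prod_append, h3, single_self]
  simp [mul_assoc]

theorem run_spec (hφ : ∀ i, Function.Injective (φ i))
    (hacc : ∀ i (w : List (A i)), ((w.map (ev i)).prod = 1 ↔ (cf q0 δ i w).1 ∈ F i))
    (htidy : ∀ i (w : List (A i)), (w.map (ev i)).prod = 1 → ∀ s, (cf q0 δ i w).2 s = [])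
    (L : ℕ) (pre : (i : ι) → H → List (A i)) (hpL : ∀ i h, (pre i h).length ≤ L)
    (hpre : ∀ i h, ((pre i h).map (ev i)).prod = (φ i h)⁻¹)
    (mul : (i : ι) → H → List (A i)) (hmL : ∀ i h, (mul i h).length ≤ L)
    (hmul : ∀ i h, ((mul i h).map (ev i)).prod = φ i h)
    (clean : (i : ι) → H → H → List (A i)) (hcL : ∀ i h h', (clean i h h').length ≤ L)
    (hclean : ∀ i h h', ((clean i h h').map (ev i)).prod = (φ i h)⁻¹ * φ i h')
    (w : List (Σ i, A i)) : ∀ (l : List (Σ i, (H → List (A i)))) (c : ACfg G H),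
    RL φ ev l c.2 → ∃ l', w.foldl (fun x e => TT q0 F δ L pre mul clean e.1 e.2 x)
        (c.1, enc (k := k) q0 δ l) =
      (((w.map fun e => (⟨e.1, ev e.1 e.2⟩ : Σ i, G i)).foldl (fun c e => aact φ e.1 e.2 c) c).1,
        enc q0 δ l') ∧
      RL φ ev l' ((w.map fun e => (⟨e.1, ev e.1 e.2⟩ : Σ i, G i)).foldl
        (fun c e => aact φ e.1 e.2 c) c).2 := by
  induction w with
  | nil => intro l c hl; exact ⟨l, rfl, hl⟩
  | cons e w ih =>
    intro l c hl
    obtain ⟨l1, h1, h2⟩ := TT_spec q0 F δ φ ev hφ hacc htidy L pre hpL hpre mul hmL hmul clean hcL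
      hclean e.1 e.2 l c.2 c.1 hl
    obtain ⟨l2, h3, h4⟩ := ih l1 (aact φ e.1 (ev e.1 e.2) c) h2
    refine ⟨l2, ?_, ?_⟩
    · rw [List.foldl_cons, List.map_cons, List.foldl_cons, ← h3]
      congr 1
    · rw [List.map_cons, List.foldl_cons]
      exact h4

end AM

end Pool.Agent.Helper22.EA
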