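import Mathlib
import Pool.Agent.Helper22.EA.AmalgN

/-!
MP_eaa19d_lc (with helper81).  Amalgamated products of finitely many tidy real-time groups over a
common finite subgroup are tidy real-time groups.
-/

set_option autoImplicit false

namespace Pool.Agent.Helper22.EA

open Pool.Agent.Helper81.RT Pool.Agent.Helper81.RT.GPM Monoid

theorem closure_pushout {ι H : Type} [Nonempty ι] (G : ι → Type) [∀ i, Group (G i)] [Group H]
    (φ : ∀ i, H →* G i) (α : ι → Type) (f : ∀ i, α i → G i)
    (hf : ∀ i, Subgroup.closure (Set.range (f i)) = ⊤) :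
    Subgroup.closure (Set.range (fun x : Σ i, α i => (PushoutI.of x.1 (f x.1 x.2) : PushoutI φ))) =
      ⊤ := by
  have hof : ∀ (i : ι) (g : G i), (PushoutI.of i g : PushoutI φ) ∈
      Subgroup.closure (Set.range (fun x : Σ i, α i =>
        (PushoutI.of x.1 (f x.1 x.2) : PushoutI φ))) := by
    intro i g
    have hg : g ∈ Subgroup.closure (Set.range (f i)) := by rw [hf]; trivial
    have h2 := Subgroup.mem_map_of_mem (PushoutI.of i : G i →* PushoutI φ) hg
    rw [MonoidHom.map_closure] at h2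
    refine Subgroup.closure_mono ?_ h2
    rintro z ⟨_, ⟨a, rfl⟩, rfl⟩
    exact ⟨⟨i, a⟩, rfl⟩
  rw [eq_top_iff]
  intro x _
  induction x using PushoutI.induction_on with
  | of i g => exact hof i g
  | base h =>
    obtain ⟨i⟩ := ‹Nonempty ι›
    rw [← PushoutI.of_apply_eq_base φ i]
    exact hof i _
  | mul x y hx hy => exact mul_mem (hx trivial) (hy trivial)

open AM in
/-- Amalgamated products of finitely many tidy real-time groups over a common finite subgroup are
tidy real-time groups. -/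
theorem tidy_pushout {ι H : Type} [Finite ι] [Nonempty ι] [Group H] [Finite H] (G : ι → Type)
    [∀ i, Group (G i)] (φ : ∀ i, H →* G i) (hφ : ∀ i, Function.Injective (φ i))
    (hG : ∀ i, TidyGroup (G i)) : TidyGroup (PushoutI φ) := by
  classical
  choose k α hα f hf hT using hG
  choose n m q0 F δ hδ hw using hT
  let ev : ∀ i, (α i ⊕ α i) → G i := fun i => Sum.elim (f i) (fun a => (f i a)⁻¹)
  have hacc : ∀ i (w : List (α i ⊕ α i)),
      ((w.map (ev i)).prod = 1 ↔ (cf q0 δ i w).1 ∈ F i) := fun i w => (hw i w).1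
  have htidy : ∀ i (w : List (α i ⊕ α i)), (w.map (ev i)).prod = 1 →
      ∀ s, (cf q0 δ i w).2 s = [] := fun i w => (hw i w).2
  choose word hword using fun i => exists_word_of_closure (f i) (hf i)
  let pre : (i : ι) → H → List (α i ⊕ α i) := fun i h => word i (φ i h)⁻¹
  let mul : (i : ι) → H → List (α i ⊕ α i) := fun i h => word i (φ i h)
  let clean : (i : ι) → H → H → List (α i ⊕ α i) := fun i h h' => word i ((φ i h)⁻¹ * φ i h')
  obtain ⟨L, hL⟩ : ∃ L, ∀ x : ι × H × H, (clean x.1 x.2.1 x.2.2).length ≤ L ∧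
      (pre x.1 x.2.1).length ≤ L ∧ (mul x.1 x.2.1).length ≤ L := by
    obtain ⟨L, hL⟩ := (Set.finite_range (fun x : ι × H × H =>
      (clean x.1 x.2.1 x.2.2).length + (pre x.1 x.2.1).length + (mul x.1 x.2.1).length)).bddAbove
    refine ⟨L, fun x => ?_⟩
    have := hL ⟨x, rfl⟩
    simp only at this
    omega
  have hpL : ∀ i h, (pre i h).length ≤ L := fun i h => (hL (i, h, 1)).2.1
  have hmL : ∀ i h, (mul i h).length ≤ L := fun i h => (hL (i, h, 1)).2.2
  have hcL : ∀ i h h', (clean i h h').length ≤ L := fun i h h' => (hL (i, h, h')).1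
  have hpre : ∀ i h, ((pre i h).map (ev i)).prod = (φ i h)⁻¹ := fun i h => hword i _
  have hmul : ∀ i h, ((mul i h).map (ev i)).prod = φ i h := fun i h => hword i _
  have hclean : ∀ i h h', ((clean i h h').map (ev i)).prod = (φ i h)⁻¹ * φ i h' :=
    fun i h h' => hword i _
  let letter : (Σ i, α i) ⊕ (Σ i, α i) → Σ i, (α i ⊕ α i) :=
    Sum.elim (fun x => ⟨x.1, Sum.inl x.2⟩) (fun x => ⟨x.1, Sum.inr x.2⟩)
  -- the run
  have hrun : ∀ w : List ((Σ i, α i) ⊕ (Σ i, α i)), ∃ (l : List (Σ i, (H → List (α i ⊕ α i))))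
      (c : ACfg G H), w.foldl (fun x a => TT q0 F δ L pre mul clean (letter a).1 (letter a).2 x)
        ((1 : H), fun _ => []) = (c.1, enc q0 δ l) ∧ RL φ ev l c.2 ∧
      ((w.map (Sum.elim (fun x : Σ i, α i => (PushoutI.of x.1 (f x.1 x.2) : PushoutI φ))
        (fun x => (PushoutI.of x.1 (f x.1 x.2) : PushoutI φ)⁻¹))).prod = 1 ↔ c = (1, [])) := by
    intro w
    obtain ⟨l, h1, h2⟩ := run_spec q0 F δ φ ev hφ hacc htidy L pre hpL hpre mul hmL hmul clean hcL
      hclean (w.map letter) [] (1, []) RL.nil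
    have h3 := aprod_eq_one_iff φ hφ ((w.map letter).map fun e => (⟨e.1, ev e.1 e.2⟩ : Σ i, G i))
    refine ⟨l, _, ?_, h2, ?_⟩
    · rw [← h1, List.foldl_map]
      have h0 : (enc q0 δ [] : (j : Jx H k) → List (Sy H (fun i => Fin (n i))
          (fun i => Fin (m i)) k j)) = fun _ => [] := by
        funext j
        rcases j with _ | ⟨j, h, s⟩ <;> rfl
      rw [h0]
    · rw [← h3]
      have h4 : (w.map (Sum.elim (fun x : Σ i, α i => (PushoutI.of x.1 (f x.1 x.2) : PushoutI φ))
          (fun x => (PushoutI.of x.1 (f x.1 x.2) : PushoutI φ)⁻¹))) =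
          (((w.map letter).map fun e => (⟨e.1, ev e.1 e.2⟩ : Σ i, G i)).map
            fun e => (PushoutI.of e.1 e.2 : PushoutI φ)) := by
        rw [List.map_map, List.map_map]
        refine List.map_congr_left ?_
        rintro (x | x) _
        · rfl
        · simp [letter, ev]
      rw [h4]
  have hRL : ∀ (l : List (Σ i, (H → List (α i ⊕ α i)))) (c : List (Σ i, G i)),
      RL φ ev l c → (l = [] ↔ c = []) := by
    intro l c h
    cases h <;> simp
  obtain ⟨K, hK⟩ := tidy_of_loc (A := (Σ i, α i) ⊕ (Σ i, α i)) (c := 7 + 6 * L) (by omega)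
    {w | (w.map (Sum.elim (fun x : Σ i, α i => (PushoutI.of x.1 (f x.1 x.2) : PushoutI φ))
        (fun x => (PushoutI.of x.1 (f x.1 x.2) : PushoutI φ)⁻¹))).prod = 1}
    (1 : H) {1} (none : Jx H k)
    (fun a => TT q0 F δ L pre mul clean (letter a).1 (letter a).2)
    (fun a => loc_TT q0 F δ hδ L pre mul clean _ _) (by
      intro w
      obtain ⟨l, c, h1, h2, h3⟩ := hrun w
      rw [Set.mem_ofPred_eq, h3, h1]
      have h4 := hRL l c.2 h2
      have h5 : (enc q0 δ l (none : Jx H k) : List (Σ i, (H → Fin (n i)))) = [] ↔ l = [] := by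
        change encC q0 δ l = [] ↔ l = []
        unfold encC
        rw [List.map_eq_nil_iff]
      simp only [Set.mem_singleton_iff]
      obtain ⟨c1, c2⟩ := c
      simp only [Prod.mk.injEq] at h4 ⊢
      rw [h5, h4]) (by
      intro w hw
      obtain ⟨l, c, h1, h2, h3⟩ := hrun w
      rw [Set.mem_ofPred_eq, h3] at hw
      subst hw
      have h4 := (hRL l [] h2).2 rfl
      subst h4
      rw [h1]
      intro j
      rcases j with _ | ⟨j, h, s⟩ <;> rfl)
  exact ⟨K, (Σ i, α i), inferInstance, fun x => PushoutI.of x.1 (f x.1 x.2),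
    closure_pushout G φ α f hf, hK⟩

end Pool.Agent.Helper22.EA
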