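import Mathlib

/-!
MP_eaa19d_lc (one work tape, with helper81).  A real-time one-tape machine that follows a lamp
configuration on the integers with a cursor and knows at every moment whether everything is off
and the cursor is at the origin.

The state holds: the content of the current cell (lamp, is it the origin), whether something is lit
to the left, whether something is lit to the right, and the record of the neighbour the head came
from.  A tape cell holds a record of its left neighbour and a record of its right neighbour, where a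
record is: content of the neighbour, and whether something is lit beyond it.
-/

namespace Pool.Helper22.EA

/-- A record of a cell: its lamp, whether it is the origin, whether something is lit beyond it. -/
abbrev Rec := (Bool × Bool) × Bool

/-- States of the lamp machine. -/
abbrev LSt := (Bool × Bool) × Bool × Bool × (Rec ⊕ Rec)

/-- Symbols of the lamp machine: records of the left and of the right neighbour. -/
abbrev LSy := Rec × Rec

/-- The three instructions. -/
inductive Instr where
  | toggle : Instr
  | right : Instr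
  | left : Instr

/-- The record of the left neighbour. -/
def lrec (s : LSt) (y : LSy) : Rec :=
  match s.2.2.2 with
  | Sum.inl i => i
  | Sum.inr _ => y.1

/-- The record of the right neighbour. -/
def rrec (s : LSt) (y : LSy) : Rec :=
  match s.2.2.2 with
  | Sum.inl _ => y.2
  | Sum.inr i => i

/-- The transition function of the lamp machine. -/
def ldel (s : LSt) (k : Instr) (y : LSy) : LSt × LSy × ℤ :=
  match k with
  | Instr.toggle => (((!s.1.1, s.1.2), s.2.1, s.2.2.1, s.2.2.2), y, 0)
  | Instr.right =>
    (((rrec s y).1, (s.2.1 || s.1.1), (rrec s y).2, Sum.inl (s.1, s.2.1)),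
      (lrec s y, rrec s y), 1)
  | Instr.left =>
    (((lrec s y).1, (lrec s y).2, (s.2.2.1 || s.1.1), Sum.inr (s.1, s.2.2.1)),
      (lrec s y, rrec s y), -1)

/-- One step of a one-tape machine. -/
def ostep {Q S A : Type} (δ : Q → A → S → Q × S × ℤ) (c : Q × (ℤ → S) × ℤ) (a : A) :
    Q × (ℤ → S) × ℤ :=
  ((δ c.1 a (c.2.1 c.2.2)).1, Function.update c.2.1 c.2.2 (δ c.1 a (c.2.1 c.2.2)).2.1,
    c.2.2 + (δ c.1 a (c.2.1 c.2.2)).2.2)

/-- One step of a lamp configuration. -/
def cstep (c : (ℤ → Bool) × ℤ) (k : Instr) : (ℤ → Bool) × ℤ :=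
  match k with
  | Instr.toggle => (Function.update c.1 c.2 (!c.1 c.2), c.2)
  | Instr.right => (c.1, c.2 + 1)
  | Instr.left => (c.1, c.2 - 1)

open Classical in
/-- Something is lit strictly to the left of `q`. -/
noncomputable def lam (X : ℤ → Bool) (q : ℤ) : Bool := decide (∃ s, s < q ∧ X s = true)

open Classical in
/-- Something is lit strictly to the right of `q`. -/
noncomputable def rho (X : ℤ → Bool) (q : ℤ) : Bool := decide (∃ s, q < s ∧ X s = true)

theorem lam_succ (X : ℤ → Bool) (q : ℤ) : lam X (q + 1) = (lam X q || X q) := by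
  rw [Bool.eq_iff_iff]
  simp only [lam, Bool.or_eq_true, decide_eq_true_eq]
  constructor
  · rintro ⟨s, hs, h⟩
    rcases (Int.lt_add_one_iff.1 hs).lt_or_eq with h1 | h1
    · exact Or.inl ⟨s, h1, h⟩
    · exact Or.inr (h1 ▸ h)
  · rintro (⟨s, hs, h⟩ | h)
    · exact ⟨s, by omega, h⟩
    · exact ⟨q, by omega, h⟩

theorem rho_pred (X : ℤ → Bool) (q : ℤ) : rho X (q - 1) = (rho X q || X q) := by
  rw [Bool.eq_iff_iff]
  simp only [rho, Bool.or_eq_true, decide_eq_true_eq]
  constructor
  · rintro ⟨s, hs, h⟩
    rcases (show q < s ∨ q = s by omega) with h1 | h1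
    · exact Or.inl ⟨s, h1, h⟩
    · exact Or.inr (h1 ▸ h)
  · rintro (⟨s, hs, h⟩ | h)
    · exact ⟨s, by omega, h⟩
    · exact ⟨q, by omega, h⟩

theorem lam_update (X : ℤ → Bool) {p q : ℤ} (h : q ≤ p) (b : Bool) :
    lam (Function.update X p b) q = lam X q := by
  rw [Bool.eq_iff_iff]
  simp only [lam, decide_eq_true_eq]
  constructor
  · rintro ⟨s, hs, h1⟩
    rw [Function.update_of_ne (by omega)] at h1
    exact ⟨s, hs, h1⟩
  · rintro ⟨s, hs, h1⟩
    exact ⟨s, hs, by rw [Function.update_of_ne (by omega)]; exact h1⟩

theorem rho_update (X : ℤ → Bool) {p q : ℤ} (h : p ≤ q) (b : Bool) :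
    rho (Function.update X p b) q = rho X q := by
  rw [Bool.eq_iff_iff]
  simp only [rho, decide_eq_true_eq]
  constructor
  · rintro ⟨s, hs, h1⟩
    rw [Function.update_of_ne (by omega)] at h1
    exact ⟨s, hs, h1⟩
  · rintro ⟨s, hs, h1⟩
    exact ⟨s, hs, by rw [Function.update_of_ne (by omega)]; exact h1⟩

/-- The true left record of `q` (the record of `q - 1`). -/
noncomputable def tl (X : ℤ → Bool) (q : ℤ) : Rec := ((X (q - 1), decide (q - 1 = 0)), lam X (q - 1))

/-- The true right record of `q` (the record of `q + 1`). -/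
noncomputable def tr (X : ℤ → Bool) (q : ℤ) : Rec := ((X (q + 1), decide (q + 1 = 0)), rho X (q + 1))

/-- The invariant. -/
structure Inv (d : (ℤ → Bool) × ℤ) (c : LSt × (ℤ → LSy) × ℤ) : Prop where
  pos : c.2.2 = d.2
  cell : c.1.1 = (d.1 d.2, decide (d.2 = 0))
  left : c.1.2.1 = lam d.1 d.2
  right : c.1.2.2.1 = rho d.1 d.2
  tleft : ∀ q, q < d.2 → (c.2.1 q).1 = tl d.1 q
  tright : ∀ q, d.2 < q → (c.2.1 q).2 = tr d.1 q
  hl : lrec c.1 (c.2.1 d.2) = tl d.1 d.2
  hr : rrec c.1 (c.2.1 d.2) = tr d.1 d.2

/-- The initial state. -/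
def linit : LSt := ((false, true), false, false, Sum.inl ((false, false), false))

/-- The blank symbol. -/
def lblank : LSy := (((false, false), false), ((false, false), false))

theorem lam_false (q : ℤ) : lam (fun _ => false) q = false := by simp [lam]

theorem rho_false (q : ℤ) : rho (fun _ => false) q = false := by simp [rho]

theorem inv_init : Inv ((fun _ => false), 0) (linit, fun _ => lblank, 0) where
  pos := rfl
  cell := by simp [linit]
  left := by simp [linit, lam_false]
  right := by simp [linit, rho_false]
  tleft := by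
    intro q hq
    have hq' : q < 0 := hq
    have : ¬ q - 1 = 0 := by omega
    simp [lblank, tl, lam_false, this]
  tright := by
    intro q hq
    have hq' : 0 < q := hq
    have : ¬ q + 1 = 0 := by omega
    simp [lblank, tr, rho_false, this]
  hl := by simp [lrec, linit, tl, lam_false]
  hr := by simp [rrec, linit, lblank, tr, rho_false]

theorem inv_step {d : (ℤ → Bool) × ℤ} {c : LSt × (ℤ → LSy) × ℤ} (h : Inv d c) (k : Instr) :
    Inv (cstep d k) (ostep ldel c k) := by
  obtain ⟨X, p⟩ := d
  obtain ⟨s, T, p'⟩ := c
  obtain ⟨h1, h2, h3, h4, h5, h6, h7, h8⟩ := h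
  simp only at h1 h2 h3 h4 h5 h6 h7 h8
  subst h1
  cases k with
  | toggle =>
    have hT : Function.update T p' (T p') = T := Function.update_eq_self p' T
    have hfl : ∀ s' : LSt, s'.2.2.2 = s.2.2.2 → ∀ y, lrec s' y = lrec s y := by
      intro s' hs y; unfold lrec; rw [hs]
    have hfr : ∀ s' : LSt, s'.2.2.2 = s.2.2.2 → ∀ y, rrec s' y = rrec s y := by
      intro s' hs y; unfold rrec; rw [hs]
    refine ⟨?_, ?_, ?_, ?_, ?_, ?_, ?_, ?_⟩
    · simp [cstep, ostep, ldel]
    · simp [cstep, ostep, ldel, h2]
    · simp only [cstep, ostep, ldel]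
      rw [lam_update X le_rfl]
      exact h3
    · simp only [cstep, ostep, ldel]
      rw [rho_update X le_rfl]
      exact h4
    · intro q hq
      simp only [cstep] at hq
      simp only [cstep, ostep, ldel]
      rw [hT, h5 q hq]
      simp only [tl]
      rw [Function.update_of_ne (by omega), lam_update X (by omega)]
    · intro q hq
      simp only [cstep] at hq
      simp only [cstep, ostep, ldel]
      rw [hT, h6 q hq]
      simp only [tr]
      rw [Function.update_of_ne (by omega), rho_update X (by omega)]
    · simp only [cstep, ostep, ldel]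
      rw [hT, hfl ((!s.1.1, s.1.2), s.2.1, s.2.2.1, s.2.2.2) rfl, h7]
      simp only [tl]
      rw [Function.update_of_ne (by omega), lam_update X (by omega)]
    · simp only [cstep, ostep, ldel]
      rw [hT, hfr ((!s.1.1, s.1.2), s.2.1, s.2.2.1, s.2.2.2) rfl, h8]
      simp only [tr]
      rw [Function.update_of_ne (by omega), rho_update X (by omega)]
  | right =>
    refine ⟨?_, ?_, ?_, ?_, ?_, ?_, ?_, ?_⟩
    · simp [cstep, ostep, ldel]
    · simp only [cstep, ostep, ldel]
      rw [h8]
      rfl
    · simp only [cstep, ostep, ldel]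
      rw [lam_succ, h3, h2]
    · simp only [cstep, ostep, ldel]
      rw [h8]
      rfl
    · intro q hq
      simp only [cstep] at hq
      simp only [cstep, ostep, ldel]
      rcases (Int.lt_add_one_iff.1 hq).lt_or_eq with h9 | h9
      · rw [Function.update_of_ne (by omega)]
        exact h5 q h9
      · subst h9
        rw [Function.update_self]
        exact h7
    · intro q hq
      simp only [cstep] at hq
      simp only [cstep, ostep, ldel]
      rw [Function.update_of_ne (by omega)]
      exact h6 q (by omega)
    · simp only [cstep, ostep, ldel, lrec, tl]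
      rw [h2, h3]
      simp
    · simp only [cstep, ostep, ldel, rrec]
      rw [Function.update_of_ne (by omega)]
      exact h6 _ (by omega)
  | left =>
    refine ⟨?_, ?_, ?_, ?_, ?_, ?_, ?_, ?_⟩
    · simp only [cstep, ostep, ldel]; ring
    · simp only [cstep, ostep, ldel]
      rw [h7]
      rfl
    · simp only [cstep, ostep, ldel]
      rw [h7]
      rfl
    · simp only [cstep, ostep, ldel]
      rw [rho_pred, h4, h2]
    · intro q hq
      simp only [cstep] at hq
      simp only [cstep, ostep, ldel]
      rw [Function.update_of_ne (by omega)]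
      exact h5 q (by omega)
    · intro q hq
      simp only [cstep] at hq
      simp only [cstep, ostep, ldel]
      rcases (show p' < q ∨ q = p' by omega) with h9 | h9
      · rw [Function.update_of_ne (by omega)]
        exact h6 q h9
      · subst h9
        rw [Function.update_self]
        exact h8
    · simp only [cstep, ostep, ldel, lrec]
      rw [Function.update_of_ne (by omega)]
      exact h5 _ (by omega)
    · simp only [cstep, ostep, ldel, rrec, tr]
      rw [h2, h4]
      simp

theorem inv_foldl (w : List Instr) : ∀ (d : (ℤ → Bool) × ℤ) (c : LSt × (ℤ → LSy) × ℤ), Inv d c →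
    Inv (w.foldl cstep d) (w.foldl (ostep ldel) c) := by
  induction w with
  | nil => intro d c h; exact h
  | cons a w ih => intro d c h; exact ih _ _ (inv_step h a)

/-- The accepting states. -/
def lacc : Set LSt := {s | s.1 = (false, true) ∧ s.2.1 = false ∧ s.2.2.1 = false}

theorem acc_iff {d : (ℤ → Bool) × ℤ} {c : LSt × (ℤ → LSy) × ℤ} (h : Inv d c) :
    c.1 ∈ lacc ↔ d = ((fun _ => false), 0) := by
  obtain ⟨X, p⟩ := d
  obtain ⟨h1, h2, h3, h4, -, -, -, -⟩ := h
  simp only at h2 h3 h4
  simp only [lacc, Set.mem_ofPred_eq]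
  rw [h2, h3, h4]
  constructor
  · rintro ⟨ha, hb, hc⟩
    simp only [Prod.mk.injEq, decide_eq_true_eq] at ha
    simp only [lam, rho, decide_eq_false_iff_not, not_exists, not_and, Bool.not_eq_true] at hb hc
    rw [Prod.mk.injEq]
    refine ⟨funext fun s => ?_, ha.2⟩
    rcases lt_trichotomy s p with h9 | h9 | h9
    · exact hb s h9
    · rw [h9]; exact ha.1
    · exact hc s h9
  · intro h9
    rw [Prod.mk.injEq] at h9
    obtain ⟨rfl, rfl⟩ := h9
    simp [lam_false, rho_false]

/-- The lamp machine accepts exactly the instruction lists that lead back to the start. -/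
theorem lamp_machine (w : List Instr) :
    (w.foldl (ostep ldel) (linit, fun _ => lblank, 0)).1 ∈ lacc ↔
      w.foldl cstep ((fun _ => false), 0) = ((fun _ => false), 0) :=
  acc_iff (inv_foldl w _ _ inv_init)

end Pool.Helper22.EA
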