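import Mathlib
import Pool.Agent.Helper22.EA.Lamp

/-!
MP_eaa19d_lc (one work tape, with helper81).  A one-tape machine with arbitrary finite types of
states and symbols is a one-tape machine in the format of the problem.
-/

namespace Pool.Helper22.EA

/-- The step function of a `k`-tape machine in the format of the problem. -/
def fstep {A : Type} {k n m : ℕ}
    (δ : Fin n → A → (Fin k → Fin (m + 1)) → Fin n × (Fin k → Fin (m + 1)) × (Fin k → ℤ))
    (c : Fin n × (Fin k → ℤ → Fin (m + 1)) × (Fin k → ℤ)) (a : A) :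
    Fin n × (Fin k → ℤ → Fin (m + 1)) × (Fin k → ℤ) :=
  ((δ c.1 a (fun i => c.2.1 i (c.2.2 i))).1,
    fun i => Function.update (c.2.1 i) (c.2.2 i)
      ((δ c.1 a (fun j => c.2.1 j (c.2.2 j))).2.1 i),
    fun i => c.2.2 i + (δ c.1 a (fun j => c.2.1 j (c.2.2 j))).2.2 i)

/-- A numbering of a finite type in which a given element has number `0`. -/
theorem exists_numbering {S : Type} [Finite S] (b : S) :
    ∃ (m : ℕ) (f : S ≃ Fin (m + 1)), f b = 0 := by
  have := Fintype.ofFinite S
  have hne : Nonempty S := ⟨b⟩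
  obtain ⟨m, hm⟩ : ∃ m, Fintype.card S = m + 1 :=
    Nat.exists_eq_succ_of_ne_zero Fintype.card_ne_zero
  let e : S ≃ Fin (m + 1) := (Fintype.equivFin S).trans (finCongr hm)
  exact ⟨m, e.trans (Equiv.swap (e b) 0), by simp⟩

theorem exists_fin {Q S A : Type} [Finite Q] [Finite S] (q0 : Q) (b : S) (F : Set Q)
    (δ : Q → A → S → Q × S × ℤ) (hδ : ∀ q a s, |(δ q a s).2.2| ≤ 1) :
    ∃ (n m : ℕ) (q0' : Fin n) (F' : Set (Fin n))
      (δ' : Fin n → A → (Fin 1 → Fin (m + 1)) → Fin n × (Fin 1 → Fin (m + 1)) × (Fin 1 → ℤ)),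
      (∀ q a r i, |(δ' q a r).2.2 i| ≤ 1) ∧
      ∀ w : List A, (w.foldl (ostep δ) (q0, fun _ => b, 0)).1 ∈ F ↔
        (w.foldl (fstep δ') (q0', fun _ _ => 0, fun _ => 0)).1 ∈ F' := by
  have := Fintype.ofFinite Q
  obtain ⟨m, f, hf⟩ := exists_numbering b
  let e : Q ≃ Fin (Fintype.card Q) := Fintype.equivFin Q
  let δ' : Fin (Fintype.card Q) → A → (Fin 1 → Fin (m + 1)) →
      Fin (Fintype.card Q) × (Fin 1 → Fin (m + 1)) × (Fin 1 → ℤ) := fun q a r =>
    (e (δ (e.symm q) a (f.symm (r 0))).1, fun _ => f (δ (e.symm q) a (f.symm (r 0))).2.1,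
      fun _ => (δ (e.symm q) a (f.symm (r 0))).2.2)
  refine ⟨Fintype.card Q, m, e q0, {q | e.symm q ∈ F}, δ', fun q a r i => hδ _ _ _, fun w => ?_⟩
  have key : ∀ (w : List A) (q : Q) (T : ℤ → S) (p : ℤ),
      w.foldl (fstep δ') (e q, fun _ t => f (T t), fun _ => p) =
        (e (w.foldl (ostep δ) (q, T, p)).1, fun _ t => f ((w.foldl (ostep δ) (q, T, p)).2.1 t),
          fun _ => (w.foldl (ostep δ) (q, T, p)).2.2) := by
    intro w
    induction w with
    | nil => intro q T p; rfl
    | cons a w ih =>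
      intro q T p
      have hstep : fstep δ' (e q, fun _ t => f (T t), fun _ => p) a =
          (e (ostep δ (q, T, p) a).1, fun _ t => f ((ostep δ (q, T, p) a).2.1 t),
            fun _ => (ostep δ (q, T, p) a).2.2) := by
        simp only [fstep, ostep, δ', Equiv.symm_apply_apply]
        rw [Prod.mk.injEq, Prod.mk.injEq]
        refine ⟨rfl, ?_, rfl⟩
        funext i t
        by_cases h : t = p
        · subst h
          rw [Function.update_self, Function.update_self]
        · rw [Function.update_of_ne h, Function.update_of_ne h]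
      rw [List.foldl_cons, List.foldl_cons, hstep]
      exact ih _ _ _
  have h0 : (e q0, fun _ _ => 0, fun _ => 0) =
      ((e q0, fun (_ : Fin 1) (t : ℤ) => f ((fun _ => b) t), fun _ => 0) :
        Fin (Fintype.card Q) × (Fin 1 → ℤ → Fin (m + 1)) × (Fin 1 → ℤ)) := by
    simp only [hf]
  rw [h0, key w q0 (fun _ => b) 0]
  simp

end Pool.Helper22.EA
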