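import Mathlib

/-!
MP_eaa19d_lc (with helper81).  HNN extensions: the word problem by a stack of pairs of a sign and an
element of the base group.
-/

set_option autoImplicit false

namespace Pool.Agent.Helper22.EA

open HNNExtension

variable {G : Type} [Group G] {A B : Subgroup G} (φ : A ≃* B)

/-- A configuration: the current element of the base group and the stack of pairs of a sign and the
element before it. -/
abbrev HCfg (G : Type) : Type := G × List (ℤˣ × G)

open Classical in
/-- The action of the stable letter to the power `u`. -/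
noncomputable def tact (u : ℤˣ) : HCfg G → HCfg G
  | (g, []) => (1, [(u, g)])
  | (g, (v, g') :: l) =>
    if h : v = -u ∧ g ∈ toSubgroup A B v then
      (g' * (toSubgroupEquiv φ v ⟨g, h.2⟩ : G), l)
    else (1, (u, g) :: (v, g') :: l)

/-- The action of a letter. -/
noncomputable def hact : G ⊕ ℤˣ → HCfg G → HCfg G
  | Sum.inl a => fun c => (c.1 * a, c.2)
  | Sum.inr u => tact φ u

/-- The value of a stack. -/
def hvalL : List (ℤˣ × G) → HNNExtension G A B φ
  | [] => 1
  | (u, g) :: l => hvalL l * HNNExtension.of g * t ^ (u : ℤ)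

/-- The value of a configuration. -/
def hval (c : HCfg G) : HNNExtension G A B φ := hvalL φ c.2 * HNNExtension.of c.1

/-- The value of a letter. -/
def hlet : G ⊕ ℤˣ → HNNExtension G A B φ
  | Sum.inl a => HNNExtension.of a
  | Sum.inr u => t ^ (u : ℤ)

/-- Valid stacks. -/
def HValid (A B : Subgroup G) (l : List (ℤˣ × G)) : Prop :=
  l.IsChain fun a b => a.2 ∈ toSubgroup A B b.1 → b.1 = a.1

theorem t_conj (v : ℤˣ) (a : toSubgroup A B v) :
    (t ^ (v : ℤ) : HNNExtension G A B φ) * HNNExtension.of (a : G) =
      HNNExtension.of (toSubgroupEquiv φ v a : G) * t ^ (v : ℤ) := by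
  rcases Int.units_eq_one_or v with rfl | rfl
  · simp only [Units.val_one, zpow_one]
    exact t_mul_of a
  · simp only [Units.val_neg, Units.val_one, zpow_neg, zpow_one]
    exact inv_t_mul_of a

theorem hval_tact (u : ℤˣ) (c : HCfg G) : hval φ (tact φ u c) = hval φ c * t ^ (u : ℤ) := by
  obtain ⟨g, _ | ⟨⟨v, g'⟩, l⟩⟩ := c
  · simp [tact, hval, hvalL]
  · unfold tact
    simp only
    split_ifs with h
    · obtain ⟨rfl, h⟩ := h
      have h1 := t_conj φ (-u) ⟨g, h⟩
      simp only [hval, hvalL, map_mul, mul_assoc]
      congr 2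
      rw [← mul_assoc (t ^ _), h1, mul_assoc]
      simp
    · simp [hval, hvalL]

theorem hval_hact (x : G ⊕ ℤˣ) (c : HCfg G) : hval φ (hact φ x c) = hval φ c * hlet φ x := by
  rcases x with a | u
  · simp [hact, hval, hlet, mul_assoc]
  · exact hval_tact φ u c

theorem HValid.tact {u : ℤˣ} {c : HCfg G} (hc : HValid A B c.2) :
    HValid A B (Pool.Agent.Helper22.EA.tact φ u c).2 := by
  obtain ⟨g, _ | ⟨⟨v, g'⟩, l⟩⟩ := c
  · simp [Pool.Agent.Helper22.EA.tact, HValid]
  · unfold Pool.Agent.Helper22.EA.tact
    simp only
    split_ifs with h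
    · exact List.IsChain.tail hc
    · unfold HValid at hc ⊢
      simp only at hc ⊢
      rw [List.isChain_cons_cons]
      refine ⟨?_, hc⟩
      intro h1
      simp only at h1 ⊢
      by_contra h2
      refine h ⟨?_, h1⟩
      rcases Int.units_eq_one_or v with rfl | rfl <;>
        rcases Int.units_eq_one_or u with rfl | rfl <;> simp_all

theorem HValid.hact {x : G ⊕ ℤˣ} {c : HCfg G} (hc : HValid A B c.2) :
    HValid A B (Pool.Agent.Helper22.EA.hact φ x c).2 := by
  rcases x with a | u
  · exact hc
  · exact hc.tact φ

/-- The reduced word of a configuration. -/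
def toW (g : G) : List (ℤˣ × G) → G × List (ℤˣ × G)
  | [] => (g, [])
  | (u, g') :: l => ((toW g' l).1, (toW g' l).2 ++ [(u, g)])

theorem toW_last (g : G) (l : List (ℤˣ × G)) :
    (toW g l).2.getLast? = l.head?.map fun b => (b.1, g) := by
  cases l with
  | nil => rfl
  | cons b l => obtain ⟨u, g'⟩ := b; simp [toW]

theorem toW_chain (l : List (ℤˣ × G)) : ∀ g, HValid A B l →
    (toW g l).2.IsChain (fun a b => a.2 ∈ toSubgroup A B a.1 → a.1 = b.1) := by
  induction l with
  | nil => intro g _; simp [toW]
  | cons b l ih =>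
    obtain ⟨u, g'⟩ := b
    intro g h
    simp only [toW]
    rw [List.isChain_append]
    refine ⟨ih g' h.tail, by simp, ?_⟩
    intro x hx y hy
    rw [toW_last] at hx
    simp only [List.head?_cons, Option.mem_some_iff] at hy
    subst hy
    cases l with
    | nil => simp at hx
    | cons b l =>
      obtain ⟨v, g''⟩ := b
      simp only [List.head?_cons, Option.map_some, Option.mem_some_iff] at hx
      subst hx
      unfold HValid at h
      rw [List.isChain_cons_cons] at h
      exact h.1

theorem toW_prod (l : List (ℤˣ × G)) : ∀ g, HNNExtension.of (toW g l).1 *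
    ((toW g l).2.map (fun x => t ^ (x.1 : ℤ) * HNNExtension.of x.2)).prod = hval φ (g, l) := by
  induction l with
  | nil => intro g; simp [toW, hval, hvalL]
  | cons b l ih =>
    obtain ⟨u, g'⟩ := b
    intro g
    simp only [toW, List.map_append, List.prod_append]
    rw [← mul_assoc, ih g']
    simp [hval, hvalL, mul_assoc]

/-- A valid configuration has trivial value only if it is the initial one. -/
theorem hval_eq_one_iff {c : HCfg G} (hc : HValid A B c.2) : hval φ c = 1 ↔ c = (1, []) := by
  constructor
  · intro h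
    obtain ⟨g, l⟩ := c
    let w : HNNExtension.NormalWord.ReducedWord G A B := ⟨(toW g l).1, (toW g l).2, toW_chain l g hc⟩
    have h1 : w.prod φ = 1 := by
      rw [← h, ← toW_prod φ l g]
      rfl
    have h2 := HNNExtension.ReducedWord.toList_eq_nil_of_mem_of_range φ w (by rw [h1]; exact one_mem _)
    have h3 : l = [] := by
      cases l with
      | nil => rfl
      | cons b l => obtain ⟨u, g'⟩ := b; simp [w, toW] at h2
    subst h3
    have h4 : (HNNExtension.of g : HNNExtension G A B φ) = 1 := by simpa [hval, hvalL] using h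
    rw [(map_eq_one_iff _ (HNNExtension.of_injective φ)).1 h4]
  · rintro rfl
    simp [hval, hvalL]

/-- The word problem of the HNN extension. -/
theorem hprod_eq_one_iff (w : List (G ⊕ ℤˣ)) :
    (w.map (hlet φ)).prod = 1 ↔ w.foldl (fun c x => hact φ x c) (1, []) = (1, []) := by
  have key : ∀ (w : List (G ⊕ ℤˣ)) (c : HCfg G), HValid A B c.2 →
      HValid A B (w.foldl (fun c x => hact φ x c) c).2 ∧
        hval φ (w.foldl (fun c x => hact φ x c) c) = hval φ c * (w.map (hlet φ)).prod := by
    intro w
    induction w with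
    | nil => intro c hc; exact ⟨hc, by simp⟩
    | cons e w ih =>
      intro c hc
      rw [List.foldl_cons]
      obtain ⟨h1, h2⟩ := ih (hact φ e c) (hc.hact φ)
      refine ⟨h1, ?_⟩
      rw [h2, hval_hact, List.map_cons, List.prod_cons, mul_assoc]
  obtain ⟨h1, h2⟩ := key w (1, []) (by simp [HValid])
  rw [← hval_eq_one_iff φ h1, h2]
  simp [hval, hvalL]

end Pool.Agent.Helper22.EA
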