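import Mathlib
import Pool.Agent.Helper22.EA.AmalgN

/-!
MP_eaa19d_lc (with helper81).  The machine for HNN extensions of tidy real-time groups with finite
associated subgroups.

The current element `g` of the base group is stored in the state as an element of a finite set
(closed level) or by configurations of the machine of the base group, one for every element `h` of
the finite set, with value `h⁻¹ * g` (open level).
-/

set_option autoImplicit false

namespace Pool.Agent.Helper22.EA

open Pool.Agent.Helper81.RT Pool.Agent.Helper81.RT.GPM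

namespace HM

variable {I A Q S : Type} {k : ℕ}

/-- The run of the machine of the base group. -/
def cg (q0 : Q) (δ : Q → A → (Fin k → Option S) → Q × (Fin k → List S)) (w : List A) :
    Q × (Fin k → List S) := w.foldl (pstep δ) (q0, fun _ => [])

theorem cg_snoc (q0 : Q) (δ : Q → A → (Fin k → Option S) → Q × (Fin k → List S)) (w : List A)
    (a : A) : cg q0 δ (w ++ [a]) = pstep δ (cg q0 δ w) a := by
  simp [cg, List.foldl_append]

/-- The status of a level. -/
abbrev St (I Q : Type) : Type := I ⊕ (I → Q)

/-- The indices of the stacks: the control stack and the data stacks. -/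
abbrev Jh (I : Type) (k : ℕ) : Type := Option (I × Fin k)

/-- The symbols of the stacks. -/
@[reducible] def Sh (I Q S : Type) (k : ℕ) : Jh I k → Type
  | none => ℤˣ × St I Q
  | some _ => Option S

instance [Finite I] [Finite Q] [Finite S] : ∀ j, Finite (Sh I Q S k j)
  | none => inferInstanceAs (Finite (ℤˣ × St I Q))
  | some _ => inferInstanceAs (Finite (Option S))

/-- The configurations of the machine. -/
abbrev Y (I Q S : Type) (k : ℕ) : Type := St I Q × ((j : Jh I k) → List (Sh I Q S k j))

/-- Observations. -/
abbrev Oh (I Q S : Type) (k : ℕ) : Type := (j : Jh I k) → Option (Sh I Q S k j)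

/-- The observation. -/
def oh (x : Y I Q S k) : Oh I Q S k := fun j => (x.2 j).head?

/-- The top data symbols of the copy `h`. -/
def toph (o : Oh I Q S k) (h : I) (s : Fin k) : Option S :=
  Option.join (o (some (h, s)) : Option (Option S))

/-- The control symbol. -/
def ctlh (o : Oh I Q S k) : Option (ℤˣ × St I Q) := o none

variable (q0 : Q) (F : Set Q) (δ : Q → A → (Fin k → Option S) → Q × (Fin k → List S))

/-- The new status. -/
def newst (a : I → Option A) (st : St I Q) (o : Oh I Q S k) : St I Q :=
  match st with
  | Sum.inl i => Sum.inl i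
  | Sum.inr σ => Sum.inr fun h => match a h with
    | none => σ h
    | some b => (δ (σ h) b (toph o h)).1

/-- The symbols written on the data stacks. -/
def newlh (a : I → Option A) (st : St I Q) (o : Oh I Q S k) (h : I) (s : Fin k) :
    List (Option S) :=
  match st, a h with
  | Sum.inr σ, some b => ((δ (σ h) b (toph o h)).2 s).map some
  | _, _ => []

/-- Whether the top symbol of a data stack is removed. -/
def newmh (a : I → Option A) (st : St I Q) (o : Oh I Q S k) (h : I) (s : Fin k) : Bool :=
  match st, a h with
  | Sum.inr _, some _ => (toph o h s).isSome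
  | _, _ => false

/-- Stacks from their parts. -/
def stkh (c : List (ℤˣ × St I Q)) (d : I × Fin k → List (Option S)) :
    (j : Jh I k) → List (Sh I Q S k j)
  | none => c
  | some e => d e

/-- Booleans from their parts. -/
def blh (c : Bool) (d : I × Fin k → Bool) : Jh I k → Bool
  | none => c
  | some e => d e

/-- Feeding one letter (or nothing) to every copy of the current level. -/
def fd1 (a : I → Option A) (x : Y I Q S k) : Y I Q S k :=
  repl (newst δ a x.1 (oh x)) (blh false fun e => newmh a x.1 (oh x) e.1 e.2)
    (stkh [] fun e => newlh δ a x.1 (oh x) e.1 e.2) x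

/-- Feeding a list of letters. -/
def fdL (vs : List (I → Option A)) (x : Y I Q S k) : Y I Q S k :=
  vs.foldl (fun x a => fd1 δ a x) x

/-- Starting a new level with the status `closed one`. -/
def psh (one : I) (u : ℤˣ) (x : Y I Q S k) : Y I Q S k :=
  repl (Sum.inl one) (blh false fun _ => false) (stkh [(u, x.1)] fun _ => [none]) x

/-- Returning to the last level. -/
def pp (x : Y I Q S k) : Y I Q S k :=
  repl (match ctlh (oh x) with
    | none => x.1
    | some e => e.2) (blh true fun _ => true) (fun _ => []) x

theorem loc_fd1 (hδ : ∀ q a t s, ((δ q a t).2 s).length ≤ 2) (a : I → Option A) :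
    Loc 2 (fd1 (k := k) δ a) := by
  refine Loc.step (c := 2) (by norm_num) (fun q o =>
    (newst δ a q o, blh false fun e => newmh a q o e.1 e.2,
      stkh [] fun e => newlh δ a q o e.1 e.2)) ?_
  rintro q o (_ | e)
  · change ([] : List (ℤˣ × St I Q)).length ≤ 2
    simp
  · change (newlh δ a q o e.1 e.2).length ≤ 2
    unfold newlh
    split
    · rw [List.length_map]
      exact hδ _ _ _ _
    · simp

theorem loc_psh (one : I) (u : ℤˣ) : Loc 2 (psh (Q := Q) (S := S) (k := k) one u) := by
  refine Loc.step (c := 2) (by norm_num) (fun q _ => (Sum.inl one, blh false fun _ => false,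
    stkh [(u, q)] fun _ => [none])) ?_
  rintro q o (_ | e) <;> simp [stkh]

theorem loc_pp : Loc 2 (pp (I := I) (Q := Q) (S := S) (k := k)) := by
  refine Loc.step (c := 2) (by norm_num) (fun (q : St I Q) (o : Oh I Q S k) => ((match ctlh o with
    | none => q
    | some e => e.2), blh true fun _ => true, (fun _ => []))) ?_
  intro q o j
  simp

theorem loc_fdL (hδ : ∀ q a t s, ((δ q a t).2 s).length ≤ 2) (vs : List (I → Option A)) :
    Loc (2 * vs.length) (fdL (k := k) δ vs) :=
  Loc.foldl (fun a => fd1 δ a) (fun a => loc_fd1 δ hδ a) vs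

/-! ### encoding of levels -/

/-- The symbolic levels: an element of the finite set or words for all copies. -/
abbrev Lv (I A : Type) : Type := I ⊕ (I → List A)

/-- The status of a level. -/
def stt (c : Lv I A) : St I Q :=
  match c with
  | Sum.inl i => Sum.inl i
  | Sum.inr W => Sum.inr fun h => (cg q0 δ (W h)).1

/-- The data of a level. -/
def dat (c : Lv I A) (h : I) (s : Fin k) : List S :=
  match c with
  | Sum.inl _ => []
  | Sum.inr W => (cg q0 δ (W h)).2 s

/-- The data below the current level. -/
def encR (h : I) (s : Fin k) : List (ℤˣ × Lv I A) → List (Option S)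
  | [] => []
  | e :: l => none :: ((dat q0 δ e.2 h s).map some ++ encR h s l)

/-- The data stacks. -/
def encDh (c : Lv I A) (l : List (ℤˣ × Lv I A)) (h : I) (s : Fin k) : List (Option S) :=
  (dat q0 δ c h s).map some ++ encR q0 δ h s l

/-- The control stack. -/
def encCh (l : List (ℤˣ × Lv I A)) : List (ℤˣ × St I Q) := l.map fun e => (e.1, stt q0 δ e.2)

/-- The configuration of a list of levels. -/
def ench (c : Lv I A) (l : List (ℤˣ × Lv I A)) : Y I Q S k :=
  (stt q0 δ c, stkh (encCh q0 δ l) fun e => encDh q0 δ c l e.1 e.2)

theorem Y_ext {x y : Y I Q S k} (h1 : x.1 = y.1) (h2 : x.2 none = y.2 none)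
    (h3 : ∀ h s, x.2 (some (h, s)) = y.2 (some (h, s))) : x = y := by
  refine Prod.ext h1 ?_
  funext j
  rcases j with _ | ⟨h, s⟩
  · exact h2
  · exact h3 h s

theorem encR_join {l : List (ℤˣ × Lv I A)} (d : List S) (h : I) (s : Fin k) :
    (d.map some ++ encR q0 δ h s l).head?.join = d.head? := by
  cases d with
  | nil => cases l <;> simp [encR]
  | cons y d => simp

theorem toph_ench (c : Lv I A) (l : List (ℤˣ × Lv I A)) (h : I) :
    toph (oh (ench (k := k) q0 δ c l)) h = fun s => (dat q0 δ c h s).head? := by
  funext s
  exact encR_join q0 δ (dat q0 δ c h s) h s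

theorem psh_ench (one : I) (u : ℤˣ) (c : Lv I A) (l : List (ℤˣ × Lv I A)) :
    psh one u (ench (k := k) q0 δ c l) = ench q0 δ (Sum.inl one) ((u, c) :: l) := by
  refine Y_ext rfl rfl ?_
  intro h s
  rfl

theorem pp_ench (i : I) (e : ℤˣ × Lv I A) (l : List (ℤˣ × Lv I A)) :
    pp (ench (k := k) q0 δ (Sum.inl i) (e :: l)) = ench q0 δ e.2 l := by
  refine Y_ext rfl rfl ?_
  intro h s
  rfl

theorem fd1_closed (a : I → Option A) (i : I) (l : List (ℤˣ × Lv I A)) :
    fd1 δ a (ench (k := k) q0 δ (Sum.inl i) l) = ench q0 δ (Sum.inl i) l := by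
  refine Y_ext rfl rfl ?_
  intro h s
  rfl

theorem fd1_open (a : I → Option A) (W : I → List A) (l : List (ℤˣ × Lv I A)) :
    fd1 δ a (ench (k := k) q0 δ (Sum.inr W) l) =
      ench q0 δ (Sum.inr fun h => W h ++ (a h).toList) l := by
  refine Y_ext ?_ rfl ?_
  · change newst δ a (stt q0 δ (Sum.inr W)) (oh (ench (k := k) q0 δ (Sum.inr W) l)) =
      stt q0 δ (Sum.inr fun h => W h ++ (a h).toList)
    unfold newst stt
    simp only
    congr 1
    funext h
    cases ha : a h with
    | none => simp
    | some c =>
      simp only [Option.toList_some]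
      rw [cg_snoc, toph_ench]
      rfl
  · intro h s
    change newlh δ a (stt q0 δ (Sum.inr W)) (oh (ench (k := k) q0 δ (Sum.inr W) l)) h s ++
      (if newmh a (stt q0 δ (Sum.inr W)) (oh (ench (k := k) q0 δ (Sum.inr W) l)) h s = true then
        (encDh q0 δ (Sum.inr W) l h s).tail else encDh q0 δ (Sum.inr W) l h s) =
      encDh q0 δ (Sum.inr fun h => W h ++ (a h).toList) l h s
    unfold newlh newmh stt
    cases ha : a h with
    | none => simp [encDh, dat, ha]
    | some c =>
      simp only [toph_ench]
      unfold encDh dat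
      simp only [ha, Option.toList_some]
      rw [cg_snoc]
      have h2 : (pstep δ (cg q0 δ (W h)) c).2 s = (δ (cg q0 δ (W h)).1 c
        (fun s => ((cg q0 δ (W h)).2 s).head?)).2 s ++ ((cg q0 δ (W h)).2 s).tail := rfl
      rw [h2]
      cases (cg q0 δ (W h)).2 s <;> simp

theorem fdL_open (vs : List (I → Option A)) : ∀ (W : I → List A) (l : List (ℤˣ × Lv I A)),
    fdL δ vs (ench (k := k) q0 δ (Sum.inr W) l) =
      ench q0 δ (Sum.inr fun h => W h ++ vs.flatMap (fun a => (a h).toList)) l := by
  induction vs with
  | nil =>
    intro W l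
    simp [fdL]
  | cons a vs ih =>
    intro W l
    have h1 := ih (fun h => W h ++ (a h).toList) l
    unfold fdL at *
    rw [List.foldl_cons, fd1_open, h1]
    simp only [List.append_assoc, List.flatMap_cons]

/-- The letters of words. -/
def vo (L : ℕ) (v : I → List A) : List (I → Option A) :=
  (List.range L).map fun t h => (v h)[t]?

theorem vo_length (L : ℕ) (v : I → List A) : (vo L v).length = L := by simp [vo]

theorem fd_open (L : ℕ) (v : I → List A) (hL : ∀ h, (v h).length ≤ L) (W : I → List A)
    (l : List (ℤˣ × Lv I A)) : fdL δ (vo L v) (ench (k := k) q0 δ (Sum.inr W) l) =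
      ench q0 δ (Sum.inr fun h => W h ++ v h) l := by
  rw [fdL_open]
  congr 2
  funext h
  congr 1
  unfold vo
  rw [List.flatMap_map]
  exact AM.range_flatMap _ L (hL h)

/-! ### compound operations -/

/-- Opening the current level; `rep i` gives the words for the closed level `i`. -/
def opn (L : ℕ) (rep : I → I → List A) (x : Y I Q S k) : Y I Q S k :=
  match x.1 with
  | Sum.inl i => fdL δ (vo L (rep i)) (Sum.inr fun _ => q0, x.2)
  | Sum.inr _ => x

open Classical in
/-- Closing the current level if a copy accepts. -/
noncomputable def cls (L : ℕ) (clean : I → I → List A) (x : Y I Q S k) : Y I Q S k :=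
  match x.1 with
  | Sum.inl _ => x
  | Sum.inr σ => if e : ∃ h, σ h ∈ F then
      ((Sum.inl e.choose, (fdL δ (vo L (clean e.choose)) x).2) : Y I Q S k) else x

/-- Multiplication of the current element by the value of a word. -/
noncomputable def mlt (L : ℕ) (rep clean : I → I → List A) (w : List A) (x : Y I Q S k) :
    Y I Q S k := cls F δ L clean (fdL δ (vo L fun _ => w) (opn q0 δ L rep x))

open Classical in
/-- The action of a power `t ^ u` of the stable letter: `mv v i = some w` if the element `i` lies
in the associated subgroup of `v` and `w` is a word for its image. -/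
noncomputable def stb (L : ℕ) (rep clean : I → I → List A) (one : I) (mv : ℤˣ → I → Option (List A))
    (u : ℤˣ) (x : Y I Q S k) : Y I Q S k :=
  match x.1, ctlh (oh x) with
  | Sum.inl i, some e => if e.1 = -u then
      (match mv e.1 i with
      | some w => mlt q0 F δ L rep clean w (pp x)
      | none => psh one u x) else psh one u x
  | _, _ => psh one u x

theorem loc_opn (hδ : ∀ q a t s, ((δ q a t).2 s).length ≤ 2) (L : ℕ) (rep : I → I → List A) :
    Loc (1 + 2 * L) (opn (k := k) q0 δ L rep) := by
  refine Loc.bind (c := 1 + 2 * L) (O := St I Q) (fun x : Y I Q S k => x.1) ?_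
    (fun o x => match o with
      | Sum.inl i => fdL δ (vo L (rep i)) (Sum.inr fun _ => q0, x.2)
      | Sum.inr _ => x) ?_
  · intro x D _
    rfl
  · rintro (i | σ)
    · have h1 := loc_fdL δ hδ (vo L (rep i))
      rw [vo_length] at h1
      exact (Loc.state 1 (fun _ => (Sum.inr fun _ => q0 : St I Q))).comp h1
    · exact Loc.id _

theorem loc_cls (hδ : ∀ q a t s, ((δ q a t).2 s).length ≤ 2) (L : ℕ) (clean : I → I → List A) :
    Loc (1 + 2 * L) (cls (k := k) F δ L clean) := by
  classical
  refine Loc.bind (c := 1 + 2 * L) (O := St I Q) (fun x : Y I Q S k => x.1) ?_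
    (fun o x => match o with
      | Sum.inl _ => x
      | Sum.inr σ => if e : ∃ h, σ h ∈ F then
          ((Sum.inl e.choose, (fdL δ (vo L (clean e.choose)) x).2) : Y I Q S k) else x) ?_
  · intro x D _
    rfl
  · rintro (i | σ)
    · exact Loc.id _
    · simp only
      split_ifs with e
      · have h1 := loc_fdL δ hδ (vo L (clean e.choose))
        rw [vo_length] at h1
        exact (h1.comp (Loc.state 1 (fun _ => (Sum.inl e.choose : St I Q)))).mono (by omega)
      · exact Loc.id _

theorem loc_mlt (hδ : ∀ q a t s, ((δ q a t).2 s).length ≤ 2) (L : ℕ) (rep clean : I → I → List A)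
    (w : List A) : Loc (2 + 6 * L) (mlt (k := k) q0 F δ L rep clean w) := by
  have h1 := loc_fdL δ hδ (vo L fun _ : I => w)
  rw [vo_length] at h1
  exact (((loc_opn q0 δ hδ L rep).comp h1).comp (loc_cls F δ hδ L clean)).mono (by omega)

theorem oh_appD {c : ℕ} (hc : 1 ≤ c) (x : Y I Q S k) (D : (j : Jh I k) → List (Sh I Q S k j))
    (hx : Deep c x D) : oh (appD x D) = oh x := by
  funext j
  exact head_appD hc x D hx j

theorem loc_stb (hδ : ∀ q a t s, ((δ q a t).2 s).length ≤ 2) (L : ℕ) (rep clean : I → I → List A)
    (one : I) (mv : ℤˣ → I → Option (List A)) (u : ℤˣ) :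
    Loc (4 + 6 * L) (stb (k := k) q0 F δ L rep clean one mv u) := by
  classical
  refine Loc.bind (c := 4 + 6 * L) (O := St I Q × Option (ℤˣ × St I Q))
    (fun x : Y I Q S k => (x.1, ctlh (oh x))) ?_
    (fun o x => match o.1, o.2 with
      | Sum.inl i, some e => if e.1 = -u then
          (match mv e.1 i with
          | some w => mlt q0 F δ L rep clean w (pp x)
          | none => psh one u x) else psh one u x
      | _, _ => psh one u x) ?_
  · intro x D hx
    rw [oh_appD (by omega) x D hx]
    rfl
  · have hp : Loc (4 + 6 * L) (psh (Q := Q) (S := S) (k := k) one u) :=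
      (loc_psh one u).mono (by omega)
    rintro ⟨i | σ, _ | e⟩
    · exact hp
    · simp only
      split_ifs with h
      · cases mv e.1 i with
        | none => exact hp
        | some w => exact ((loc_pp.comp (loc_mlt q0 F δ hδ L rep clean w)).mono (by omega))
      · exact hp
    · exact hp
    · exact hp

end HM

end Pool.Agent.Helper22.EA
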