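import Mathlib
import Pool.Agent.Helper22.EA.HnnM
import Pool.Agent.Helper22.EA.Hnn

/-!
MP_eaa19d_lc (with helper81).  Correctness of the machine for HNN extensions.
-/

set_option autoImplicit false

namespace Pool.Agent.Helper22.EA

open Pool.Agent.Helper81.RT Pool.Agent.Helper81.RT.GPM HNNExtension

namespace HM

variable {I Al Q S : Type} {k : ℕ} (q0 : Q) (F : Set Q)
  (δ : Q → Al → (Fin k → Option S) → Q × (Fin k → List S))
  {G : Type} [Group G] {A B : Subgroup G} (φ : A ≃* B) (ev : Al → G) (el : I → G)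

/-- A level represents an element of the base group. -/
def RS (c : Lv I Al) (g : G) : Prop :=
  match c with
  | Sum.inl i => el i = g
  | Sum.inr W => (∀ h, ((W h).map ev).prod = (el h)⁻¹ * g) ∧ ∀ h, el h ≠ g

/-- The levels represent a stack. -/
def RLs (l : List (ℤˣ × Lv I Al)) (l' : List (ℤˣ × G)) : Prop :=
  List.Forall₂ (fun e e' => e.1 = e'.1 ∧ RS ev el e.2 e'.2) l l'

theorem opn_spec (L : ℕ) (rep : I → I → List Al) (hrL : ∀ i h, (rep i h).length ≤ L)
    (hrep : ∀ i h, ((rep i h).map ev).prod = (el h)⁻¹ * el i) (c : Lv I Al) (g : G)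
    (hc : RS ev el c g) (l : List (ℤˣ × Lv I Al)) :
    ∃ W : I → List Al, opn q0 δ L rep (ench (k := k) q0 δ c l) = ench q0 δ (Sum.inr W) l ∧
      ∀ h, ((W h).map ev).prod = (el h)⁻¹ * g := by
  rcases c with i | W
  · refine ⟨fun h => [] ++ rep i h, ?_, ?_⟩
    · have h1 : ((Sum.inr fun _ => q0, (ench (k := k) q0 δ (Sum.inl i) l).2) : Y I Q S k) =
          ench q0 δ (Sum.inr fun _ => []) l := by
        refine Y_ext rfl rfl ?_
        intro h s
        rfl
      change fdL δ (vo L (rep i))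
        ((Sum.inr fun _ => q0, (ench (k := k) q0 δ (Sum.inl i) l).2) : Y I Q S k) = _
      rw [h1, fd_open q0 δ L (rep i) (hrL i)]
    · intro h
      have hc' : el i = g := hc
      simp [hrep, hc']
  · exact ⟨W, rfl, hc.1⟩

theorem cls_spec (hacc : ∀ w : List Al, ((w.map ev).prod = 1 ↔ (cg q0 δ w).1 ∈ F))
    (htidy : ∀ w : List Al, (w.map ev).prod = 1 → ∀ s, (cg q0 δ w).2 s = [])
    (L : ℕ) (clean : I → I → List Al) (hcL : ∀ i h, (clean i h).length ≤ L)
    (hclean : ∀ i h, ((clean i h).map ev).prod = (el i)⁻¹ * el h) (W : I → List Al) (g : G)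
    (hW : ∀ h, ((W h).map ev).prod = (el h)⁻¹ * g) (l : List (ℤˣ × Lv I Al)) :
    ∃ c : Lv I Al, cls F δ L clean (ench (k := k) q0 δ (Sum.inr W) l) = ench q0 δ c l ∧
      RS ev el c g := by
  have hiff : ∀ h, (cg q0 δ (W h)).1 ∈ F ↔ el h = g := by
    intro h
    rw [← hacc, hW, inv_mul_eq_one]
  by_cases hex : ∃ h, (cg q0 δ (W h)).1 ∈ F
  · have h1 := (hiff _).1 hex.choose_spec
    refine ⟨Sum.inl hex.choose, ?_, h1⟩
    have h2 : cls F δ L clean (ench (k := k) q0 δ (Sum.inr W) l) =
        ((Sum.inl hex.choose, (fdL δ (vo L (clean hex.choose))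
          (ench (k := k) q0 δ (Sum.inr W) l)).2) : Y I Q S k) := by
      unfold cls
      exact dif_pos hex
    rw [h2]
    generalize hex.choose = h0 at *
    rw [fd_open q0 δ L (clean h0) (hcL h0)]
    refine Y_ext rfl rfl ?_
    intro h s
    change ((cg q0 δ (W h ++ clean h0 h)).2 s).map some ++ encR q0 δ h s l =
      [] ++ encR q0 δ h s l
    rw [htidy]
    · rfl
    · rw [List.map_append, List.prod_append, hW, hclean, ← h1]
      group
  · refine ⟨Sum.inr W, ?_, hW, fun h hh => hex ⟨h, (hiff h).2 hh⟩⟩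
    unfold cls
    exact dif_neg hex

theorem mlt_spec (hacc : ∀ w : List Al, ((w.map ev).prod = 1 ↔ (cg q0 δ w).1 ∈ F))
    (htidy : ∀ w : List Al, (w.map ev).prod = 1 → ∀ s, (cg q0 δ w).2 s = [])
    (L : ℕ) (rep : I → I → List Al) (hrL : ∀ i h, (rep i h).length ≤ L)
    (hrep : ∀ i h, ((rep i h).map ev).prod = (el h)⁻¹ * el i)
    (clean : I → I → List Al) (hcL : ∀ i h, (clean i h).length ≤ L)
    (hclean : ∀ i h, ((clean i h).map ev).prod = (el i)⁻¹ * el h)
    (w : List Al) (hw : w.length ≤ L) (c : Lv I Al) (g : G) (hc : RS ev el c g)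
    (l : List (ℤˣ × Lv I Al)) :
    ∃ c' : Lv I Al, mlt q0 F δ L rep clean w (ench (k := k) q0 δ c l) = ench q0 δ c' l ∧
      RS ev el c' (g * (w.map ev).prod) := by
  obtain ⟨W, h1, h2⟩ := opn_spec q0 δ ev el L rep hrL hrep c g hc l
  unfold mlt
  rw [h1, fd_open q0 δ L (fun _ => w) (fun _ => hw)]
  apply cls_spec q0 F δ ev el hacc htidy L clean hcL hclean
  intro h
  rw [List.map_append, List.prod_append, h2, mul_assoc]

theorem stb_spec (hacc : ∀ w : List Al, ((w.map ev).prod = 1 ↔ (cg q0 δ w).1 ∈ F))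
    (htidy : ∀ w : List Al, (w.map ev).prod = 1 → ∀ s, (cg q0 δ w).2 s = [])
    (L : ℕ) (rep : I → I → List Al) (hrL : ∀ i h, (rep i h).length ≤ L)
    (hrep : ∀ i h, ((rep i h).map ev).prod = (el h)⁻¹ * el i)
    (clean : I → I → List Al) (hcL : ∀ i h, (clean i h).length ≤ L)
    (hclean : ∀ i h, ((clean i h).map ev).prod = (el i)⁻¹ * el h)
    (one : I) (hone : el one = 1) (mv : ℤˣ → I → Option (List Al))
    (hm1 : ∀ v i, mv v i = none → el i ∉ toSubgroup A B v)
    (hm2 : ∀ v i w, mv v i = some w → w.length ≤ L ∧ ∃ h : el i ∈ toSubgroup A B v,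
      (w.map ev).prod = (toSubgroupEquiv φ v ⟨el i, h⟩ : G))
    (hsur : ∀ v, ∀ g ∈ toSubgroup A B v, ∃ i, el i = g) (u : ℤˣ)
    (c : Lv I Al) (g : G) (hc : RS ev el c g) (l : List (ℤˣ × Lv I Al)) (l' : List (ℤˣ × G))
    (hl : RLs ev el l l') :
    ∃ c1 l1, stb q0 F δ L rep clean one mv u (ench (k := k) q0 δ c l) = ench q0 δ c1 l1 ∧
      RS ev el c1 (tact φ u (g, l')).1 ∧ RLs ev el l1 (tact φ u (g, l')).2 := by
  have hpush : ∃ c1 l1, psh one u (ench (k := k) q0 δ c l) = ench q0 δ c1 l1 ∧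
      RS ev el c1 (1 : G) ∧ RLs ev el l1 ((u, g) :: l') :=
    ⟨Sum.inl one, (u, c) :: l, psh_ench q0 δ one u c l, hone, List.Forall₂.cons ⟨rfl, hc⟩ hl⟩
  cases hl with
  | nil =>
    have h1 : stb q0 F δ L rep clean one mv u (ench (k := k) q0 δ c []) =
        psh one u (ench (k := k) q0 δ c []) := by
      rcases c with i | W <;> rfl
    rw [h1]
    exact hpush
  | @cons e e' l l' he hl =>
    obtain ⟨v, g'⟩ := e'
    obtain ⟨v', c'⟩ := e
    obtain ⟨hv, he⟩ := he
    simp only at hv he
    subst hv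
    rcases c with i | W
    · have hg : el i = g := hc
      subst hg
      have h1 : stb q0 F δ L rep clean one mv u (ench (k := k) q0 δ (Sum.inl i) ((v', c') :: l)) =
          if v' = -u then (match mv v' i with
            | some w => mlt q0 F δ L rep clean w
                (pp (ench (k := k) q0 δ (Sum.inl i) ((v', c') :: l)))
            | none => psh one u (ench (k := k) q0 δ (Sum.inl i) ((v', c') :: l)))
          else psh one u (ench (k := k) q0 δ (Sum.inl i) ((v', c') :: l)) := by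
        unfold stb
        rfl
      rw [h1]
      by_cases hvu : v' = -u
      · rw [if_pos hvu]
        cases hmv : mv v' i with
        | none =>
          have h2 := hm1 v' i hmv
          have h3 : tact φ u (el i, (v', g') :: l') = (1, (u, el i) :: (v', g') :: l') := by
            unfold tact
            exact dif_neg (fun h => h2 h.2)
          rw [h3]
          exact hpush
        | some w =>
          obtain ⟨hwL, h2, h3⟩ := hm2 v' i w hmv
          have h4 : tact φ u (el i, (v', g') :: l') =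
              (g' * (toSubgroupEquiv φ v' ⟨el i, h2⟩ : G), l') := by
            unfold tact
            exact dif_pos ⟨hvu, h2⟩
          rw [h4]
          simp only
          rw [pp_ench, ← h3]
          obtain ⟨c1, h5, h6⟩ := mlt_spec q0 F δ ev el hacc htidy L rep hrL hrep clean hcL hclean
            w hwL c' g' he l
          exact ⟨c1, l, h5, h6, hl⟩
      · rw [if_neg hvu]
        have h3 : tact φ u (el i, (v', g') :: l') = (1, (u, el i) :: (v', g') :: l') := by
          unfold tact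
          exact dif_neg (fun h => hvu h.1)
        rw [h3]
        exact hpush
    · have h1 : stb q0 F δ L rep clean one mv u (ench (k := k) q0 δ (Sum.inr W) ((v', c') :: l)) =
          psh one u (ench (k := k) q0 δ (Sum.inr W) ((v', c') :: l)) := rfl
      have h3 : tact φ u (g, (v', g') :: l') = (1, (u, g) :: (v', g') :: l') := by
        unfold tact
        refine dif_neg ?_
        rintro ⟨-, h⟩
        obtain ⟨i, hi⟩ := hsur v' g h
        exact hc.2 i hi
      rw [h1, h3]
      exact hpush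

/-- The action of a letter. -/
noncomputable def TH (L : ℕ) (rep clean : I → I → List Al) (one : I)
    (mv : ℤˣ → I → Option (List Al)) (a : Al ⊕ ℤˣ) (x : Y I Q S k) : Y I Q S k :=
  match a with
  | Sum.inl a => mlt q0 F δ L rep clean [a] x
  | Sum.inr u => stb q0 F δ L rep clean one mv u x

theorem loc_TH (hδ : ∀ q a t s, ((δ q a t).2 s).length ≤ 2) (L : ℕ) (rep clean : I → I → List Al)
    (one : I) (mv : ℤˣ → I → Option (List Al)) (a : Al ⊕ ℤˣ) :
    Loc (4 + 6 * L) (TH (k := k) q0 F δ L rep clean one mv a) := by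
  rcases a with a | u
  · exact (loc_mlt q0 F δ hδ L rep clean [a]).mono (by omega)
  · exact loc_stb q0 F δ hδ L rep clean one mv u

theorem runh_spec (hacc : ∀ w : List Al, ((w.map ev).prod = 1 ↔ (cg q0 δ w).1 ∈ F))
    (htidy : ∀ w : List Al, (w.map ev).prod = 1 → ∀ s, (cg q0 δ w).2 s = [])
    (L : ℕ) (hL1 : 1 ≤ L) (rep : I → I → List Al) (hrL : ∀ i h, (rep i h).length ≤ L)
    (hrep : ∀ i h, ((rep i h).map ev).prod = (el h)⁻¹ * el i)
    (clean : I → I → List Al) (hcL : ∀ i h, (clean i h).length ≤ L)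
    (hclean : ∀ i h, ((clean i h).map ev).prod = (el i)⁻¹ * el h)
    (one : I) (hone : el one = 1) (mv : ℤˣ → I → Option (List Al))
    (hm1 : ∀ v i, mv v i = none → el i ∉ toSubgroup A B v)
    (hm2 : ∀ v i w, mv v i = some w → w.length ≤ L ∧ ∃ h : el i ∈ toSubgroup A B v,
      (w.map ev).prod = (toSubgroupEquiv φ v ⟨el i, h⟩ : G))
    (hsur : ∀ v, ∀ g ∈ toSubgroup A B v, ∃ i, el i = g) (w : List (Al ⊕ ℤˣ)) :
    ∀ (c : Lv I Al) (d : HCfg G) (l : List (ℤˣ × Lv I Al)), RS ev el c d.1 → RLs ev el l d.2 →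
    ∃ c1 l1, w.foldl (fun x a => TH q0 F δ L rep clean one mv a x) (ench (k := k) q0 δ c l) =
        ench q0 δ c1 l1 ∧
      RS ev el c1 ((w.map (Sum.map ev _root_.id)).foldl (fun c x => hact φ x c) d).1 ∧
      RLs ev el l1 ((w.map (Sum.map ev _root_.id)).foldl (fun c x => hact φ x c) d).2 := by
  induction w with
  | nil => intro c d l hc hl; exact ⟨c, l, rfl, hc, hl⟩
  | cons a w ih =>
    intro c d l hc hl
    rw [List.foldl_cons, List.map_cons, List.foldl_cons]
    rcases a with a | u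
    · obtain ⟨c1, h1, h2⟩ := mlt_spec q0 F δ ev el hacc htidy L rep hrL hrep clean hcL hclean
        [a] (by simpa using hL1) c d.1 hc l
      have h3 : TH q0 F δ L rep clean one mv (Sum.inl a) (ench (k := k) q0 δ c l) =
          ench q0 δ c1 l := h1
      rw [h3]
      have h4 : hact φ (Sum.map ev _root_.id (Sum.inl a)) d = (d.1 * ev a, d.2) := rfl
      rw [h4]
      refine ih c1 (d.1 * ev a, d.2) l ?_ hl
      simpa using h2
    · obtain ⟨c1, l1, h1, h2, h3⟩ := stb_spec q0 F δ φ ev el hacc htidy L rep hrL hrep clean hcL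
        hclean one hone mv hm1 hm2 hsur u c d.1 hc l d.2 hl
      have h4 : TH q0 F δ L rep clean one mv (Sum.inr u) (ench (k := k) q0 δ c l) =
          ench q0 δ c1 l1 := h1
      rw [h4]
      exact ih c1 (tact φ u d) l1 h2 h3

end HM

end Pool.Agent.Helper22.EA
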