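import Mathlib
import Pool.Agent.Helper22.EA.HnnN

/-!
MP_eaa19d_lc (with helper81).  Quotients of tidy real-time groups by finite normal subgroups are
tidy real-time groups.
-/

set_option autoImplicit false

namespace Pool.Agent.Helper22.EA

open Pool.Agent.Helper81.RT Pool.Agent.Helper81.RT.GPM

open HM in
/-- Quotients of tidy real-time groups by finite normal subgroups are tidy real-time groups. -/
theorem tidy_quotient {G : Type} [Group G] (N : Subgroup G) [N.Normal] [Finite N]
    (hG : TidyGroup G) : TidyGroup (G ⧸ N) := by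
  classical
  obtain ⟨k, α, hα, f, hf, n, m, q0, F, δ, hδ, hw⟩ := hG
  let I : Type := N
  let el : I → G := fun i => i.1
  let ev : (α ⊕ α) → G := Sum.elim f (fun a => (f a)⁻¹)
  have hacc : ∀ w : List (α ⊕ α), ((w.map ev).prod = 1 ↔ (cg q0 δ w).1 ∈ F) :=
    fun w => (hw w).1
  have htidy : ∀ w : List (α ⊕ α), (w.map ev).prod = 1 → ∀ s, (cg q0 δ w).2 s = [] :=
    fun w => (hw w).2
  choose word hword using exists_word_of_closure f hf
  let rep : I → I → List (α ⊕ α) := fun i h => word ((el h)⁻¹ * el i)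
  let clean : I → I → List (α ⊕ α) := fun i h => word ((el i)⁻¹ * el h)
  let one : I := (1 : N)
  obtain ⟨L, hL⟩ : ∃ L, ∀ x : I × I, (rep x.1 x.2).length ≤ L ∧
      (clean x.1 x.2).length ≤ L ∧ 1 ≤ L := by
    obtain ⟨L, hL⟩ := (Set.finite_range (fun x : I × I =>
      (rep x.1 x.2).length + (clean x.1 x.2).length)).bddAbove
    refine ⟨L + 1, fun x => ?_⟩
    have := hL ⟨x, rfl⟩
    simp only at this
    omega
  have hL1 : 1 ≤ L := (hL (one, one)).2.2
  have hrL : ∀ i h, (rep i h).length ≤ L := fun i h => (hL (i, h)).1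
  have hcL : ∀ i h, (clean i h).length ≤ L := fun i h => (hL (i, h)).2.1
  have hrep : ∀ i h, ((rep i h).map ev).prod = (el h)⁻¹ * el i := fun i h => hword _
  have hclean : ∀ i h, ((clean i h).map ev).prod = (el i)⁻¹ * el h := fun i h => hword _
  have hinit : ench q0 δ (Sum.inl one : Lv I (α ⊕ α)) [] =
      ((Sum.inl one, fun _ => []) : Y I (Fin n) (Fin m) k) := by
    refine Y_ext rfl rfl ?_
    intro h s
    rfl
  have hrun : ∀ w : List (α ⊕ α), ∃ c : Lv I (α ⊕ α),
      w.foldl (fun x a => mlt q0 F δ L rep clean [a] x)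
        ((Sum.inl one, fun _ => []) : Y I (Fin n) (Fin m) k) = ench q0 δ c [] ∧
      RS ev el c (w.map ev).prod := by
    intro w
    induction w using List.reverseRecOn with
    | nil => exact ⟨Sum.inl one, hinit.symm, rfl⟩
    | append_singleton w a ih =>
      obtain ⟨c, h1, h2⟩ := ih
      obtain ⟨c', h3, h4⟩ := mlt_spec q0 F δ ev el hacc htidy L rep hrL hrep clean hcL hclean
        [a] (by simpa using hL1) c _ h2 []
      refine ⟨c', ?_, ?_⟩
      · rw [List.foldl_append, h1]
        exact h3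
      · rw [List.map_append, List.prod_append]
        exact h4
  let gen : α → G ⧸ N := fun x => QuotientGroup.mk' N (f x)
  have hval : ∀ w : List (α ⊕ α), (w.map (Sum.elim gen (fun x => (gen x)⁻¹))).prod =
      QuotientGroup.mk' N ((w.map ev).prod) := by
    intro w
    rw [map_list_prod, List.map_map]
    congr 1
    refine List.map_congr_left ?_
    rintro (x | x) _
    · rfl
    · simp [gen, ev]
  have hmem : ∀ w : List (α ⊕ α), (w.map (Sum.elim gen (fun x => (gen x)⁻¹))).prod = 1 ↔
      (w.map ev).prod ∈ N := by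
    intro w
    rw [hval]
    exact QuotientGroup.eq_one_iff _
  have hcl : ∀ (c : Lv I (α ⊕ α)) (g : G), RS ev el c g →
      ((∃ i, c = Sum.inl i) ↔ g ∈ N) := by
    rintro (i | W) g h
    · have h1 : el i = g := h
      subst h1
      exact ⟨fun _ => i.2, fun _ => ⟨i, rfl⟩⟩
    · constructor
      · rintro ⟨i, hi⟩
        exact absurd hi (by simp)
      · intro hg
        exact absurd rfl (h.2 ⟨g, hg⟩)
  have hst : ∀ c : Lv I (α ⊕ α), stt q0 δ c ∈ Set.range (Sum.inl : I → St I (Fin n)) ↔
      ∃ i, c = Sum.inl i := by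
    rintro (i | W)
    · exact ⟨fun _ => ⟨i, rfl⟩, fun _ => ⟨i, rfl⟩⟩
    · constructor
      · rintro ⟨i, hi⟩
        have h3 : (Sum.inl i : St I (Fin n)) = Sum.inr (fun h => (cg q0 δ (W h)).1) := hi
        exact absurd h3 (by simp)
      · rintro ⟨i, hi⟩
        exact absurd hi (by simp)
  obtain ⟨K, hK⟩ := tidy_of_loc (A := α ⊕ α) (c := 2 + 6 * L) (by omega)
    {w | (w.map (Sum.elim gen (fun x => (gen x)⁻¹))).prod = 1}
    (Sum.inl one : St I (Fin n)) (Set.range Sum.inl) (none : Jh I k)
    (fun a => mlt q0 F δ L rep clean [a])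
    (fun a => loc_mlt q0 F δ hδ L rep clean [a]) (by
      intro w
      obtain ⟨c, h1, h2⟩ := hrun w
      rw [Set.mem_ofPred_eq, hmem, h1, ← hcl c _ h2]
      have h7 : (ench q0 δ c [] : Y I (Fin n) (Fin m) k).1 = stt q0 δ c := rfl
      have h8 : (ench q0 δ c [] : Y I (Fin n) (Fin m) k).2 (none : Jh I k) = [] := rfl
      rw [h7, hst]
      simp [h8]) (by
      intro w hw
      obtain ⟨c, h1, h2⟩ := hrun w
      rw [Set.mem_ofPred_eq, hmem] at hw
      obtain ⟨i, rfl⟩ := (hcl c _ h2).2 hw
      rw [h1]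
      intro j
      rcases j with _ | ⟨h, s⟩ <;> rfl)
  refine ⟨K, α, hα, gen, ?_, hK⟩
  have h9 : Set.range gen = (QuotientGroup.mk' N) '' Set.range f := by
    rw [← Set.range_comp]
    rfl
  rw [h9, ← MonoidHom.map_closure, hf, ← MonoidHom.range_eq_map]
  exact MonoidHom.range_eq_top.2 (QuotientGroup.mk'_surjective N)

end Pool.Agent.Helper22.EA
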