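import Mathlib
import Pool.Agent.Helper22.EA.Pile

/-!
MP_eaa19d_lc (with helper81).  Universal property of graph products, generation, and the free
product of two graph products as the graph product of the disjoint union of the graphs.
-/

set_option autoImplicit false

namespace Pool.Agent.Helper22.EA

variable {V : Type} {Gr : SimpleGraph V} {G : V → Type} [∀ v, Group (G v)]

/-- The universal property of graph products. -/
def GraphProduct.lift {K : Type} [Monoid K] (φ : ∀ v, G v →* K)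
    (h : ∀ (u v : V) (g : G u) (k : G v), Gr.Adj u v → φ u g * φ v k = φ v k * φ u g) :
    GraphProduct Gr G →* K :=
  QuotientGroup.lift (Subgroup.normalClosure (commRels Gr G)) (Monoid.CoprodI.lift φ) (by
    apply Subgroup.normalClosure_le_normal
    rintro x ⟨u, v, g, k, huv, rfl⟩
    rw [SetLike.mem_coe, MonoidHom.mem_ker, ← map_inv, ← map_inv]
    simp only [map_mul, Monoid.CoprodI.lift_of]
    rw [h u v g k huv, mul_assoc (φ v k), ← map_mul, mul_inv_cancel, map_one, mul_one, ← map_mul,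
      mul_inv_cancel, map_one])

theorem GraphProduct.lift_of {K : Type} [Monoid K] (φ : ∀ v, G v →* K)
    (h : ∀ (u v : V) (g : G u) (k : G v), Gr.Adj u v → φ u g * φ v k = φ v k * φ u g)
    (v : V) (g : G v) : GraphProduct.lift φ h (GraphProduct.of Gr G v g) = φ v g := by
  change QuotientGroup.lift _ (Monoid.CoprodI.lift φ) _
    (QuotientGroup.mk' _ (Monoid.CoprodI.of g)) = _
  rw [QuotientGroup.mk'_apply, QuotientGroup.lift_mk, Monoid.CoprodI.lift_of]

theorem GraphProduct.hom_ext {K : Type} [Monoid K] {f f' : GraphProduct Gr G →* K}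
    (h : ∀ (v : V) (g : G v), f (GraphProduct.of Gr G v g) = f' (GraphProduct.of Gr G v g)) :
    f = f' := by
  have h1 : f.comp (QuotientGroup.mk' (Subgroup.normalClosure (commRels Gr G))) =
      f'.comp (QuotientGroup.mk' (Subgroup.normalClosure (commRels Gr G))) :=
    Monoid.CoprodI.ext_hom _ _ fun v => MonoidHom.ext fun g => h v g
  refine MonoidHom.ext fun x => ?_
  obtain ⟨y, rfl⟩ := QuotientGroup.mk'_surjective _ x
  exact DFunLike.congr_fun h1 y

theorem GraphProduct.of_comm {u v : V} (h : Gr.Adj u v) (g : G u) (a : G v) :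
    GraphProduct.of Gr G u g * GraphProduct.of Gr G v a =
      GraphProduct.of Gr G v a * GraphProduct.of Gr G u g :=
  Pool.Agent.Helper22.EA.of_comm h g a

/-- The graph product is generated by the vertex groups. -/
theorem GraphProduct.iSup_range : ⨆ v, (GraphProduct.of Gr G v).range = ⊤ := by
  have h : ⨆ v, (Monoid.CoprodI.of : G v →* Monoid.CoprodI G).range = ⊤ := by
    rw [← Monoid.CoprodI.range_eq_iSup G (fun v => (Monoid.CoprodI.of : G v →* Monoid.CoprodI G))]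
    have h1 : Monoid.CoprodI.lift (fun v => (Monoid.CoprodI.of : G v →* Monoid.CoprodI G)) =
        MonoidHom.id _ := Monoid.CoprodI.ext_hom _ _ fun v => MonoidHom.ext fun g => by simp
    rw [h1]
    exact MonoidHom.range_eq_top.2 Function.surjective_id
  rw [eq_top_iff]
  intro x _
  obtain ⟨y, rfl⟩ := QuotientGroup.mk'_surjective (Subgroup.normalClosure (commRels Gr G)) x
  have hy : y ∈ (⨆ v, (Monoid.CoprodI.of : G v →* Monoid.CoprodI G).range) := by
    rw [h]; trivial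
  have h2 : (⨆ v, (Monoid.CoprodI.of : G v →* Monoid.CoprodI G).range) ≤
      (⨆ v, (GraphProduct.of Gr G v).range).comap
        (QuotientGroup.mk' (Subgroup.normalClosure (commRels Gr G))) := by
    refine iSup_le fun v => ?_
    rintro z ⟨g, rfl⟩
    exact Subgroup.mem_iSup_of_mem v ⟨g, rfl⟩
  exact h2 hy

/-- Generating families of the vertex groups give a generating family of the graph product. -/
theorem GraphProduct.closure_range {α : V → Type} (f : ∀ v, α v → G v)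
    (hf : ∀ v, Subgroup.closure (Set.range (f v)) = ⊤) :
    Subgroup.closure (Set.range fun e : Σ v, α v => GraphProduct.of Gr G e.1 (f e.1 e.2)) = ⊤ := by
  rw [eq_top_iff, ← GraphProduct.iSup_range (Gr := Gr) (G := G)]
  refine iSup_le fun v => ?_
  rw [MonoidHom.range_eq_map, ← hf v, MonoidHom.map_closure, Subgroup.closure_le]
  rintro _ ⟨_, ⟨a, rfl⟩, rfl⟩
  exact Subgroup.subset_closure ⟨⟨v, a⟩, rfl⟩

section coprod

variable {V₁ V₂ : Type} (Gr₁ : SimpleGraph V₁) (Gr₂ : SimpleGraph V₂) (G₁ : V₁ → Type)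
  (G₂ : V₂ → Type) [∀ v, Group (G₁ v)] [∀ v, Group (G₂ v)]

instance sumGroup : ∀ v : V₁ ⊕ V₂, Group (Sum.elim G₁ G₂ v)
  | Sum.inl v => inferInstanceAs (Group (G₁ v))
  | Sum.inr v => inferInstanceAs (Group (G₂ v))

/-- The vertex groups of the disjoint union in the free product. -/
def sumHom : ∀ v : V₁ ⊕ V₂, Sum.elim G₁ G₂ v →*
    Monoid.Coprod (GraphProduct Gr₁ G₁) (GraphProduct Gr₂ G₂)
  | Sum.inl v => Monoid.Coprod.inl.comp (GraphProduct.of Gr₁ G₁ v)
  | Sum.inr v => Monoid.Coprod.inr.comp (GraphProduct.of Gr₂ G₂ v)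

/-- The free product of two graph products is the graph product of the disjoint union. -/
theorem exists_coprod_equiv :
    ∃ e : Monoid.Coprod (GraphProduct Gr₁ G₁) (GraphProduct Gr₂ G₂) ≃*
      GraphProduct (Gr₁ ⊕g Gr₂) (Sum.elim G₁ G₂),
      (∀ (v : V₁) (g : G₁ v), e (Monoid.Coprod.inl (GraphProduct.of Gr₁ G₁ v g)) =
        GraphProduct.of (Gr₁ ⊕g Gr₂) (Sum.elim G₁ G₂) (Sum.inl v) g) ∧
      (∀ (v : V₂) (g : G₂ v), e (Monoid.Coprod.inr (GraphProduct.of Gr₂ G₂ v g)) =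
        GraphProduct.of (Gr₁ ⊕g Gr₂) (Sum.elim G₁ G₂) (Sum.inr v) g) := by
  have c1 : ∀ (u v : V₁) (g : G₁ u) (k : G₁ v), Gr₁.Adj u v →
      (GraphProduct.of (Gr₁ ⊕g Gr₂) (Sum.elim G₁ G₂) (Sum.inl u) : G₁ u →* _) g *
        (GraphProduct.of (Gr₁ ⊕g Gr₂) (Sum.elim G₁ G₂) (Sum.inl v) : G₁ v →* _) k =
      (GraphProduct.of (Gr₁ ⊕g Gr₂) (Sum.elim G₁ G₂) (Sum.inl v) : G₁ v →* _) k *
        (GraphProduct.of (Gr₁ ⊕g Gr₂) (Sum.elim G₁ G₂) (Sum.inl u) : G₁ u →* _) g :=
    fun u v g k h => Pool.Agent.Helper22.EA.of_comm (Gr := Gr₁ ⊕g Gr₂)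
      (G := Sum.elim G₁ G₂) (u := Sum.inl u) (v := Sum.inl v) (by simpa using h) g k
  have c2 : ∀ (u v : V₂) (g : G₂ u) (k : G₂ v), Gr₂.Adj u v →
      (GraphProduct.of (Gr₁ ⊕g Gr₂) (Sum.elim G₁ G₂) (Sum.inr u) : G₂ u →* _) g *
        (GraphProduct.of (Gr₁ ⊕g Gr₂) (Sum.elim G₁ G₂) (Sum.inr v) : G₂ v →* _) k =
      (GraphProduct.of (Gr₁ ⊕g Gr₂) (Sum.elim G₁ G₂) (Sum.inr v) : G₂ v →* _) k *
        (GraphProduct.of (Gr₁ ⊕g Gr₂) (Sum.elim G₁ G₂) (Sum.inr u) : G₂ u →* _) g :=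
    fun u v g k h => Pool.Agent.Helper22.EA.of_comm (Gr := Gr₁ ⊕g Gr₂)
      (G := Sum.elim G₁ G₂) (u := Sum.inr u) (v := Sum.inr v) (by simpa using h) g k
  let F : Monoid.Coprod (GraphProduct Gr₁ G₁) (GraphProduct Gr₂ G₂) →*
      GraphProduct (Gr₁ ⊕g Gr₂) (Sum.elim G₁ G₂) :=
    Monoid.Coprod.lift
      (GraphProduct.lift (fun v => (GraphProduct.of (Gr₁ ⊕g Gr₂) (Sum.elim G₁ G₂) (Sum.inl v)))
        c1)
      (GraphProduct.lift (fun v => (GraphProduct.of (Gr₁ ⊕g Gr₂) (Sum.elim G₁ G₂) (Sum.inr v)))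
        c2)
  let E : GraphProduct (Gr₁ ⊕g Gr₂) (Sum.elim G₁ G₂) →*
      Monoid.Coprod (GraphProduct Gr₁ G₁) (GraphProduct Gr₂ G₂) :=
    GraphProduct.lift (sumHom Gr₁ Gr₂ G₁ G₂) (by
      rintro (u | u) (v | v) g k h
      · have h1 := congrArg (Monoid.Coprod.inl (N := GraphProduct Gr₂ G₂))
          (Pool.Agent.Helper22.EA.of_comm (Gr := Gr₁) (G := G₁) (u := u) (v := v)
            (by simpa using h) g k)
        rw [map_mul, map_mul] at h1
        exact h1
      · exact absurd h (by simp)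
      · exact absurd h (by simp)
      · have h1 := congrArg (Monoid.Coprod.inr (M := GraphProduct Gr₁ G₁))
          (Pool.Agent.Helper22.EA.of_comm (Gr := Gr₂) (G := G₂) (u := u) (v := v)
            (by simpa using h) g k)
        rw [map_mul, map_mul] at h1
        exact h1)
  have hF1 : ∀ (v : V₁) (g : G₁ v), F (Monoid.Coprod.inl (GraphProduct.of Gr₁ G₁ v g)) =
      GraphProduct.of (Gr₁ ⊕g Gr₂) (Sum.elim G₁ G₂) (Sum.inl v) g := by
    intro v g
    exact GraphProduct.lift_of (Gr := Gr₁) (G := G₁)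
      (fun v => (GraphProduct.of (Gr₁ ⊕g Gr₂) (Sum.elim G₁ G₂) (Sum.inl v))) c1 v g
  have hF2 : ∀ (v : V₂) (g : G₂ v), F (Monoid.Coprod.inr (GraphProduct.of Gr₂ G₂ v g)) =
      GraphProduct.of (Gr₁ ⊕g Gr₂) (Sum.elim G₁ G₂) (Sum.inr v) g := by
    intro v g
    exact GraphProduct.lift_of (Gr := Gr₂) (G := G₂)
      (fun v => (GraphProduct.of (Gr₁ ⊕g Gr₂) (Sum.elim G₁ G₂) (Sum.inr v))) c2 v g
  have hE1 : ∀ (v : V₁) (g : G₁ v),
      E (GraphProduct.of (Gr₁ ⊕g Gr₂) (Sum.elim G₁ G₂) (Sum.inl v) g) =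
        Monoid.Coprod.inl (GraphProduct.of Gr₁ G₁ v g) := by
    intro v g
    exact GraphProduct.lift_of (sumHom Gr₁ Gr₂ G₁ G₂) _ (Sum.inl v) g
  have hE2 : ∀ (v : V₂) (g : G₂ v),
      E (GraphProduct.of (Gr₁ ⊕g Gr₂) (Sum.elim G₁ G₂) (Sum.inr v) g) =
        Monoid.Coprod.inr (GraphProduct.of Gr₂ G₂ v g) := by
    intro v g
    exact GraphProduct.lift_of (sumHom Gr₁ Gr₂ G₁ G₂) _ (Sum.inr v) g
  have hEF : E.comp F = MonoidHom.id _ := by
    refine Monoid.Coprod.hom_ext (GraphProduct.hom_ext fun v g => ?_)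
      (GraphProduct.hom_ext fun v g => ?_)
    · change E (F (Monoid.Coprod.inl (GraphProduct.of Gr₁ G₁ v g))) = _
      rw [hF1, hE1]
      rfl
    · change E (F (Monoid.Coprod.inr (GraphProduct.of Gr₂ G₂ v g))) = _
      rw [hF2, hE2]
      rfl
  have hFE : F.comp E = MonoidHom.id _ := by
    refine GraphProduct.hom_ext ?_
    rintro (v | v) g
    · rw [MonoidHom.comp_apply, hE1 v g, hF1]
      rfl
    · rw [MonoidHom.comp_apply, hE2 v g, hF2]
      rfl
  exact ⟨MonoidHom.toMulEquiv F E hEF hFE, hF1, hF2⟩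

end coprod

end Pool.Agent.Helper22.EA
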