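import Mathlib
import Pool.Agent.Helper22.EA.Fin

/-!
MP_eaa19d_lc (one work tape, with helper81).  If the elements of a group are lamp configurations
with a cursor and every letter acts on the right by an instruction, then the word problem is
accepted in real time by a machine with one work tape.
-/

namespace Pool.Helper22.EA

theorem ldel_move (q : LSt) (k : Instr) (y : LSy) : |(ldel q k y).2.2| ≤ 1 := by
  cases k <;> simp [ldel]

theorem foldl_ostep_comp {Q S A B : Type} (δ : Q → B → S → Q × S × ℤ) (g : A → B) (w : List A) :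
    ∀ c : Q × (ℤ → S) × ℤ,
      w.foldl (ostep fun q a s => δ q (g a) s) c = (w.map g).foldl (ostep δ) c := by
  induction w with
  | nil => intro c; rfl
  | cons a w ih => intro c; exact ih _

/-- The word problem of a lamp group, in the format of the problem, with one work tape. -/
theorem exists_machine_of_config {G A : Type} [Group G] (cf : G → (ℤ → Bool) × ℤ)
    (h1 : ∀ g, cf g = ((fun _ => false), 0) ↔ g = 1) (x : A → G) (k : A → Instr)
    (hx : ∀ g a, cf (g * x a) = cstep (cf g) (k a)) :
    ∃ (n m : ℕ) (q0 : Fin n) (F : Set (Fin n))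
      (δ : Fin n → A → (Fin 1 → Fin (m + 1)) → Fin n × (Fin 1 → Fin (m + 1)) × (Fin 1 → ℤ)),
      (∀ q a r i, |(δ q a r).2.2 i| ≤ 1) ∧
      ∀ w : List A, w ∈ {w : List A | (w.map x).prod = 1} ↔
        (w.foldl (fstep δ) (q0, fun _ _ => 0, fun _ => 0)).1 ∈ F := by
  obtain ⟨n, m, q0, F, δ, hδ, hF⟩ := exists_fin (A := A) linit lblank lacc
    (fun q a s => ldel q (k a) s) (fun q a s => ldel_move q (k a) s)
  refine ⟨n, m, q0, F, δ, hδ, fun w => ?_⟩
  rw [← hF w, foldl_ostep_comp ldel k w, lamp_machine, Set.mem_ofPred_eq, ← h1]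
  have key : ∀ (w : List A) (g : G), cf (g * (w.map x).prod) = (w.map k).foldl cstep (cf g) := by
    intro w
    induction w with
    | nil => intro g; simp
    | cons a w ih =>
      intro g
      rw [List.map_cons, List.prod_cons, ← mul_assoc, ih, hx]
      rfl
  have h2 := key w 1
  rw [one_mul, (h1 1).2 rfl] at h2
  rw [h2]

end Pool.Helper22.EA
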