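import Mathlib
import Pool.Agent.Helper22.EA.HnnN

/-!
MP_eaa19d_lc (with helper81).  HNN extensions of tidy real-time groups with finite associated
subgroups are tidy real-time groups.
-/

set_option autoImplicit false

namespace Pool.Agent.Helper22.EA

open Pool.Agent.Helper81.RT Pool.Agent.Helper81.RT.GPM HNNExtension

theorem closure_hnn {G α : Type} [Group G] {A B : Subgroup G} (φ : A ≃* B) (f : α → G)
    (hf : Subgroup.closure (Set.range f) = ⊤) :
    Subgroup.closure (Set.range (Sum.elim (fun x : α => (HNNExtension.of (f x) :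
      HNNExtension G A B φ)) (fun _ : Unit => t))) = ⊤ := by
  rw [eq_top_iff]
  intro x _
  induction x using HNNExtension.induction_on with
  | of g =>
    have hg : g ∈ Subgroup.closure (Set.range f) := by rw [hf]; trivial
    have h2 := Subgroup.mem_map_of_mem (HNNExtension.of : G →* HNNExtension G A B φ) hg
    rw [MonoidHom.map_closure] at h2
    refine Subgroup.closure_mono ?_ h2
    rintro z ⟨_, ⟨a, rfl⟩, rfl⟩
    exact ⟨Sum.inl a, rfl⟩
  | t => exact Subgroup.subset_closure ⟨Sum.inr (), rfl⟩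
  | mul x y hx hy => exact mul_mem (hx trivial) (hy trivial)
  | inv x hx => exact inv_mem (hx trivial)

open HM in
/-- HNN extensions of tidy real-time groups with finite associated subgroups are tidy real-time
groups. -/
theorem tidy_hnn {G : Type} [Group G] {A B : Subgroup G} [Finite A] (φ : A ≃* B)
    (hG : TidyGroup G) : TidyGroup (HNNExtension G A B φ) := by
  classical
  obtain ⟨k, α, hα, f, hf, n, m, q0, F, δ, hδ, hw⟩ := hG
  have hB : Finite B := Finite.of_equiv A φ.toEquiv
  let I : Type := ((A : Set G) ∪ (B : Set G) : Set G)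
  have hI : Finite I := by
    have h1 : (A : Set G).Finite := Set.toFinite _
    have h2 : (B : Set G).Finite := Set.toFinite _
    exact (h1.union h2).to_subtype
  let el : I → G := fun i => i.1
  let ev : (α ⊕ α) → G := Sum.elim f (fun a => (f a)⁻¹)
  have hacc : ∀ w : List (α ⊕ α), ((w.map ev).prod = 1 ↔ (cg q0 δ w).1 ∈ F) :=
    fun w => (hw w).1
  have htidy : ∀ w : List (α ⊕ α), (w.map ev).prod = 1 → ∀ s, (cg q0 δ w).2 s = [] :=
    fun w => (hw w).2
  choose word hword using exists_word_of_closure f hf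
  let rep : I → I → List (α ⊕ α) := fun i h => word ((el h)⁻¹ * el i)
  let clean : I → I → List (α ⊕ α) := fun i h => word ((el i)⁻¹ * el h)
  let one : I := ⟨1, Or.inl (one_mem A)⟩
  let mv : ℤˣ → I → Option (List (α ⊕ α)) := fun v i =>
    if h : el i ∈ toSubgroup A B v then
      some (word (toSubgroupEquiv φ v ⟨el i, h⟩ : G)) else none
  obtain ⟨L, hL⟩ : ∃ L, ∀ x : ℤˣ × I × I, (rep x.2.1 x.2.2).length ≤ L ∧
      (clean x.2.1 x.2.2).length ≤ L ∧ ((mv x.1 x.2.1).getD []).length ≤ L ∧ 1 ≤ L := by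
    obtain ⟨L, hL⟩ := (Set.finite_range (fun x : ℤˣ × I × I =>
      (rep x.2.1 x.2.2).length + (clean x.2.1 x.2.2).length +
        ((mv x.1 x.2.1).getD []).length)).bddAbove
    refine ⟨L + 1, fun x => ?_⟩
    have := hL ⟨x, rfl⟩
    simp only at this
    omega
  have hL1 : 1 ≤ L := (hL (1, one, one)).2.2.2
  have hrL : ∀ i h, (rep i h).length ≤ L := fun i h => (hL (1, i, h)).1
  have hcL : ∀ i h, (clean i h).length ≤ L := fun i h => (hL (1, i, h)).2.1
  have hrep : ∀ i h, ((rep i h).map ev).prod = (el h)⁻¹ * el i := fun i h => hword _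
  have hclean : ∀ i h, ((clean i h).map ev).prod = (el i)⁻¹ * el h := fun i h => hword _
  have hm1 : ∀ v i, mv v i = none → el i ∉ toSubgroup A B v := by
    intro v i h h1
    simp only [mv] at h
    rw [dif_pos h1] at h
    exact absurd h (by simp)
  have hm2 : ∀ v i w, mv v i = some w → w.length ≤ L ∧ ∃ h : el i ∈ toSubgroup A B v,
      (w.map ev).prod = (toSubgroupEquiv φ v ⟨el i, h⟩ : G) := by
    intro v i w h
    have h3 := (hL (v, i, i)).2.2.1
    simp only at h3
    rw [h] at h3
    refine ⟨h3, ?_⟩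
    simp only [mv] at h
    split_ifs at h with h1
    · refine ⟨h1, ?_⟩
      rw [← Option.some.inj h]
      exact hword _
  have hsur : ∀ v, ∀ g ∈ toSubgroup A B v, ∃ i, el i = g := by
    intro v g hg
    rcases Int.units_eq_one_or v with rfl | rfl
    · exact ⟨⟨g, Or.inl hg⟩, rfl⟩
    · exact ⟨⟨g, Or.inr hg⟩, rfl⟩
  let letter : (α ⊕ Unit) ⊕ (α ⊕ Unit) → (α ⊕ α) ⊕ ℤˣ :=
    Sum.elim (Sum.elim (fun x => Sum.inl (Sum.inl x)) (fun _ => Sum.inr 1))
      (Sum.elim (fun x => Sum.inl (Sum.inr x)) (fun _ => Sum.inr (-1)))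
  let gen : (α ⊕ Unit) → HNNExtension G A B φ :=
    Sum.elim (fun x : α => HNNExtension.of (f x)) (fun _ : Unit => t)
  have hinit : ench q0 δ (Sum.inl one : Lv I (α ⊕ α)) [] =
      ((Sum.inl one, fun _ => []) : Y I (Fin n) (Fin m) k) := by
    refine Y_ext rfl rfl ?_
    intro h s
    rfl
  -- the run
  have hrun : ∀ w : List ((α ⊕ Unit) ⊕ (α ⊕ Unit)), ∃ (c1 : Lv I (α ⊕ α))
      (l1 : List (ℤˣ × Lv I (α ⊕ α))) (d : HCfg G),
      w.foldl (fun x a => TH q0 F δ L rep clean one mv (letter a) x)
        ((Sum.inl one, fun _ => []) : Y I (Fin n) (Fin m) k) = ench q0 δ c1 l1 ∧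
      RS ev el c1 d.1 ∧ RLs ev el l1 d.2 ∧
      ((w.map (Sum.elim gen (fun x => (gen x)⁻¹))).prod = 1 ↔ d = (1, [])) := by
    intro w
    obtain ⟨c1, l1, h1, h2, h3⟩ := runh_spec q0 F δ φ ev el hacc htidy L hL1 rep hrL hrep clean
      hcL hclean one rfl mv hm1 hm2 hsur (w.map letter) (Sum.inl one) (1, []) [] rfl
      List.Forall₂.nil
    have h4 := hprod_eq_one_iff φ ((w.map letter).map (Sum.map ev _root_.id))
    refine ⟨c1, l1, _, ?_, h2, h3, ?_⟩
    · rw [← h1, hinit, List.foldl_map]
    · rw [← h4]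
      have h5 : (w.map (Sum.elim gen (fun x => (gen x)⁻¹))) =
          ((w.map letter).map (Sum.map ev _root_.id)).map (hlet φ) := by
        rw [List.map_map, List.map_map]
        refine List.map_congr_left ?_
        rintro ((x | x) | (x | x)) _
        · rfl
        · simp [letter, gen, hlet]
        · simp [letter, gen, hlet, ev]
        · simp [letter, gen, hlet]
      rw [h5]
  have hRS : ∀ (c : Lv I (α ⊕ α)), RS ev el c 1 ↔ c = Sum.inl one := by
    rintro (i | W)
    · change el i = 1 ↔ _
      constructor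
      · intro h
        congr 1
        exact Subtype.ext h
      · intro h
        rw [Sum.inl.inj h]
    · constructor
      · intro h
        exact absurd rfl (h.2 one)
      · intro h
        exact absurd h (by simp)
  have hone : ∀ (c : Lv I (α ⊕ α)) (g : G), RS ev el c g → (stt q0 δ c = Sum.inl one ↔ g = 1) := by
    rintro (i | W) g h
    · have h1 : el i = g := h
      subst h1
      constructor
      · intro h2
        have h3 : (Sum.inl i : St I (Fin n)) = Sum.inl one := h2
        rw [Sum.inl.inj h3]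
      · intro h2
        have h3 : i = one := Subtype.ext h2
        rw [h3]
        rfl
    · constructor
      · intro h2
        have h3 : (Sum.inr (fun h => (cg q0 δ (W h)).1) : St I (Fin n)) = Sum.inl one := h2
        exact absurd h3 (by simp)
      · rintro rfl
        exact absurd rfl (h.2 one)
  have hRL : ∀ (l : List (ℤˣ × Lv I (α ⊕ α))) (l' : List (ℤˣ × G)),
      RLs ev el l l' → (l = [] ↔ l' = []) := by
    intro l l' h
    cases h <;> simp
  obtain ⟨K, hK⟩ := tidy_of_loc (A := (α ⊕ Unit) ⊕ (α ⊕ Unit)) (c := 4 + 6 * L) (by omega)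
    {w | (w.map (Sum.elim gen (fun x => (gen x)⁻¹))).prod = 1}
    (Sum.inl one : St I (Fin n)) {Sum.inl one} (none : Jh I k)
    (fun a => TH q0 F δ L rep clean one mv (letter a))
    (fun a => loc_TH q0 F δ hδ L rep clean one mv _) (by
      intro w
      obtain ⟨c1, l1, d, h1, h2, h3, h4⟩ := hrun w
      rw [Set.mem_ofPred_eq, h4, h1]
      have h5 := hRL l1 d.2 h3
      have h6 : ((ench q0 δ c1 l1 : Y I (Fin n) (Fin m) k).2 (none : Jh I k) :
          List (ℤˣ × St I (Fin n))) = [] ↔ l1 = [] := by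
        change encCh q0 δ l1 = [] ↔ l1 = []
        unfold encCh
        rw [List.map_eq_nil_iff]
      have h7 : (ench q0 δ c1 l1 : Y I (Fin n) (Fin m) k).1 = stt q0 δ c1 := rfl
      rw [h7, Set.mem_singleton_iff, hone c1 d.1 h2]
      obtain ⟨d1, d2⟩ := d
      simp only [Prod.mk.injEq] at h5 ⊢
      rw [h6, h5]) (by
      intro w hw
      obtain ⟨c1, l1, d, h1, h2, h3, h4⟩ := hrun w
      rw [Set.mem_ofPred_eq, h4] at hw
      subst hw
      have h5 := (hRL l1 [] h3).2 rfl
      subst h5
      have h6 := (hRS c1).1 h2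
      subst h6
      rw [h1, hinit]
      intro j
      rfl)
  exact ⟨K, α ⊕ Unit, inferInstance, gen, closure_hnn φ f hf, hK⟩

end Pool.Agent.Helper22.EA
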