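import Mathlib

/-!
MP_eaa19d_lc (one work tape, with helper81).  A polynomial is eventually below `2 ^ d`.
-/

namespace Pool.Helper22.EA

open Filter Topology

theorem exists_forall_poly_le_two_pow (c k : ℕ) :
    ∃ d₀ : ℕ, ∀ d : ℕ, d₀ ≤ d → 2 * (c * d) ^ k ≤ 2 ^ d := by
  have h := tendsto_pow_const_div_const_pow_of_one_lt k (r := (2 : ℝ)) (by norm_num)
  have hpos : (0 : ℝ) < 1 / (2 * (c : ℝ) ^ k + 1) := by positivity
  have h2 := (h.eventually_lt_const hpos)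
  obtain ⟨d₀, hd⟩ := eventually_atTop.1 h2
  refine ⟨d₀, fun d hdd => ?_⟩
  have h3 := hd d hdd
  have h4 : (0 : ℝ) < 2 ^ d := by positivity
  rw [div_lt_div_iff₀ h4 (by positivity)] at h3
  have h5 : (2 * ((c : ℝ) * d) ^ k) ≤ 2 ^ d := by
    have h6 : (0 : ℝ) ≤ (d : ℝ) ^ k := by positivity
    rw [mul_pow]
    nlinarith
  exact_mod_cast h5

/-- The same with an arbitrary constant factor in front. -/
theorem exists_forall_mul_poly_le_two_pow (a c k : ℕ) :
    ∃ d₀ : ℕ, ∀ d : ℕ, d₀ ≤ d → a * (c * d) ^ k ≤ 2 ^ d := by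
  have h := tendsto_pow_const_div_const_pow_of_one_lt k (r := (2 : ℝ)) (by norm_num)
  have hpos : (0 : ℝ) < 1 / (a * (c : ℝ) ^ k + 1) := by positivity
  have h2 := (h.eventually_lt_const hpos)
  obtain ⟨d₀, hd⟩ := eventually_atTop.1 h2
  refine ⟨d₀, fun d hdd => ?_⟩
  have h3 := hd d hdd
  have h4 : (0 : ℝ) < 2 ^ d := by positivity
  rw [div_lt_div_iff₀ h4 (by positivity)] at h3
  have h5 : (a * ((c : ℝ) * d) ^ k) ≤ 2 ^ d := by
    have h6 : (0 : ℝ) ≤ (d : ℝ) ^ k := by positivity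
    rw [mul_pow]
    nlinarith
  exact_mod_cast h5

end Pool.Helper22.EA
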